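import Pool.Agent.Lib.MP_38fd99_co.Q.Mass

/-!
# MP_38fd99_co, full Q1: bad pairs
-/

set_option autoImplicit false

namespace Pool.Agent.GG38.Q

open Finset Classical

theorem bad : StmtBad := by
  intro ι L E t0 t1 τ u P rho QA QB D c F' r a b hI _ hg h0 h1 hab hab0 habτ hca hfr hF' htim hrk
    hlo hDens hu hP hQA hQAB hReg
  have haE : a ∈ A E := fst_mem_A hab
  have hbE : b ∈ B E := snd_mem_B hab
  have hne : a ≠ b := by
    intro h
    have := hI.sep a haE b hbE
    rw [h] at this
    exact lt_irrefl _ this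
  have hHab : L.H a τ < L.H b τ :=
    gen_lt_of_le hg (Finset.mem_union_left _ haE) (Finset.mem_union_right _ hbE) hne
      (fst_le_snd hI hab habτ)
  let S : Finset (ι × ι) := F'.filter (fun f => L.H b τ ≤ L.H f.2 τ ∧ r f.1 ≤ c)
  have hSG : S ⊆ F' := Finset.filter_subset _ _
  have hnu : (L.nu S : ℝ) < u := by
    have h2 := L3 (L := L.neg) hI.neg (h0.trans h1) (Or.inl (rfl : a = a)) (Esw S)
      (Esw_mono (hSG.trans hF'))
      (by
        intro f hf
        obtain ⟨h2, h3, h4⟩ := Finset.mem_filter.1 (mem_Esw'.1 hf)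
        have h7 := snd_le_fst hI (hF' h2) (htim _ h2).1
        have h5 := hrk _ h2 (h4.trans hca)
        simp only [Prod.fst_swap, Prod.snd_swap] at h3 h5 h7
        have h8 : L.H a τ < L.H f.2 τ := by linarith
        have h9 := v_lt_of_over L h0 h5 h8
        have h10 := H_lt_of_le L h9 h1 h8
        rw [et_neg', L.neg_v, L.neg_v, L.neg_H, L.neg_H, L.neg_H, L.neg_H]
        exact ⟨h0.trans (htim _ h2).1, (htim _ h2).2, by linarith, by linarith, by linarith⟩)
    rw [L.nu_neg] at h2
    have h3 := hfr.1
    have h4 : ((lV L.neg (Esw E) t0 a : ℝ) + L.nu S) ≤ lV L.neg (Esw E) t1 a := by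
      exact_mod_cast h2
    linarith
  have hcnt : (F'.filter (fun e => L.H b τ ≤ L.H e.2 τ)).card ≤ (D + 1) * S.card := by
    rw [Finset.card_eq_sum_card_fiberwise (f := Prod.snd) (t := B F')
      (s := F'.filter (fun e => L.H b τ ≤ L.H e.2 τ)) (by
        intro e he
        exact Finset.mem_coe.2 (snd_mem_B (Finset.mem_filter.1 (Finset.mem_coe.1 he)).1)),
      Finset.card_eq_sum_card_fiberwise (f := Prod.snd) (t := B F') (s := S) (by
        intro e he
        exact Finset.mem_coe.2 (snd_mem_B (hSG (Finset.mem_coe.1 he)))), Finset.mul_sum]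
    apply Finset.sum_le_sum
    intro z hz
    by_cases hxz : L.H b τ ≤ L.H z τ
    · have h2 := hlo z hz
      have e1 : (F'.filter (fun e => L.H b τ ≤ L.H e.2 τ)).filter (fun e => e.2 = z) =
          F'.filter (fun e => e.2 = z) := by
        ext e
        simp only [Finset.mem_filter]
        constructor
        · rintro ⟨⟨h3, _⟩, h4⟩
          exact ⟨h3, h4⟩
        · rintro ⟨h3, rfl⟩
          exact ⟨⟨h3, hxz⟩, rfl⟩
      have e2 : S.filter (fun e => e.2 = z) = F'.filter (fun e => e.2 = z ∧ r e.1 ≤ c) := by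
        ext e
        simp only [S, Finset.mem_filter]
        constructor
        · rintro ⟨⟨h3, _, h4⟩, h5⟩
          exact ⟨h3, h5, h4⟩
        · rintro ⟨h3, rfl, h4⟩
          exact ⟨⟨h3, hxz, h4⟩, rfl⟩
      rw [e1, e2]
      exact h2
    · have e1 : (F'.filter (fun e => L.H b τ ≤ L.H e.2 τ)).filter (fun e => e.2 = z) = ∅ := by
        rw [Finset.filter_eq_empty_iff]
        intro e he h
        rw [Finset.mem_filter] at he
        exact hxz (h ▸ he.2)
      rw [e1]
      simp
  have hcnt' : ((F'.filter (fun e => L.H b τ ≤ L.H e.2 τ)).card : ℝ) ≤ (D + 1) * S.card := by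
    exact_mod_cast hcnt
  have hS1 := hDens S hSG
  have hA1 : ((A S).card : ℝ) ≤ (A F').card := by
    exact_mod_cast Finset.card_le_card (A_mono hSG)
  have hB1 : ((B S).card : ℝ) ≤ (B F').card := by
    exact_mod_cast Finset.card_le_card (B_mono hSG)
  unfold Reg at hReg
  have h3 : QA * ((A F').card + (B F').card) ≤ rho * F'.card := by
    have : (0 : ℝ) ≤ (B F').card := by positivity
    nlinarith
  have h4 : (S.card : ℝ) ≤ P * rho * (u / QA) * F'.card := by
    calc (S.card : ℝ) ≤ P * ((A S).card + (B S).card) * L.nu S := hS1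
      _ ≤ P * ((A F').card + (B F').card) * u := by
          apply mul_le_mul _ hnu.le (by positivity) (by positivity)
          exact mul_le_mul_of_nonneg_left (add_le_add hA1 hB1) hP.le
      _ = P * (QA * ((A F').card + (B F').card)) * (u / QA) := by
          field_simp
      _ ≤ P * (rho * F'.card) * (u / QA) := by
          apply mul_le_mul_of_nonneg_right _ (by positivity)
          exact mul_le_mul_of_nonneg_left h3 hP.le
      _ = _ := by ring
  calc _ ≤ _ := hcnt'
    _ ≤ (D + 1) * (P * rho * (u / QA) * F'.card) := mul_le_mul_of_nonneg_left h4 (by positivity)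
    _ = _ := by ring

end Pool.Agent.GG38.Q
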