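import Pool.Agent.Lib.MP_38fd99_co.Q.Mass

/-!
# MP_38fd99_co, full Q1: a long block of windows is a bundle
-/

set_option autoImplicit false

namespace Pool.Agent.GG38.Q

open Finset Classical

namespace BlockAux

variable {ι : Type}

/-- many windows contain a fraction `1/(2c)` if the mean is at least `1/c` -/
theorem many_windows (T : Finset ℕ) (x : ℕ → ℝ) (c : ℝ) (hc : 1 ≤ c)
    (h1 : ∀ j ∈ T, x j ≤ 1) (hT : T.Nonempty) (hm : 1 / c ≤ (∑ j ∈ T, x j) / T.card) :
    (T.card : ℝ) ≤ 2 * c * (T.filter (fun j => 1 / (2 * c) ≤ x j)).card := by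
  have hc0 : (0 : ℝ) < T.card := by exact_mod_cast hT.card_pos
  have hcp : 0 < c := by linarith
  rw [le_div_iff₀ hc0] at hm
  have h2 : ∑ j ∈ T, x j ≤ ∑ j ∈ T, ((if 1 / (2 * c) ≤ x j then (1 : ℝ) else 0) +
      1 / (2 * c)) := by
    apply Finset.sum_le_sum
    intro j hj
    have h3 : 0 ≤ 1 / (2 * c) := by positivity
    split_ifs with h
    · have := h1 j hj
      linarith
    · push Not at h
      linarith
  rw [Finset.sum_add_distrib, Finset.sum_ite, Finset.sum_const_zero, Finset.sum_const,
    Finset.sum_const, nsmul_eq_mul, nsmul_eq_mul, mul_one, add_zero] at h2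
  have h3 : 1 / c * T.card ≤ ((T.filter (fun j => 1 / (2 * c) ≤ x j)).card : ℝ) +
      T.card * (1 / (2 * c)) := hm.trans h2
  have h4 : 2 * c * (1 / c * T.card) = 2 * T.card := by field_simp
  have h5 : 2 * c * (T.card * (1 / (2 * c))) = (T.card : ℝ) := by field_simp
  have h6 := mul_le_mul_of_nonneg_left h3 (show (0 : ℝ) ≤ 2 * c by positivity)
  rw [h4, mul_add, h5] at h6
  linarith

/-- value of a part of mass `≥ 1/k` of a block -/
theorem block_value (hVLC : StmtVLC) (hBM : StmtBlockMass) {L : Lines ι} {E : Finset (ι × ι)}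
    {t0 t1 : ℝ} {T T' : Finset ℕ} {s s' : ℕ → ℝ} {F : ℕ → Finset (ι × ι)} {r : ι → ℕ} {c D : ℕ}
    {QA QB P rho N : ℝ} (h : NodeWins L E t0 t1 T s s' F r c D QA QB P rho N) (hT' : T' ⊆ T)
    (hne : T'.Nonempty) (hcard : 600 * (QB / QA) * (N / uA4 QA P rho D + 1) ^ 2 ≤ (T'.card : ℝ))
    (k : ℝ) (hk1 : 1 ≤ k) (hk2 : k ≤ 100) (p : ι → Prop)
    (hp : 1 / k ≤ ms (T'.biUnion F) (bw F T') p) :
    QB / (25600 * P * (2 * k * rho) ^ 2) ≤ (L.nu ((T'.biUnion F).filter (fun e => p e.2)) : ℝ) := by
  have hP0 : 0 < P := by linarith [h.P1]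
  have hr0 : 0 < rho := by linarith [h.rho1]
  have hQA := h.QA0
  have hQB : 0 < QB := lt_of_lt_of_le hQA h.QAB
  have hN0 : 0 ≤ N := le_trans (by positivity) h.nuE
  have hkp : 0 < k := by linarith
  rw [hBM] at hp
  have hcF : ∀ j ∈ T', (0 : ℝ) < (F j).card := fun j hj => by
    exact_mod_cast (h.wins.ne j (hT' hj)).card_pos
  have hm := many_windows T' (fun j => (((F j).filter (fun e => p e.2)).card : ℝ) / (F j).card) k
    hk1 (by
      intro j hj
      apply div_le_one_of_le₀ _ (hcF j hj).le
      exact_mod_cast Finset.card_le_card (Finset.filter_subset _ _)) hne hp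
  set T1 : Finset ℕ := T'.filter (fun j => 1 / (2 * k) ≤
    (((F j).filter (fun e => p e.2)).card : ℝ) / (F j).card) with hT1
  have hc0 : (0 : ℝ) < T'.card := by exact_mod_cast hne.card_pos
  have hT1pos : (0 : ℝ) < T1.card := by
    by_contra hcon
    push Not at hcon
    have : 2 * k * (T1.card : ℝ) ≤ 0 := mul_nonpos_of_nonneg_of_nonpos (by positivity) hcon
    linarith
  have hT1ne : T1.Nonempty := by
    rw [← Finset.card_pos]
    exact_mod_cast hT1pos
  have hT1T' : T1 ⊆ T' := Finset.filter_subset _ _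
  have hT1T : T1 ⊆ T := hT1T'.trans hT'
  have hfrac : ∀ j ∈ T1, ((F j).card : ℝ) ≤ 2 * k * ((F j).filter (fun e => p e.2)).card := by
    intro j hj
    have h1 := (Finset.mem_filter.1 hj).2
    rw [div_le_div_iff₀ (by positivity) (hcF j (hT1T' hj))] at h1
    linarith
  have hfne : ∀ j ∈ T1, ((F j).filter (fun e => p e.2)).Nonempty := by
    intro j hj
    have h1 := hfrac j hj
    have h2 := hcF j (hT1T' hj)
    rw [← Finset.card_pos]
    have : (0 : ℝ) < ((F j).filter (fun e => p e.2)).card := by
      by_contra hcon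
      push Not at hcon
      have : 2 * k * (((F j).filter (fun e => p e.2)).card : ℝ) ≤ 0 :=
        mul_nonpos_of_nonneg_of_nonpos (by positivity) hcon
      linarith
    exact_mod_cast this
  have hW : Wins L E t0 t1 T1 s s' (fun j => (F j).filter (fun e => p e.2)) :=
    h.wins.restrict hT1T (fun j _ => Finset.filter_subset _ _) hfne
  have hu0 : 0 < uA4 QA P rho D := by
    unfold uA4
    positivity
  have hD1 : (1 : ℝ) ≤ (D : ℝ) + 1 := by
    have : (0 : ℝ) ≤ (D : ℝ) := by positivity
    linarith
  have huA : uA4 QA P rho D ≤ QA / (800 * P * (2 * k * rho)) := by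
    unfold uA4
    apply div_le_div_of_nonneg_left hQA.le (by positivity)
    have h1 : 800 * P * (2 * k * rho) = (1600 * k) * (P * rho) := by ring
    have h2 : 160000 * ((D : ℝ) + 1) * P * rho = (160000 * (D + 1)) * (P * rho) := by ring
    rw [h1, h2]
    apply mul_le_mul_of_nonneg_right _ (by positivity)
    nlinarith
  have key := hVLC ι L.neg (Esw E) t0 t1 T1 s s' (fun j => Esw ((F j).filter (fun e => p e.2)))
    QB QA P (2 * k * rho) N hW.neg hT1ne hQA h.QAB h.P1 (by nlinarith [h.rho1])
    (by rw [L.nu_neg]; exact h.nuE)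
    (by
      intro j hj b
      rw [dB_Esw]
      refine le_trans ?_ (h.degA j (hT1T hj) b)
      exact_mod_cast Finset.card_le_card (Finset.filter_subset_filter _
        (Finset.filter_subset _ _)))
    (fun j hj => Dens_Esw ((h.dens j (hT1T hj)).mono (Finset.filter_subset _ _)))
    (fun j hj => Reg_Esw (reg_sub (h.reg j (hT1T hj)) (Finset.filter_subset _ _) hQA.le hQB.le
      hr0.le (hfrac j hj)))
    (by
      intro j hj x hx
      rw [B_Esw] at hx
      exact (h.frA j (hT1T hj) x (A_mono (Finset.filter_subset _ _) hx)).mono huA)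
    (by
      have h1 : N / (QA / (800 * P * (2 * k * rho))) ≤ N / uA4 QA P rho D :=
        div_le_div_of_nonneg_left hN0 hu0 huA
      have h2 : (0 : ℝ) ≤ N / (QA / (800 * P * (2 * k * rho))) := by positivity
      have h3 : (N / (QA / (800 * P * (2 * k * rho))) + 1) ^ 2 ≤
          (N / uA4 QA P rho D + 1) ^ 2 := by
        apply pow_le_pow_left₀ (by positivity)
        linarith
      have h4 : QB / QA * (3 * (N / (QA / (800 * P * (2 * k * rho))) + 1) ^ 2) ≤
          QB / QA * (3 * (N / uA4 QA P rho D + 1) ^ 2) := by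
        apply mul_le_mul_of_nonneg_left _ (by positivity)
        linarith
      have h5 : 200 * (QB / QA * (3 * (N / uA4 QA P rho D + 1) ^ 2)) ≤ T'.card := by
        linarith
      have h6 : (T'.card : ℝ) ≤ 200 * T1.card := by
        refine hm.trans ?_
        apply mul_le_mul_of_nonneg_right _ hT1pos.le
        linarith
      linarith)
  have e1 : T1.biUnion (fun j => Esw ((F j).filter (fun e => p e.2))) =
      Esw (T1.biUnion (fun j => (F j).filter (fun e => p e.2))) := by
    ext e
    rw [mem_Esw', Finset.mem_biUnion, Finset.mem_biUnion]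
    constructor
    · rintro ⟨j, hj, h⟩
      exact ⟨j, hj, mem_Esw'.1 h⟩
    · rintro ⟨j, hj, h⟩
      exact ⟨j, hj, mem_Esw'.2 h⟩
  rw [e1, L.nu_neg] at key
  refine key.trans ?_
  have h3 : T1.biUnion (fun j => (F j).filter (fun e => p e.2)) ⊆
      (T'.biUnion F).filter (fun e => p e.2) := by
    intro e he
    obtain ⟨j, hj, h4⟩ := Finset.mem_biUnion.1 he
    rw [Finset.mem_filter] at h4
    rw [Finset.mem_filter, Finset.mem_biUnion]
    exact ⟨⟨j, hT1T' hj, h4.1⟩, h4.2⟩
  exact_mod_cast L.nu_mono h3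

end BlockAux

open BlockAux in
theorem blockBundle (hVLC : StmtVLC) (hBM : StmtBlockMass) : StmtBlockBundle := by
  intro ι L E t0 t1 T s s' F r c D QA QB P rho N T' lo hi h hT' hlo hhi hbd hcard
  have hne : T'.Nonempty := ⟨lo, hlo⟩
  have hP0 : 0 < P := by linarith [h.P1]
  have hr0 : 0 < rho := by linarith [h.rho1]
  have hQB : 0 < QB := lt_of_lt_of_le h.QA0 h.QAB
  have hc0 : (0 : ℝ) < T'.card := by exact_mod_cast hne.card_pos
  have hle1 : ∀ j ∈ T', s lo ≤ s j := by
    intro j hj
    rcases (hbd j hj).1.lt_or_eq with h1 | h1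
    · exact (h.wins.ss' _ (hT' hlo)).trans (h.wins.mono _ (hT' hlo) _ (hT' hj) h1)
    · rw [h1]
  have hle2 : ∀ j ∈ T', s' j ≤ s' hi := by
    intro j hj
    rcases (hbd j hj).2.lt_or_eq with h1 | h1
    · exact (h.wins.mono _ (hT' hj) _ (hT' hhi) h1).trans (h.wins.ss' _ (hT' hhi))
    · rw [h1]
  exact
    { t0s := h.wins.t0s _ (hT' hlo)
      ss' := (h.wins.ss' _ (hT' hlo)).trans (hle2 _ hlo)
      s't1 := h.wins.s't1 _ (hT' hhi)
      gs := h.wins.gs _ (hT' hlo)
      gs' := h.wins.gs' _ (hT' hhi)
      sub := by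
        intro e he
        obtain ⟨j, hj, h1⟩ := Finset.mem_biUnion.1 he
        exact h.wins.sub j (hT' hj) h1
      tim := by
        intro e he
        obtain ⟨j, hj, h1⟩ := Finset.mem_biUnion.1 he
        have h2 := h.wins.tim j (hT' hj) e h1
        exact ⟨(hle1 j hj).trans h2.1, h2.2.trans (hle2 j hj)⟩
      w0 := by
        intro x
        unfold bw
        apply div_nonneg _ hc0.le
        exact Finset.sum_nonneg (fun j _ => by positivity)
      w1 := by
        rw [hBM]
        trans (∑ _j ∈ T', (1 : ℝ)) / T'.card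
        · congr 1
          apply Finset.sum_congr rfl
          intro j hj
          have h2 : (0 : ℝ) < (F j).card := by exact_mod_cast (h.wins.ne j (hT' hj)).card_pos
          rw [div_eq_one_iff_eq h2.ne']
          congr 2
          simp only [Finset.filter_true]
        rw [Finset.sum_const, nsmul_eq_mul, mul_one]
        exact div_self hc0.ne'
      v0 := by
        intro p hp
        have h1 := block_value hVLC hBM h hT' hne hcard 100 (by norm_num) (by norm_num) p hp
        refine le_trans (le_of_eq ?_) h1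
        unfold uB4
        congr 1
        ring
      v1 := by
        intro p hp
        have h1 := block_value hVLC hBM h hT' hne hcard 8 (by norm_num) (by norm_num) p hp
        refine le_trans ?_ h1
        unfold uB4
        rw [← mul_div_assoc, div_le_div_iff₀ (by positivity) (by positivity)]
        have h2 : 0 ≤ QB * P * rho ^ 2 := by positivity
        nlinarith
      fr := by
        intro x hx
        obtain ⟨e, he, rfl⟩ := Finset.mem_image.1 hx
        obtain ⟨j, hj, h1⟩ := Finset.mem_biUnion.1 he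
        exact h.frB j (hT' hj) _ (snd_mem_B h1) }

end Pool.Agent.GG38.Q
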