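import Pool.Agent.Lib.MP_38fd99_co.Q.Mass

/-!
# MP_38fd99_co, full Q1: mass of a block
-/

set_option autoImplicit false

namespace Pool.Agent.GG38.Q

open Finset Classical

theorem blockMass : StmtBlockMass := by
  intro ι F T p
  have h1 : ms (T.biUnion F) (bw F T) p =
      (∑ z ∈ B (T.biUnion F), ∑ j ∈ T, (if p z then (dB (F j) z : ℝ) / (F j).card else 0)) /
        T.card := by
    unfold ms bw
    rw [Finset.sum_div]
    apply Finset.sum_congr rfl
    intro z _
    split_ifs
    · rfl
    · simp
  rw [h1, Finset.sum_comm]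
  congr 1
  apply Finset.sum_congr rfl
  intro j hj
  have h2 : ∑ z ∈ B (T.biUnion F), (if p z then (dB (F j) z : ℝ) / (F j).card else 0) =
      ∑ z ∈ B (F j), (if p z then (dB (F j) z : ℝ) / (F j).card else 0) := by
    symm
    apply Finset.sum_subset (B_mono (Finset.subset_biUnion_of_mem F hj))
    intro z _ hz
    split_ifs
    · rw [dB_eq_zero hz]
      simp
    · rfl
  rw [h2]
  exact ms_dw (F j) p

end Pool.Agent.GG38.Q
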