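import Pool.Agent.Lib.MP_38fd99_co.Q.Spec

/-!
# MP_38fd99_co, full Q1: the discrete clock
-/

set_option autoImplicit false

namespace Pool.Agent.GG38.Q

open Finset Classical

namespace ClockM

open scoped Topology

/-- a positive number smaller than all the distances between the points of a finite set -/
theorem exists_gap (Z : Finset ℝ) : ∃ ε : ℝ, 0 < ε ∧ ∀ z ∈ Z, ∀ z' ∈ Z, z ≠ z' → ε < |z - z'| := by
  have h1 : ∀ {b : ℝ}, 0 < b → ∀ᶠ a in 𝓝[>] (0 : ℝ), a < b := fun hb =>
    nhdsWithin_le_nhds (Iio_mem_nhds hb)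
  have h2 : ∀ᶠ a in 𝓝[>] (0 : ℝ), ∀ p ∈ Z ×ˢ Z, p.1 ≠ p.2 → a < |p.1 - p.2| := by
    rw [Filter.eventually_all_finset]
    intro p _
    by_cases he : p.1 = p.2
    · exact Filter.Eventually.of_forall fun a h => absurd he h
    · exact (h1 (abs_pos.2 (sub_ne_zero.2 he))).mono fun a ha _ => ha
  have h3 : ∀ᶠ a in 𝓝[>] (0 : ℝ), 0 < a := self_mem_nhdsWithin
  obtain ⟨a, ha, hb⟩ := (h3.and h2).exists
  exact ⟨a, ha, fun z hz z' hz' hne => hb (z, z') (Finset.mk_mem_product hz hz') hne⟩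

theorem clock_real (Z τ : Finset ℝ) (hτ : τ ⊆ Z) (hne : τ.Nonempty) :
    ∃ (θ : ℕ → ℝ) (rk : ℝ → ℕ), Monotone θ ∧ (∀ j, θ j ∉ Z) ∧ (∀ t ∈ τ, rk t < τ.card) ∧
      (∀ t ∈ τ, θ (rk t) ≤ t ∧ t ≤ θ (rk t + 1)) ∧ (∀ j < τ.card, ∃ t ∈ τ, rk t = j) ∧
      ∀ s ∈ τ, ∀ t ∈ τ, rk s = rk t → s = t := by
  obtain ⟨ε, hε, hgap⟩ := exists_gap Z
  set rk : ℝ → ℕ := fun t => (τ.filter (fun s => s < t)).card with hrk
  have hmono : ∀ s ∈ τ, ∀ t, s < t → rk s < rk t := by
    intro s hs t hst
    apply Finset.card_lt_card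
    rw [Finset.ssubset_iff_of_subset]
    · refine ⟨s, Finset.mem_filter.2 ⟨hs, hst⟩, fun h => ?_⟩
      exact lt_irrefl _ (Finset.mem_filter.1 h).2
    · intro r hr
      rw [Finset.mem_filter] at hr ⊢
      exact ⟨hr.1, hr.2.trans hst⟩
  have hlt : ∀ t ∈ τ, rk t < τ.card := by
    intro t ht
    apply Finset.card_lt_card
    rw [Finset.ssubset_iff_of_subset (Finset.filter_subset _ _)]
    exact ⟨t, ht, fun h => lt_irrefl _ (Finset.mem_filter.1 h).2⟩
  have hinj : ∀ s ∈ τ, ∀ t ∈ τ, rk s = rk t → s = t := by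
    intro s hs t ht h
    rcases lt_trichotomy s t with h1 | h1 | h1
    · exact absurd h (hmono s hs t h1).ne
    · exact h1
    · exact absurd h.symm (hmono t ht s h1).ne
  have hrklt : ∀ s ∈ τ, ∀ t ∈ τ, rk s < rk t → s < t := by
    intro s hs t ht h
    by_contra hcon
    rcases lt_or_eq_of_le (not_lt.1 hcon) with h1 | h1
    · exact absurd (hmono t ht s h1) (not_lt.2 h.le)
    · rw [h1] at h
      exact lt_irrefl _ h
  set S : ℕ → Finset ℝ := fun j => τ.filter (fun t => rk t < j) with hS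
  have hSmono : ∀ i j, i ≤ j → S i ⊆ S j := by
    intro i j hij t ht
    rw [hS] at ht ⊢
    simp only [Finset.mem_filter] at ht ⊢
    exact ⟨ht.1, lt_of_lt_of_le ht.2 hij⟩
  set m0 : ℝ := τ.min' hne with hm0
  have hm0τ : m0 ∈ τ := Finset.min'_mem _ _
  have hm0le : ∀ t ∈ τ, m0 ≤ t := fun t ht => Finset.min'_le _ _ ht
  set θ : ℕ → ℝ := fun j => if h : (S j).Nonempty then (S j).max' h + ε else m0 - ε with hθ
  have hθ1 : ∀ j (h : (S j).Nonempty), θ j = (S j).max' h + ε := by
    intro j h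
    simp only [hθ, dif_pos h]
  have hθ2 : ∀ j, ¬ (S j).Nonempty → θ j = m0 - ε := by
    intro j h
    simp only [hθ, dif_neg h]
  refine ⟨θ, rk, ?_, ?_, hlt, ?_, ?_, hinj⟩
  · intro i j hij
    by_cases hi : (S i).Nonempty
    · have hj : (S j).Nonempty := hi.mono (hSmono i j hij)
      rw [hθ1 i hi, hθ1 j hj]
      have := Finset.max'_subset hi (hSmono i j hij)
      linarith
    · rw [hθ2 i hi]
      by_cases hj : (S j).Nonempty
      · rw [hθ1 j hj]
        have h1 := Finset.max'_mem (S j) hj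
        have h2 := hm0le _ (Finset.mem_filter.1 h1).1
        linarith
      · rw [hθ2 j hj]
  · intro j hj
    by_cases hn : (S j).Nonempty
    · have h1 := Finset.max'_mem (S j) hn
      have h2 := hτ (Finset.mem_filter.1 h1).1
      rw [hθ1 j hn] at hj
      have h3 := hgap _ hj _ h2 (by linarith)
      rw [show (S j).max' hn + ε - (S j).max' hn = ε by ring, abs_of_pos hε] at h3
      exact lt_irrefl _ h3
    · rw [hθ2 j hn] at hj
      have h3 := hgap _ hj _ (hτ hm0τ) (by linarith)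
      rw [show m0 - ε - m0 = -ε by ring, abs_neg, abs_of_pos hε] at h3
      exact lt_irrefl _ h3
  · intro t ht
    constructor
    · by_cases hn : (S (rk t)).Nonempty
      · have h1 := Finset.max'_mem (S (rk t)) hn
        have h2 := Finset.mem_filter.1 h1
        have h3 := hrklt _ h2.1 t ht h2.2
        have h4 := hgap _ (hτ ht) _ (hτ h2.1) h3.ne'
        rw [abs_of_pos (by linarith)] at h4
        rw [hθ1 _ hn]
        linarith
      · rw [hθ2 _ hn]
        have := hm0le t ht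
        linarith
    · have h1 : t ∈ S (rk t + 1) := Finset.mem_filter.2 ⟨ht, Nat.lt_succ_self _⟩
      have hn : (S (rk t + 1)).Nonempty := ⟨t, h1⟩
      rw [hθ1 _ hn]
      have := Finset.le_max' _ _ h1
      linarith
  · have h1 : τ.image rk = Finset.range τ.card := by
      apply Finset.eq_of_subset_of_card_le
      · intro j hj
        obtain ⟨t, ht, rfl⟩ := Finset.mem_image.1 hj
        exact Finset.mem_range.2 (hlt t ht)
      · rw [Finset.card_range, Finset.card_image_of_injOn]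
        intro s hs t ht h
        exact hinj s hs t ht h
    intro j hj
    have h2 : j ∈ τ.image rk := by
      rw [h1]
      exact Finset.mem_range.2 hj
    exact Finset.mem_image.1 h2

/-- edges happening at the same time are separated -/
theorem disj_of_eq {ι : Type} {L : Lines ι} {E : Finset (ι × ι)} (hI : Inst L E) {e f : ι × ι}
    (he : e ∈ E) (hf : f ∈ E) (hef : e ≠ f) (ht : et L e = et L f) : L.Disj e f := by
  have heA := fst_mem_A he
  have heB := snd_mem_B he
  have hfA := fst_mem_A hf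
  have hfB := snd_mem_B hf
  have ve : L.v e.1 < L.v e.2 := hI.sep _ heA _ heB
  have vf : L.v f.1 < L.v f.2 := hI.sep _ hfA _ hfB
  have h1 : L.H e.1 (et L e) = L.H e.2 (et L e) := L.H_tm ve.ne
  have h2 : L.H f.1 (et L e) = L.H f.2 (et L e) := by
    rw [ht]
    exact L.H_tm vf.ne
  have hne : L.H e.1 (et L e) ≠ L.H f.1 (et L e) := by
    intro h
    by_cases h3 : e.1 = f.1
    · have h4 : e.2 ≠ f.2 := fun h5 => hef (Prod.ext h3 h5)
      have h6 := hI.gp e.1 (Finset.mem_union_left _ heA) e.2 (Finset.mem_union_right _ heB) f.2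
        (Finset.mem_union_right _ hfB) (fun h5 => ve.ne (congrArg L.v h5))
        (fun h5 => by
          rw [h3] at h5
          exact vf.ne (congrArg L.v h5)) h4
      apply h6
      have h7 : L.tm e.1 e.2 = L.tm f.1 f.2 := ht
      rw [h7, h3]
    · have h4 : L.v e.1 ≠ L.v f.1 := fun h5 => h3 (hI.inj
        (Finset.mem_coe.2 (Finset.mem_union_left _ heA))
        (Finset.mem_coe.2 (Finset.mem_union_left _ hfA)) h5)
      have h5 := (L.eq_iff h4 _).1 h
      have h6 := hI.gp e.1 (Finset.mem_union_left _ heA) e.2 (Finset.mem_union_right _ heB) f.1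
        (Finset.mem_union_left _ hfA) (fun h5 => ve.ne (congrArg L.v h5)) h3
        (fun h7 => (hI.sep _ hfA _ heB).ne (congrArg L.v h7.symm))
      exact h6 h5
  rcases lt_or_gt_of_ne hne with h3 | h3
  · refine Or.inl ⟨et L e, h3, ?_, ?_, ?_⟩
    · rw [← h2]; exact h3
    · rw [← h1]; exact h3
    · rw [← h1, ← h2]; exact h3
  · refine Or.inr ⟨et L e, h3, ?_, ?_, ?_⟩
    · rw [← h1]; exact h3
    · rw [← h2]; exact h3
    · rw [← h1, ← h2]; exact h3

end ClockM

open ClockM in
theorem clock : StmtClock := by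
  intro ι L E hI
  rcases E.eq_empty_or_nonempty with rfl | hE
  · refine ⟨fun _ => 0, fun _ => 0, 0, ⟨fun _ _ _ => le_rfl, ?_, ?_, ?_, ?_, ?_, ?_⟩⟩
    · intro j x hx
      simp [A, B] at hx
    · intro e he
      exact absurd he (Finset.notMem_empty e)
    · intro e he
      exact absurd he (Finset.notMem_empty e)
    · intro e he
      exact absurd he (Finset.notMem_empty e)
    · intro j hj
      exact absurd hj (Nat.not_lt_zero j)
    · intro j
      simp
  set X : Finset ι := A E ∪ B E with hX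
  set Z : Finset ℝ := X.offDiag.image (fun p => L.tm p.1 p.2) with hZ
  set τ : Finset ℝ := E.image (et L) with hτ
  have hτZ : τ ⊆ Z := by
    intro t ht
    obtain ⟨e, he, rfl⟩ := Finset.mem_image.1 ht
    refine Finset.mem_image.2 ⟨e, ?_, rfl⟩
    rw [Finset.mem_offDiag]
    refine ⟨Finset.mem_union_left _ (fst_mem_A he), Finset.mem_union_right _ (snd_mem_B he), ?_⟩
    intro h
    exact (hI.sep _ (fst_mem_A he) _ (snd_mem_B he)).ne (congrArg L.v h)
  obtain ⟨θ, rk, h1, h2, h3, h4, h5, h6⟩ := clock_real Z τ hτZ (hE.image _)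
  have hmem : ∀ e ∈ E, et L e ∈ τ := fun e he => Finset.mem_image_of_mem _ he
  refine ⟨θ, fun e => rk (et L e), τ.card, ⟨h1, ?_, ?_, ?_, ?_, ?_, ?_⟩⟩
  · intro j x hx y hy hxy hH
    have hv : L.v x ≠ L.v y := fun h =>
      hxy (hI.inj (Finset.mem_coe.2 hx) (Finset.mem_coe.2 hy) h)
    have h7 := (L.eq_iff hv _).1 hH
    apply h2 j
    rw [h7]
    exact Finset.mem_image.2 ⟨(x, y), Finset.mem_offDiag.2 ⟨hx, hy, hxy⟩, rfl⟩
  · exact fun e he => h3 _ (hmem e he)
  · exact fun e he => (h4 _ (hmem e he)).1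
  · exact fun e he => (h4 _ (hmem e he)).2
  · intro j hj
    obtain ⟨t, ht, htj⟩ := h5 j hj
    obtain ⟨e, he, rfl⟩ := Finset.mem_image.1 ht
    exact ⟨e, Finset.mem_filter.2 ⟨he, htj⟩⟩
  · intro j
    refine L.card_le_nu (Finset.filter_subset _ _) ?_
    intro e he f hf hef
    rw [Finset.mem_coe, Finset.mem_filter] at he hf
    exact disj_of_eq hI he.1 hf.1 hef
      (h6 _ (hmem e he.1) _ (hmem f hf.1) (he.2.trans hf.2.symm))

end Pool.Agent.GG38.Q
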