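import Pool.Agent.Lib.MP_38fd99_co.Q.Mass

/-!
# MP_38fd99_co, full Q1: the degree bounds
-/

set_option autoImplicit false

namespace Pool.Agent.GG38.Q

open Finset Classical

theorem minDeg : StmtMin := by
  intro ι L F QA QB P rho N hne hQA hQB hP hN hD hR
  have hF : (0 : ℝ) < F.card := by exact_mod_cast Finset.card_pos.2 hne
  have hrho : 0 ≤ rho := by
    by_contra h
    push Not at h
    unfold Reg at hR
    have h1 : rho * F.card < 0 := mul_neg_of_neg_of_pos h hF
    have h2 : 0 ≤ QA * (A F).card + QB * (B F).card := by positivity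
    linarith
  have h1 := nu_ge_of_reg (Q := min QA QB) hD (Finset.Subset.refl _) hne hR hrho
    (min_le_left _ _) (min_le_right _ _)
  exact h1.trans (mul_le_mul_of_nonneg_left hN (by positivity))

theorem degV (h : StmtVL) : StmtV := by
  intro ι L E t0 t1 T s s' F QA QB P rho N hW hQA hQB hP hrho hN hdB hD hR hfr hcard
  have hN0 : 0 ≤ N := le_trans (by positivity) hN
  have hP0 : 0 < P := by linarith
  have hr0 : 0 < rho := by linarith
  have hu : 0 < QB / (800 * P * rho) := by positivity
  have hNu : 0 ≤ N / (QB / (800 * P * rho)) := by positivity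
  have hT0 : (0 : ℝ) < T.card := by
    refine lt_of_lt_of_le ?_ hcard
    positivity
  have hT : T.Nonempty := Finset.card_pos.1 (by exact_mod_cast hT0)
  obtain ⟨j, hj⟩ := hT
  have hnj : (L.nu (F j) : ℝ) ≤ N := by
    refine le_trans ?_ hN
    exact_mod_cast L.nu_mono (hW.sub j hj)
  have hmin := minDeg ι L (F j) QA QB P rho N (hW.ne j hj) hQA hQB hP hnj (hD j hj) (hR j hj)
  set y : ℝ := N / (QB / (800 * P * rho)) with hy
  have hyN : QB * y = 800 * P * rho * N := by
    rw [hy]
    field_simp
  set R : ℕ := ⌊2 * y⌋₊ + 1 with hRdef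
  have hR1 : 1 ≤ R := by omega
  have hRle : (R : ℝ) ≤ 2 * y + 1 := by
    have h1 : ((⌊2 * y⌋₊ : ℕ) : ℝ) ≤ 2 * y := Nat.floor_le (by positivity)
    rw [hRdef]
    push_cast
    linarith
  have hRlt : 2 * y < R := by
    have h1 := Nat.lt_floor_add_one (2 * y)
    rw [hRdef]
    push_cast
    exact h1
  by_cases hc : 8 * rho * QB * R ≤ QA
  · exfalso
    have key := h ι L E t0 t1 T s s' F QA QB P rho N R hW hQB hP hrho hN hdB hD hR hfr hR1 hc
      (le_trans (mul_le_mul_of_nonneg_right hRle (by positivity)) hcard)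
    have h2 : (L.nu (T.biUnion F) : ℝ) ≤ N := by
      refine le_trans ?_ hN
      exact_mod_cast L.nu_mono (Finset.biUnion_subset.2 hW.sub)
    have h3 : QB / (800 * P * rho) * (2 * y) < QB / (800 * P * rho) * R :=
      mul_lt_mul_of_pos_left hRlt hu
    have h4 : QB / (800 * P * rho) * y = N := by
      rw [hy]
      field_simp
    nlinarith
  · push Not at hc
    have h1 : QA < 8 * rho * QB * (2 * y + 1) :=
      lt_of_lt_of_le hc (mul_le_mul_of_nonneg_left hRle (by positivity))
    have h2 : 8 * rho * QB * (2 * y + 1) = 16 * rho * (800 * P * rho * N) + 8 * rho * QB := by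
      rw [← hyN]
      ring
    rw [h2] at h1
    have h5 : 0 ≤ P * rho * N := by positivity
    have h6 : P * rho * N ≤ P * rho ^ 2 * N := by
      have : P * rho ^ 2 * N = P * rho * N * rho := by ring
      rw [this]
      nlinarith
    rcases le_total QB QA with hle | hle
    · rw [min_eq_right hle] at hmin
      have h7 : 8 * rho * QB ≤ 8 * rho * (P * rho * N) :=
        mul_le_mul_of_nonneg_left hmin (by positivity)
      nlinarith
    · rw [min_eq_left hle] at hmin
      nlinarith

end Pool.Agent.GG38.Q
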