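import Pool.Agent.Lib.MP_38fd99_co.Q.Spec

set_option autoImplicit false

namespace Pool.Agent.GG38.Q

open Finset Classical

namespace DenseJM

variable {ι : Type}

/-- the projections of the windows are disjoint in the image -/
theorem sum_image_le (Eg : Finset (ι × ι)) (k : ι × ι → ℕ) (pr : ι × ι → ι) (W : Finset ℕ) :
    ∑ w ∈ W, ((Eg.filter (fun e => k e = w)).image pr).card ≤
      (Eg.image (fun e => (pr e, k e))).card := by
  have h1 : ((Eg.image (fun e => (pr e, k e))).filter (fun x => x.2 ∈ W)).card =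
      ∑ w ∈ W, (((Eg.image (fun e => (pr e, k e))).filter (fun x => x.2 ∈ W)).filter
        (fun x => x.2 = w)).card :=
    Finset.card_eq_sum_card_fiberwise (fun x hx => by
      simp only [Finset.coe_filter, Set.mem_ofPred_eq] at hx
      exact hx.2)
  refine le_trans ?_ (h1 ▸ Finset.card_filter_le _ _)
  apply Finset.sum_le_sum
  intro w hw
  apply Finset.card_le_card_of_injOn (fun a => (a, w))
  · intro a ha
    have ha' : a ∈ (Eg.filter (fun e => k e = w)).image pr := ha
    rw [Finset.mem_image] at ha'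
    obtain ⟨e, he, rfl⟩ := ha'
    rw [Finset.mem_filter] at he
    have : (pr e, w) ∈ ((Eg.image (fun e => (pr e, k e))).filter (fun x => x.2 ∈ W)).filter
        (fun x => x.2 = w) := by
      rw [Finset.mem_filter, Finset.mem_filter]
      refine ⟨⟨Finset.mem_image.2 ⟨e, he.1, ?_⟩, hw⟩, rfl⟩
      rw [he.2]
    exact this
  · intro a _ b _ h
    exact congrArg Prod.fst h

theorem card_window (E Eg : Finset (ι × ι)) (idx : ι × ι → ℕ) (N M : ℕ) (hM : 1 ≤ M)
    (hsub : Eg ⊆ E) (hfew : ∀ j, (E.filter (fun e => idx e = j)).card ≤ N) (w : ℕ) :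
    (Eg.filter (fun e => idx e / M = w)).card ≤ N * M := by
  have h := Finset.card_le_mul_card_image_of_maps_to (s := Eg.filter (fun e => idx e / M = w))
    (t := Finset.Ico (w * M) ((w + 1) * M)) (f := idx) (by
      intro e he
      rw [Finset.mem_filter] at he
      rw [Finset.mem_Ico]
      have hM' : 0 < M := hM
      constructor
      · rw [← he.2]; exact Nat.div_mul_le_self _ _
      · rw [← Nat.div_lt_iff_lt_mul hM', he.2]; exact Nat.lt_succ_self _) N (by
      intro b _
      refine le_trans (Finset.card_le_card ?_) (hfew b)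
      intro e he
      rw [Finset.mem_filter, Finset.mem_filter] at he
      rw [Finset.mem_filter]
      exact ⟨hsub he.1.1, he.2⟩)
  rw [Nat.card_Ico] at h
  have h2 : (w + 1) * M - w * M = M := by
    rw [Nat.add_mul, one_mul]; omega
  rwa [h2] at h

end DenseJM

open DenseJM in
theorem denseJ : StmtDenseJ := by
  intro ι E Eg idx N q M Lw lam QA QB hM hLw hN hlam hQA hQB hsub hne hq hqne hfew hML hE hA hB
  -- the windows
  obtain ⟨F, hF⟩ : ∃ F : ℕ → Finset (ι × ι), F = fun w => Eg.filter (fun e => idx e / M = w) :=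
    ⟨_, rfl⟩
  have hFw : ∀ w, Eg.filter (fun e => idx e / M = w) = F w := fun w => by rw [hF]
  obtain ⟨W, hW⟩ : ∃ W : Finset ℕ, W = Eg.image (fun e => idx e / M) := ⟨_, rfl⟩
  have hcard : Eg.card = ∑ w ∈ W, (F w).card := by
    rw [hW, hF]
    exact Finset.card_eq_sum_card_image _ _
  have hFA : ∀ V : Finset ℕ, ∑ w ∈ V, (A (F w)).card ≤
      (Eg.image (fun e => (e.1, idx e / M))).card := by
    intro V
    have := sum_image_le Eg (fun e => idx e / M) Prod.fst V
    rw [hF]; exact this
  have hFB : ∀ V : Finset ℕ, ∑ w ∈ V, (B (F w)).card ≤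
      (Eg.image (fun e => (e.2, idx e / M))).card := by
    intro V
    have := sum_image_le Eg (fun e => idx e / M) Prod.snd V
    rw [hF]; exact this
  have hFc : ∀ w, (F w).card ≤ N * M := fun w => by
    rw [← hFw w]; exact card_window E Eg idx N M hM hsub hfew w
  have hFne : ∀ w ∈ W, (F w).Nonempty := by
    intro w hw
    rw [hW, Finset.mem_image] at hw
    obtain ⟨e, he, hew⟩ := hw
    refine ⟨e, ?_⟩
    rw [← hFw w, Finset.mem_filter]
    exact ⟨he, hew⟩
  obtain ⟨P, hP⟩ : ∃ P : ℕ → Prop, P = fun w => Reg QA QB (8 * lam) (F w) := ⟨_, rfl⟩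
  have hPw : ∀ w, P w ↔ Reg QA QB (8 * lam) (F w) := fun w => by rw [hP]
  obtain ⟨G, hG⟩ : ∃ G : Finset ℕ, G = W.filter P := ⟨_, rfl⟩
  -- the bad windows
  have hlam0 : (0 : ℝ) < lam := by exact_mod_cast (show 0 < lam from hlam)
  have hE' : (E.card : ℝ) ≤ 2 * lam * Eg.card := by exact_mod_cast hE
  have hbad : (∑ w ∈ W.filter (fun w => ¬ P w), ((F w).card : ℝ)) ≤ Eg.card / 2 := by
    have h1 : 8 * (lam : ℝ) * (∑ w ∈ W.filter (fun w => ¬ P w), ((F w).card : ℝ)) ≤
        QA * ∑ w ∈ W.filter (fun w => ¬ P w), ((A (F w)).card : ℝ) +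
        QB * ∑ w ∈ W.filter (fun w => ¬ P w), ((B (F w)).card : ℝ) := by
      rw [Finset.mul_sum, Finset.mul_sum, Finset.mul_sum, ← Finset.sum_add_distrib]
      apply Finset.sum_le_sum
      intro w hw
      rw [Finset.mem_filter] at hw
      have h2 := hw.2
      rw [hPw] at h2
      unfold Reg at h2
      push Not at h2
      exact h2.le
    have h3 : (∑ w ∈ W.filter (fun w => ¬ P w), ((A (F w)).card : ℝ)) ≤
        (Eg.image (fun e => (e.1, idx e / M))).card := by
      exact_mod_cast hFA _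
    have h4 : (∑ w ∈ W.filter (fun w => ¬ P w), ((B (F w)).card : ℝ)) ≤
        (Eg.image (fun e => (e.2, idx e / M))).card := by
      exact_mod_cast hFB _
    have h5 := mul_le_mul_of_nonneg_left h3 hQA.le
    have h6 := mul_le_mul_of_nonneg_left h4 hQB.le
    have h7 : 8 * (lam : ℝ) * (∑ w ∈ W.filter (fun w => ¬ P w), ((F w).card : ℝ)) ≤
        8 * (lam : ℝ) * (Eg.card / 2) := by
      have : 8 * (lam : ℝ) * (Eg.card / 2) = 2 * (2 * lam * Eg.card) := by ring
      rw [this]
      linarith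
    exact le_of_mul_le_mul_left h7 (by positivity)
  have hgood : (Eg.card : ℝ) / 2 ≤ N * M * G.card := by
    have h1 : (Eg.card : ℝ) = ∑ w ∈ G, ((F w).card : ℝ) +
        ∑ w ∈ W.filter (fun w => ¬ P w), ((F w).card : ℝ) := by
      rw [hG, Finset.sum_filter_add_sum_filter_not, hcard]
      push_cast
      rfl
    have h2 : ∑ w ∈ G, ((F w).card : ℝ) ≤ ∑ w ∈ G, ((N : ℝ) * M) := by
      apply Finset.sum_le_sum
      intro w _
      exact_mod_cast hFc w
    rw [Finset.sum_const, nsmul_eq_mul] at h2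
    linarith
  -- the number of long windows
  have hqE : q ≤ E.card := by
    have h1 : Finset.range q ⊆ E.image idx := by
      intro j hj
      obtain ⟨e, he⟩ := hqne j (Finset.mem_range.1 hj)
      rw [Finset.mem_filter] at he
      exact Finset.mem_image.2 ⟨e, he.1, he.2⟩
    have h2 := Finset.card_le_card h1
    rw [Finset.card_range] at h2
    exact h2.trans Finset.card_image_le
  have hM0 : (0 : ℝ) < M := by exact_mod_cast (show 0 < M from hM)
  have hL0 : (0 : ℝ) < Lw := by exact_mod_cast (show 0 < Lw from hLw)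
  have hN0 : (0 : ℝ) < N := by exact_mod_cast (show 0 < N from hN)
  obtain ⟨m, hm⟩ : ∃ m : ℕ, m = q / (M * Lw) := ⟨_, rfl⟩
  have hm1 : ((m : ℝ) + 1) * (M * Lw) ≤ 2 * E.card := by
    have h1 : m * (M * Lw) ≤ q := by rw [hm]; exact Nat.div_mul_le_self _ _
    have h2 : (m + 1) * (M * Lw) ≤ 2 * E.card := by
      rw [Nat.add_mul, one_mul]; omega
    exact_mod_cast h2
  have hmaps : ∀ w ∈ G, w / Lw ∈ Finset.range (m + 1) := by
    intro w hw
    rw [hG, Finset.mem_filter, hW, Finset.mem_image] at hw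
    obtain ⟨⟨e, he, hew⟩, _⟩ := hw
    rw [Finset.mem_range, ← hew, Nat.div_div_eq_div_mul, hm]
    exact Nat.lt_succ_of_le (Nat.div_le_div_right (hq e (hsub he)).le)
  have hGsum : (G.card : ℝ) = ∑ J ∈ Finset.range (m + 1),
      ((G.filter (fun w => w / Lw = J)).card : ℝ) := by
    have := Finset.card_eq_sum_card_fiberwise (f := fun w => w / Lw) (s := G)
      (t := Finset.range (m + 1)) (fun w hw => hmaps w hw)
    rw [this]
    push_cast
    rfl
  -- pigeonhole
  obtain ⟨J, hJ, hJT⟩ : ∃ J ∈ Finset.range (m + 1),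
      (Lw : ℝ) ≤ 8 * lam * N * (G.filter (fun w => w / Lw = J)).card := by
    by_contra hcon
    push Not at hcon
    have h1 : ∑ J ∈ Finset.range (m + 1),
        (8 * (lam : ℝ) * N * (G.filter (fun w => w / Lw = J)).card) <
        ∑ J ∈ Finset.range (m + 1), (Lw : ℝ) :=
      Finset.sum_lt_sum_of_nonempty ⟨0, Finset.mem_range.2 (Nat.succ_pos m)⟩ hcon
    rw [← Finset.mul_sum, ← hGsum, Finset.sum_const, Finset.card_range, nsmul_eq_mul] at h1
    push_cast at h1
    -- h1 : 8 lam N |G| < (m+1) Lw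
    have h2 : 8 * (lam : ℝ) * N * G.card * M < 2 * E.card := by
      have := mul_lt_mul_of_pos_right h1 hM0
      calc 8 * (lam : ℝ) * N * G.card * M < ((m : ℝ) + 1) * Lw * M := this
        _ = ((m : ℝ) + 1) * (M * Lw) := by ring
        _ ≤ 2 * E.card := hm1
    have h3 : 8 * (lam : ℝ) * (Eg.card / 2) ≤ 8 * lam * (N * M * G.card) :=
      mul_le_mul_of_nonneg_left hgood (by positivity)
    have h4 : 8 * (lam : ℝ) * (Eg.card / 2) = 2 * (2 * lam * Eg.card) := by ring
    have h5 : 8 * (lam : ℝ) * (N * M * G.card) = 8 * (lam : ℝ) * N * G.card * M := by ring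
    rw [h4, h5] at h3
    linarith
  refine ⟨J, G.filter (fun w => w / Lw = J), ?_, ?_, hJT⟩
  · intro w hw
    exact (Finset.mem_filter.1 hw).2
  · intro w hw
    have h1 := (Finset.mem_filter.1 hw).1
    rw [hG, Finset.mem_filter] at h1
    rw [hFw w]
    exact ⟨hFne w h1.1, (hPw w).1 h1.2⟩

end Pool.Agent.GG38.Q
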