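import Pool.Agent.Lib.MP_38fd99_co.Q.Spec

/-!
# MP_38fd99_co, full Q1: Theorem F
-/

set_option autoImplicit false

namespace Pool.Agent.GG38.Q

open Finset Classical

namespace FAux

variable {ι : Type}

/-! ### the rank at time `t0` -/

/-- number of lines of `U` below `a` -/
noncomputable def rnk (L : Lines ι) (U : Finset ι) (t : ℝ) (a : ι) : ℕ :=
  (U.filter (fun c => L.H c t < L.H a t)).card

theorem rnk_lt_iff {L : Lines ι} {U : Finset ι} {t : ℝ} {a a' : ι} (ha : a ∈ U) :
    rnk L U t a < rnk L U t a' ↔ L.H a t < L.H a' t := by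
  constructor
  · intro h
    by_contra hcon
    push Not at hcon
    have : rnk L U t a' ≤ rnk L U t a := by
      apply Finset.card_le_card
      intro c hc
      rw [Finset.mem_filter] at hc ⊢
      exact ⟨hc.1, lt_of_lt_of_le hc.2 hcon⟩
    omega
  · intro h
    apply Finset.card_lt_card
    rw [Finset.ssubset_iff_of_subset]
    · refine ⟨a, ?_, ?_⟩
      · rw [Finset.mem_filter]
        exact ⟨ha, h⟩
      · rw [Finset.mem_filter]
        intro h1
        exact lt_irrefl _ h1.2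
    · intro c hc
      rw [Finset.mem_filter] at hc ⊢
      exact ⟨hc.1, hc.2.trans h⟩

theorem rnk_inj {L : Lines ι} {U : Finset ι} {t : ℝ} (hg : Gen L U t) :
    Set.InjOn (rnk L U t) U := by
  intro a ha a' ha' h
  by_contra hne
  rcases lt_or_gt_of_ne (hg a ha a' ha' hne) with h1 | h1
  · have := (rnk_lt_iff ha (a' := a')).2 h1
    omega
  · have := (rnk_lt_iff ha' (a' := a)).2 h1
    omega

theorem rnk_lt_card {L : Lines ι} {U : Finset ι} {t : ℝ} {a : ι} (ha : a ∈ U) :
    rnk L U t a < U.card := by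
  apply Finset.card_lt_card
  rw [Finset.ssubset_iff_of_subset (Finset.filter_subset _ _)]
  exact ⟨a, ha, by
    rw [Finset.mem_filter]
    intro h1
    exact lt_irrefl _ h1.2⟩

/-- representatives of the fibres of a function -/
theorem exists_reps (S : Finset ℕ) (f : ℕ → ℕ) :
    ∃ S' ⊆ S, Set.InjOn f S' ∧ (S.image f).card = S'.card := by
  have h : ∀ i ∈ S.image f, ∃ j ∈ S, f j = i := by
    intro i hi
    obtain ⟨j, hj, h⟩ := Finset.mem_image.1 hi
    exact ⟨j, hj, h⟩
  choose! g hg1 hg2 using h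
  refine ⟨(S.image f).image g, ?_, ?_, ?_⟩
  · intro j hj
    obtain ⟨i, hi, rfl⟩ := Finset.mem_image.1 hj
    exact hg1 i hi
  · intro j hj j' hj' hjj
    obtain ⟨i, hi, rfl⟩ := Finset.mem_image.1 (Finset.mem_coe.1 hj)
    obtain ⟨i', hi', rfl⟩ := Finset.mem_image.1 (Finset.mem_coe.1 hj')
    rw [hg2 i hi, hg2 i' hi'] at hjj
    rw [hjj]
  · symm
    apply Finset.card_image_of_injOn
    intro i hi i' hi' hii
    have h1 := hg2 i (Finset.mem_coe.1 hi)
    have h2 := hg2 i' (Finset.mem_coe.1 hi')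
    rw [← h1, ← h2, hii]

/-- numerical estimate -/
theorem F_numeric {x a b q : ℝ} (hx1 : 1 ≤ x) (ha0 : 0 ≤ a) (ha : a ≤ x) (hb0 : 0 ≤ b) (hb : b ≤ x)
    (hq0 : 0 ≤ q) (hq : q ≤ x) :
    3 * (a + 1) ^ 2 * ((600 * q * (a + 1) ^ 2 + 1) * (3 * (b + 1) ^ 2 + 1)) ≤ 400000 * x ^ 7 := by
  have hq1 : (a + 1) ^ 2 ≤ 4 * x ^ 2 := by
    have h1 : (a + 1) ^ 2 ≤ (2 * x) ^ 2 := pow_le_pow_left₀ (by positivity) (by linarith) 2
    have e : (2 * x) ^ 2 = 4 * x ^ 2 := by ring
    rwa [e] at h1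
  have hq2 : (b + 1) ^ 2 ≤ 4 * x ^ 2 := by
    have h1 : (b + 1) ^ 2 ≤ (2 * x) ^ 2 := pow_le_pow_left₀ (by positivity) (by linarith) 2
    have e : (2 * x) ^ 2 = 4 * x ^ 2 := by ring
    rwa [e] at h1
  have hx2 : 1 ≤ x ^ 2 := one_le_pow₀ hx1
  have hx3 : 1 ≤ x ^ 3 := one_le_pow₀ hx1
  have hf1 : 600 * q * (a + 1) ^ 2 + 1 ≤ 2401 * x ^ 3 := by
    have h1 : 600 * q * (a + 1) ^ 2 ≤ 600 * x * (4 * x ^ 2) :=
      mul_le_mul (by linarith) hq1 (by positivity) (by positivity)
    have h2 : 600 * x * (4 * x ^ 2) = 2400 * x ^ 3 := by ring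
    linarith
  have hf2 : 3 * (b + 1) ^ 2 + 1 ≤ 13 * x ^ 2 := by linarith
  have hm2b : (600 * q * (a + 1) ^ 2 + 1) * (3 * (b + 1) ^ 2 + 1) ≤
      2401 * x ^ 3 * (13 * x ^ 2) := mul_le_mul hf1 hf2 (by positivity) (by positivity)
  have hfin : 3 * (a + 1) ^ 2 * ((600 * q * (a + 1) ^ 2 + 1) * (3 * (b + 1) ^ 2 + 1)) ≤
      12 * x ^ 2 * (2401 * x ^ 3 * (13 * x ^ 2)) :=
    mul_le_mul (by linarith) hm2b (by positivity) (by positivity)
  have hx7 : 12 * x ^ 2 * (2401 * x ^ 3 * (13 * x ^ 2)) = 374556 * x ^ 7 := by ring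
  have hx70 : 0 ≤ x ^ 7 := by positivity
  linarith

end FAux

open FAux in
theorem thmF (hP : StmtPick) (hC : StmtNodeCount) (hA : StmtNodesA) : StmtF := by
  intro ι L E t0 t1 T s s' F D QA QB P rho N Lam hW hQA1 hQAB hP1 hrho1 hN hN1 hLam hQB hcard
    hdA hDens hReg hfrA hfrB
  have hQA0 : 0 < QA := by linarith
  have hQB0 : 0 < QB := by linarith
  have hP0 : 0 < P := by linarith
  have hr0 : 0 < rho := by linarith
  have hN0 : 0 < N := by linarith
  have hD1 : (1 : ℝ) ≤ (D : ℝ) + 1 := by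
    have : (0 : ℝ) ≤ (D : ℝ) := by positivity
    linarith
  have hLam0 : 0 < Lam := lt_of_lt_of_le (by positivity) hLam
  set rho' : ℝ := 3 * (D + 1) * rho with hrho'
  have hr0' : 0 < rho' := by positivity
  -- constants
  have huA : QA / Lam ≤ uA4 QA P rho' D := by
    unfold uA4
    apply div_le_div_of_nonneg_left hQA0.le (by positivity)
    refine le_trans ?_ hLam
    rw [hrho']
    have h1 : 160000 * ((D : ℝ) + 1) * P * (3 * (D + 1) * rho) =
        480000 * (((D : ℝ) + 1) ^ 2 * P * rho) := by ring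
    have h2 : (10 : ℝ) ^ 10 * ((D : ℝ) + 1) ^ 2 * P * rho ^ 2 =
        10 ^ 10 * rho * (((D : ℝ) + 1) ^ 2 * P * rho) := by ring
    rw [h1, h2]
    apply mul_le_mul_of_nonneg_right _ (by positivity)
    linarith
  have huB : QB / Lam ≤ uB4 QB P rho' := by
    unfold uB4
    apply div_le_div_of_nonneg_left hQB0.le (by positivity)
    refine le_trans ?_ hLam
    rw [hrho']
    have h1 : 1024000000 * P * (3 * ((D : ℝ) + 1) * rho) ^ 2 =
        9216000000 * (((D : ℝ) + 1) ^ 2 * P * rho ^ 2) := by ring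
    have h2 : (10 : ℝ) ^ 10 * ((D : ℝ) + 1) ^ 2 * P * rho ^ 2 =
        10 ^ 10 * (((D : ℝ) + 1) ^ 2 * P * rho ^ 2) := by ring
    rw [h1, h2]
    apply mul_le_mul_of_nonneg_right _ (by positivity)
    norm_num
  -- the rank
  set X : Finset ι := A (T.biUnion F) with hX
  have hXE : X ⊆ A E ∪ B E := by
    refine (A_mono ?_).trans Finset.subset_union_left
    intro e he
    obtain ⟨j, hj, h⟩ := Finset.mem_biUnion.1 he
    exact hW.sub j hj h
  have hgX : Gen L X t0 := hW.g0.mono hXE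
  have hAX : ∀ j ∈ T, A (F j) ⊆ X := fun j hj => A_mono (Finset.subset_biUnion_of_mem F hj)
  let r : ι → ℕ := rnk L X t0
  have hrinj : Set.InjOn r X := rnk_inj hgX
  have hrlt : ∀ a ∈ X, r a < 2 ^ D := fun a ha => lt_of_lt_of_le (rnk_lt_card ha) hcard
  have hrH : ∀ x ∈ X, ∀ y ∈ X, r x < r y → L.H x t0 < L.H y t0 :=
    fun x hx y _ h => (rnk_lt_iff hx).1 h
  have hrH' : ∀ x ∈ X, ∀ y ∈ X, r x ≤ r y → L.H x t0 ≤ L.H y t0 := by
    intro x _ y hy h
    by_contra hcon
    push Not at hcon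
    have := (rnk_lt_iff (L := L) (t := t0) hy).2 hcon
    exact absurd h (not_le.2 this)
  -- dense nodes
  have hch : ∀ j, ∃ z : ℕ × ℕ × Finset (ι × ι), j ∈ T → z.1 ≤ D ∧ z.2.2 ⊆ F j ∧ z.2.2.Nonempty ∧
      (∀ e ∈ z.2.2, r e.1 / 2 ^ (D - z.1) = z.2.1) ∧ Reg QA QB rho' z.2.2 ∧
      (∀ b ∈ B z.2.2, dB z.2.2 b ≤
        (D + 1) * (z.2.2.filter (fun e => e.2 = b ∧ cut D z.1 z.2.1 ≤ r e.1)).card) ∧
      (∀ b ∈ B z.2.2, dB z.2.2 b ≤
        (D + 1) * (z.2.2.filter (fun e => e.2 = b ∧ r e.1 ≤ cut D z.1 z.2.1)).card) := by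
    intro j
    by_cases hj : j ∈ T
    · obtain ⟨d, i, F', h⟩ := hP ι (F j) r D QA QB rho (hW.ne j hj)
        (hrinj.mono (Finset.coe_subset.2 (hAX j hj))) (fun a ha => hrlt a (hAX j hj ha)) hQA0.le
        hQB0.le (hReg j hj)
      exact ⟨(d, i, F'), fun _ => h⟩
    · exact ⟨(0, 0, ∅), fun h => absurd h hj⟩
  choose z hz using hch
  let dd : ℕ → ℕ := fun j => (z j).1
  let ii : ℕ → ℕ := fun j => (z j).2.1
  let G : ℕ → Finset (ι × ι) := fun j => (z j).2.2
  have hWG : ∀ T' ⊆ T, Wins L E t0 t1 T' s s' G := fun T' hT' =>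
    hW.restrict hT' (fun j hj => (hz j (hT' hj)).2.1) (fun j hj => (hz j (hT' hj)).2.2.1)
  have hAG : ∀ j ∈ T, A (G j) ⊆ X := fun j hj => (A_mono (hz j hj).2.1).trans (hAX j hj)
  -- the bounds
  set m2 : ℝ := (600 * (QB / QA) * (N / uA4 QA P rho' D + 1) ^ 2 + 1) *
    (3 * (N / uB4 QB P rho' + 1) ^ 2 + 1) with hm2
  set m1 : ℝ := 3 * (N / uA4 QA P rho' D + 1) ^ 2 with hm1
  have hrho1' : 1 ≤ rho' := by
    rw [hrho']
    nlinarith
  have hcell : ∀ d i, ((T.filter (fun j => dd j = d ∧ ii j = i)).card : ℝ) ≤ m2 := by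
    intro d i
    have hsub : T.filter (fun j => dd j = d ∧ ii j = i) ⊆ T := Finset.filter_subset _ _
    refine hC ι L E t0 t1 (T.filter (fun j => dd j = d ∧ ii j = i)) s s' G r (cut D d i) D QA QB P
      rho' N ?_
    refine
      { wins := hWG _ hsub
        QA0 := hQA0
        QAB := hQAB
        P1 := hP1
        rho1 := hrho1'
        nuE := hN
        degA := ?_
        dens := ?_
        reg := ?_
        frA := ?_
        frB := ?_
        rk := ?_
        hi := ?_
        lo := ?_ }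
    · intro j hj a
      refine le_trans ?_ (hdA j (hsub hj) a)
      exact_mod_cast Finset.card_le_card (Finset.filter_subset_filter _ (hz j (hsub hj)).2.1)
    · intro j hj
      exact (hDens j (hsub hj)).mono (hz j (hsub hj)).2.1
    · intro j hj
      exact (hz j (hsub hj)).2.2.2.2.1
    · intro j hj a ha
      exact (hfrA j (hsub hj) a (A_mono (hz j (hsub hj)).2.1 ha)).mono huA
    · intro j hj b hb
      exact (hfrB j (hsub hj) b (B_mono (hz j (hsub hj)).2.1 hb)).mono huB
    · intro j hj k hk x hx y hy h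
      exact hrH' x (hAG j (hsub hj) hx) y (hAG k (hsub hk) hy) h
    · intro j hj b hb
      have h1 := (hz j (hsub hj)).2.2.2.2.2.1 b hb
      obtain ⟨_, h2, h3⟩ := Finset.mem_filter.1 hj
      have h4 : (z j).1 = d := h2
      have h5 : (z j).2.1 = i := h3
      rw [h4, h5] at h1
      exact h1
    · intro j hj b hb
      have h1 := (hz j (hsub hj)).2.2.2.2.2.2 b hb
      obtain ⟨_, h2, h3⟩ := Finset.mem_filter.1 hj
      have h4 : (z j).1 = d := h2
      have h5 : (z j).2.1 = i := h3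
      rw [h4, h5] at h1
      exact h1
  have hlevel : ∀ d, ((T.filter (fun j => dd j = d)).card : ℝ) ≤ m1 * m2 := by
    intro d
    set Td := T.filter (fun j => dd j = d) with hTd
    have hTdT : Td ⊆ T := Finset.filter_subset _ _
    obtain ⟨S', hS', hinj, hc⟩ := exists_reps Td ii
    have hS'T : S' ⊆ T := hS'.trans hTdT
    have h1 : ((Td.image ii).card : ℝ) ≤ m1 := by
      rw [hc]
      refine hA ι L E t0 t1 S' s s' G QA QB P rho' N (uA4 QA P rho' D) (hWG _ hS'T) hQA0 hQAB hP1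
        hrho1' hN (lt_of_lt_of_le (by positivity) huA) ?_ ?_ ?_ ?_ ?_
      · unfold uA4
        apply div_le_div_of_nonneg_left hQA0.le (by positivity)
        have h2 : 160000 * ((D : ℝ) + 1) * P * rho' = 160000 * ((D : ℝ) + 1) * (P * rho') := by ring
        have h3 : 100 * P * rho' = 100 * (P * rho') := by ring
        rw [h2, h3]
        apply mul_le_mul_of_nonneg_right _ (by positivity)
        linarith
      · intro j hj
        exact (hDens j (hS'T hj)).mono (hz j (hS'T hj)).2.1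
      · intro j hj
        exact (hz j (hS'T hj)).2.2.2.2.1
      · intro j hj a ha
        exact (hfrA j (hS'T hj) a (A_mono (hz j (hS'T hj)).2.1 ha)).mono huA
      · intro j hj k hk hjk
        have hne : ii j ≠ ii k := fun h => hjk (hinj (Finset.mem_coe.2 hj) (Finset.mem_coe.2 hk) h)
        have hjd : (z j).1 = d := (Finset.mem_filter.1 (hS' hj)).2
        have hkd : (z k).1 = d := (Finset.mem_filter.1 (hS' hk)).2
        have hrj : ∀ x ∈ A (G j), r x / 2 ^ (D - d) = ii j := by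
          intro x hx
          obtain ⟨e, he, rfl⟩ := Finset.mem_image.1 hx
          have := (hz j (hS'T hj)).2.2.2.1 e he
          rwa [hjd] at this
        have hrk : ∀ x ∈ A (G k), r x / 2 ^ (D - d) = ii k := by
          intro x hx
          obtain ⟨e, he, rfl⟩ := Finset.mem_image.1 hx
          have := (hz k (hS'T hk)).2.2.2.1 e he
          rwa [hkd] at this
        rcases lt_or_gt_of_ne hne with h2 | h2
        · left
          intro x hx y hy
          apply hrH x (hAG j (hS'T hj) hx) y (hAG k (hS'T hk) hy)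
          by_contra hcon
          push Not at hcon
          have h3 := Nat.div_le_div_right (c := 2 ^ (D - d)) hcon
          rw [hrj x hx, hrk y hy] at h3
          omega
        · right
          intro x hx y hy
          apply hrH y (hAG k (hS'T hk) hy) x (hAG j (hS'T hj) hx)
          by_contra hcon
          push Not at hcon
          have h3 := Nat.div_le_div_right (c := 2 ^ (D - d)) hcon
          rw [hrj x hx, hrk y hy] at h3
          omega
    have h2 : (Td.card : ℝ) = ∑ i ∈ Td.image ii, ((Td.filter (fun j => ii j = i)).card : ℝ) := by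
      have := Finset.card_eq_sum_card_image ii Td
      exact_mod_cast this
    have h3 : ∀ i, ((Td.filter (fun j => ii j = i)).card : ℝ) ≤ m2 := by
      intro i
      have h4 : Td.filter (fun j => ii j = i) = T.filter (fun j => dd j = d ∧ ii j = i) := by
        rw [hTd, Finset.filter_filter]
      rw [h4]
      exact hcell d i
    have hm20 : 0 ≤ m2 := by
      rw [hm2]
      have h5 : 0 ≤ QB / QA := by positivity
      positivity
    calc (Td.card : ℝ) = _ := h2
      _ ≤ ∑ i ∈ Td.image ii, m2 := Finset.sum_le_sum (fun i _ => h3 i)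
      _ = (Td.image ii).card * m2 := by rw [Finset.sum_const, nsmul_eq_mul]
      _ ≤ m1 * m2 := mul_le_mul_of_nonneg_right h1 hm20
  have htot : (T.card : ℝ) ≤ (D + 1) * (m1 * m2) := by
    have h1 : T.card = ∑ d ∈ range (D + 1), (T.filter (fun j => dd j = d)).card :=
      Finset.card_eq_sum_card_fiberwise (by
        intro j hj
        simpa using Nat.lt_succ_of_le (hz j (Finset.mem_coe.1 hj)).1)
    have h2 : (T.card : ℝ) = ∑ d ∈ range (D + 1), ((T.filter (fun j => dd j = d)).card : ℝ) := by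
      exact_mod_cast h1
    rw [h2]
    calc _ ≤ ∑ _d ∈ range (D + 1), m1 * m2 := Finset.sum_le_sum (fun d _ => hlevel d)
      _ = _ := by
        rw [Finset.sum_const, nsmul_eq_mul, Finset.card_range]
        push_cast
        ring
  -- numerical estimates
  set x : ℝ := N * Lam with hx
  have hLam1 : 1 ≤ Lam := by
    refine le_trans ?_ hLam
    have h1 : (1 : ℝ) ≤ ((D : ℝ) + 1) ^ 2 := one_le_pow₀ hD1
    have h2 : (1 : ℝ) ≤ rho ^ 2 := one_le_pow₀ hrho1
    have h3 : (1 : ℝ) ≤ ((D : ℝ) + 1) ^ 2 * P := one_le_mul_of_one_le_of_one_le h1 hP1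
    have h4 : (1 : ℝ) ≤ ((D : ℝ) + 1) ^ 2 * P * rho ^ 2 := one_le_mul_of_one_le_of_one_le h3 h2
    have h5 : (1 : ℝ) ≤ 10 ^ 10 * (((D : ℝ) + 1) ^ 2 * P * rho ^ 2) :=
      one_le_mul_of_one_le_of_one_le (by norm_num) h4
    refine h5.trans (le_of_eq ?_)
    ring
  have hx1 : 1 ≤ x := one_le_mul_of_one_le_of_one_le hN1 hLam1
  have hb1 : N / uA4 QA P rho' D ≤ x := by
    have h1 : N / uA4 QA P rho' D ≤ N / (QA / Lam) :=
      div_le_div_of_nonneg_left hN0.le (by positivity) huA
    refine h1.trans ?_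
    rw [div_div_eq_mul_div, hx]
    exact div_le_self (by positivity) hQA1
  have hb2 : N / uB4 QB P rho' ≤ x := by
    have h1 : N / uB4 QB P rho' ≤ N / (QB / Lam) :=
      div_le_div_of_nonneg_left hN0.le (by positivity) huB
    refine h1.trans ?_
    rw [div_div_eq_mul_div, hx]
    exact div_le_self (by positivity) (hQA1.trans hQAB)
  have hb3 : QB / QA ≤ x := (div_le_self hQB0.le hQA1).trans hQB
  have hb1' : 0 ≤ N / uA4 QA P rho' D := by
    have : 0 < uA4 QA P rho' D := lt_of_lt_of_le (by positivity) huA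
    positivity
  have hb2' : 0 ≤ N / uB4 QB P rho' := by
    have : 0 < uB4 QB P rho' := lt_of_lt_of_le (by positivity) huB
    positivity
  have hfin := F_numeric hx1 hb1' hb1 hb2' hb2 (show 0 ≤ QB / QA by positivity) hb3
  calc (T.card : ℝ) ≤ (D + 1) * (m1 * m2) := htot
    _ ≤ (D + 1) * (400000 * x ^ 7) := mul_le_mul_of_nonneg_left hfin (by positivity)
    _ = 400000 * (D + 1) * x ^ 7 := by ring

end Pool.Agent.GG38.Q
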