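import Pool.Agent.Lib.MP_38fd99_co.Q.Spec
import Pool.Agent.Lib.MP_38fd99_co.Plane

/-! # MP_38fd99_co, full Q1: the last statements -/

set_option autoImplicit false

namespace Pool.Agent.GG38.Q

open Finset Classical
open Pool.Agent.GG38

noncomputable section

/-- MAIN THEOREM.  Uses `StmtHalvQ`, `StmtShear`, `StmtPlaneGP`, `StmtPlaneDisj`.
Proof.  As `main` (file Main.lean), reusing `Main.Eo`, `Main.card_eq`, `Main.nu_lt`: `nu < k`, so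
`nu^(1+ε) ≤ k^(1+ε)`. -/
def StmtMainQ : Prop := ∀ ε : ℝ, 0 < ε → ε ≤ 1 → ∃ C : ℝ, 1 ≤ C ∧
  ∀ (n k : ℕ) (G : SimpleGraph (Fin n)) (pos : Fin n → ℝ × ℝ), GenPos pos →
    ¬ HasDisjointEdges k G pos → (G.edgeSet.ncard : ℝ) ≤ C * (k : ℝ) ^ (1 + ε) * n

/-- FINAL THEOREM (full Q1).  Uses `StmtMainQ`.
Proof.  `ε' = min ε 1 / 2`, `C` from `StmtMainQ`; for `C ≤ k^(ε')`, `k ≥ 1`: `C k^(1+ε') ≤ k^(1+2ε') ≤ k^(1+ε)`;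
`Final.ek_le`. -/
def StmtFinalQ : Prop := ∀ ε : ℝ, 0 < ε → ∃ k₀ : ℕ, ∀ k : ℕ, k₀ ≤ k → ∀ n : ℕ,
  (ek k n : ℝ) ≤ (k : ℝ) ^ (1 + ε) * n

end

end Pool.Agent.GG38.Q
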