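import Pool.Agent.Lib.MP_38fd99_co.Q.Spec
import Pool.Agent.Lib.MP_38fd99_co.Q.Spec2
import Pool.Agent.Lib.MP_38fd99_co.Main
import Pool.Agent.Lib.MP_38fd99_co.Final

/-! # MP_38fd99_co, full Q1: the main theorem and the final theorem -/

set_option autoImplicit false

namespace Pool.Agent.GG38.Q

open Finset Classical
open Pool.Agent.GG38

theorem mainQ (h : StmtHalvQ) (hS : StmtShear) (hG : StmtPlaneGP) (hD : StmtPlaneDisj) :
    StmtMainQ := by
  intro ε hε hε1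
  obtain ⟨C, hC1, hC⟩ := h ε hε hε1
  refine ⟨C, hC1, ?_⟩
  intro n k G pos hgp hno
  obtain ⟨δ, hδ⟩ := hS n pos hgp.1
  have h1 := hC (Fin n) (linesOf pos δ) univ (Main.Eo G (linesOf pos δ)) (hδ.injOn)
    (fun x _ y _ z _ hxy hxz hyz => hG n pos δ hgp hδ x y z hxy hxz hyz)
    (fun p hp => ⟨mem_univ _, mem_univ _, (Main.mem_Eo.mp hp).2⟩)
  rw [Main.card_eq G _ hδ, card_univ, Fintype.card_fin] at h1
  have h2 := Main.nu_lt hD k G pos δ hδ hno
  have h3 : ((linesOf pos δ).nu (Main.Eo G (linesOf pos δ)) : ℝ) ≤ k := by exact_mod_cast h2.le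
  have h4 : ((linesOf pos δ).nu (Main.Eo G (linesOf pos δ)) : ℝ) ^ (1 + ε) ≤ (k : ℝ) ^ (1 + ε) :=
    Real.rpow_le_rpow (Nat.cast_nonneg _) h3 (by linarith)
  refine h1.trans ?_
  apply mul_le_mul_of_nonneg_right _ (Nat.cast_nonneg _)
  exact mul_le_mul_of_nonneg_left h4 (by linarith)

theorem finalQ (h : StmtMainQ) : StmtFinalQ := by
  intro ε hε
  have hη : 0 < min ε 1 / 2 := half_pos (lt_min hε one_pos)
  have hη1 : min ε 1 / 2 ≤ 1 := by
    have := min_le_right ε 1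
    linarith
  have hη2 : 2 * (min ε 1 / 2) ≤ ε := by
    have := min_le_left ε 1
    linarith
  obtain ⟨C, hC, hM⟩ := h (min ε 1 / 2) hη hη1
  have ht : Filter.Tendsto (fun k : ℕ => (k : ℝ) ^ (min ε 1 / 2)) Filter.atTop Filter.atTop :=
    (tendsto_rpow_atTop hη).comp tendsto_natCast_atTop_atTop
  obtain ⟨k₀, hk₀⟩ := Filter.eventually_atTop.1 (ht.eventually_ge_atTop C)
  refine ⟨max k₀ 1, ?_⟩
  intro k hk n
  have hk1 : 1 ≤ k := (le_max_right _ _).trans hk
  have hkr : (1 : ℝ) ≤ k := by exact_mod_cast hk1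
  have hk0 : (0 : ℝ) < k := by linarith
  have hCk : C ≤ (k : ℝ) ^ (min ε 1 / 2) := hk₀ k ((le_max_left _ _).trans hk)
  apply Final.ek_le
  · positivity
  · intro G pos hg hd
    refine (hM n k G pos hg hd).trans ?_
    apply mul_le_mul_of_nonneg_right _ (Nat.cast_nonneg _)
    calc C * (k : ℝ) ^ (1 + min ε 1 / 2)
        ≤ (k : ℝ) ^ (min ε 1 / 2) * (k : ℝ) ^ (1 + min ε 1 / 2) :=
          mul_le_mul_of_nonneg_right hCk (by positivity)
      _ = (k : ℝ) ^ (1 + 2 * (min ε 1 / 2)) := by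
          rw [← Real.rpow_add hk0]
          congr 1
          ring
      _ ≤ (k : ℝ) ^ (1 + ε) := Real.rpow_le_rpow_of_exponent_le hkr (by linarith)

end Pool.Agent.GG38.Q
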