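import Pool.Agent.Lib.MP_38fd99_co.Q.Spec

/-!
# MP_38fd99_co, full Q1: frozen edges (StmtFroz)
-/

set_option autoImplicit false

namespace Pool.Agent.GG38.Q

open Finset Classical

noncomputable section

namespace FrozM

/-- a nondecreasing sequence with total increase at most `N` has few big steps -/
theorem few_steps (a : ℕ → ℝ) (W : ℕ) (u N : ℝ) (hm : ∀ w, a w ≤ a (w + 1))
    (hN : a W - a 0 ≤ N) (p : ℕ → Prop) (hp : ∀ w, p w → a w + u ≤ a (w + 1)) :
    (((range W).filter p).card : ℝ) * u ≤ N := by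
  calc (((range W).filter p).card : ℝ) * u = ∑ _w ∈ (range W).filter p, u := by
        rw [sum_const, nsmul_eq_mul]
    _ ≤ ∑ w ∈ (range W).filter p, (a (w + 1) - a w) := by
        apply sum_le_sum
        intro w hw
        have := hp w (mem_filter.1 hw).2
        linarith
    _ ≤ ∑ w ∈ range W, (a (w + 1) - a w) := by
        apply sum_le_sum_of_subset_of_nonneg (filter_subset _ _)
        intro w _ _
        have := hm w
        linarith
    _ = a W - a 0 := sum_range_sub a W
    _ ≤ N := hN

/-- counting over the bad windows -/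
theorem count {α : Type} (S : Finset α) (f : α → ℕ) (W : ℕ) (p : ℕ → Prop) (dm : ℝ)
    (hf : ∀ e ∈ S, f e < W) (hd : ∀ w, ((S.filter (fun e => f e = w)).card : ℝ) ≤ dm) :
    ((S.filter (fun e => p (f e))).card : ℝ) ≤ (((range W).filter p).card : ℝ) * dm := by
  have h1 : (S.filter (fun e => p (f e))).card =
      ∑ w ∈ (range W).filter p, ((S.filter (fun e => p (f e))).filter (fun e => f e = w)).card := by
    apply card_eq_sum_card_fiberwise
    intro e he
    have he' := mem_filter.1 he
    exact mem_filter.2 ⟨mem_range.2 (hf e he'.1), he'.2⟩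
  rw [h1]
  push_cast
  calc ∑ w ∈ (range W).filter p,
        (((S.filter (fun e => p (f e))).filter (fun e => f e = w)).card : ℝ)
      ≤ ∑ _w ∈ (range W).filter p, dm := by
        apply sum_le_sum
        intro w _
        refine le_trans ?_ (hd w)
        exact_mod_cast card_le_card (filter_subset_filter _ (filter_subset _ _))
    _ = (((range W).filter p).card : ℝ) * dm := by rw [sum_const, nsmul_eq_mul]

/-- the two kinds of bad windows -/
theorem split_card (W : ℕ) (p p1 p2 : ℕ → Prop) (h : ∀ w, p w → p1 w ∨ p2 w) :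
    (((range W).filter p).card : ℝ) ≤ ((range W).filter p1).card + ((range W).filter p2).card := by
  have h1 : (range W).filter p ⊆ (range W).filter p1 ∪ (range W).filter p2 := by
    intro w hw
    rw [mem_filter] at hw
    rw [mem_union, mem_filter, mem_filter]
    rcases h w hw.2 with h2 | h2
    · exact Or.inl ⟨hw.1, h2⟩
    · exact Or.inr ⟨hw.1, h2⟩
  have h2 := (card_le_card h1).trans (card_union_le _ _)
  exact_mod_cast h2

variable {ι : Type}

/-- the number of the bad windows of a line -/
theorem bad_windows (L : Lines ι) (E' : Finset (ι × ι)) (θ : ℕ → ℝ) (M W : ℕ) (u N : ℝ)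
    (hI : Inst L E') (hθ : Monotone θ) (hN : (L.nu E' : ℝ) ≤ N) (hu : 0 ≤ u) (b : ι)
    (p : ℕ → Prop) (hp : ∀ w, p w → ¬ Fr L E' (θ (w * M)) (θ ((w + 1) * M)) u b) :
    (((range W).filter p).card : ℝ) * u ≤ 2 * N := by
  have hθ' : ∀ w : ℕ, θ (w * M) ≤ θ ((w + 1) * M) := fun w =>
    hθ (Nat.mul_le_mul_right _ (Nat.le_succ w))
  have h1 := few_steps (fun w => (lV L E' (θ (w * M)) b : ℝ)) W u N
    (fun w => by
      show (lV L E' (θ (w * M)) b : ℝ) ≤ (lV L E' (θ ((w + 1) * M)) b : ℝ)
      exact_mod_cast lV_mono hI (hθ' w) b)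
    (by
      show (lV L E' (θ (W * M)) b : ℝ) - (lV L E' (θ (0 * M)) b : ℝ) ≤ N
      have h2 : (lV L E' (θ (W * M)) b : ℝ) ≤ L.nu E' := by exact_mod_cast lV_le L E' _ b
      have h3 : (0 : ℝ) ≤ (lV L E' (θ (0 * M)) b : ℝ) := Nat.cast_nonneg _
      linarith)
    (fun w => (lV L E' (θ (w * M)) b : ℝ) + u ≤ (lV L E' (θ ((w + 1) * M)) b : ℝ))
    (fun w hw => hw)
  have h1' := few_steps (fun w => - (lW L E' (θ (w * M)) b : ℝ)) W u N
    (fun w => by
      show - (lW L E' (θ (w * M)) b : ℝ) ≤ - (lW L E' (θ ((w + 1) * M)) b : ℝ)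
      have h2 : (lW L E' (θ ((w + 1) * M)) b : ℝ) ≤ (lW L E' (θ (w * M)) b : ℝ) := by
        exact_mod_cast lW_anti hI (hθ' w) b
      linarith)
    (by
      show - (lW L E' (θ (W * M)) b : ℝ) - - (lW L E' (θ (0 * M)) b : ℝ) ≤ N
      have h2 : (lW L E' (θ (0 * M)) b : ℝ) ≤ L.nu E' := by exact_mod_cast lW_le L E' _ b
      have h3 : (0 : ℝ) ≤ (lW L E' (θ (W * M)) b : ℝ) := Nat.cast_nonneg _
      linarith)
    (fun w => - (lW L E' (θ (w * M)) b : ℝ) + u ≤ - (lW L E' (θ ((w + 1) * M)) b : ℝ))
    (fun w hw => hw)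
  have h4 := split_card W p
    (fun w => (lV L E' (θ (w * M)) b : ℝ) + u ≤ (lV L E' (θ ((w + 1) * M)) b : ℝ))
    (fun w => - (lW L E' (θ (w * M)) b : ℝ) + u ≤ - (lW L E' (θ ((w + 1) * M)) b : ℝ))
    (by
      intro w hw
      by_contra hc
      push Not at hc
      apply hp w hw
      refine ⟨hc.1, ?_⟩
      have := hc.2
      linarith)
  have h5 := mul_le_mul_of_nonneg_right h4 hu
  rw [add_mul] at h5
  linarith

theorem main (E' : Finset (ι × ι)) (f : ι × ι → ℕ) (bad : ι → ℕ → Prop) (K dm : ℝ)
    (hdm : 0 ≤ dm) (hK : ∀ b W, (((range W).filter (bad b)).card : ℝ) ≤ K)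
    (hd : ∀ b w, ((E'.filter (fun e => e.2 = b ∧ f e = w)).card : ℝ) ≤ dm) :
    ((E'.filter (fun e => bad e.2 (f e))).card : ℝ) ≤ K * dm * (B E').card := by
  have h1 : (E'.filter (fun e => bad e.2 (f e))).card =
      ∑ b ∈ B E', ((E'.filter (fun e => bad e.2 (f e))).filter (fun e => e.2 = b)).card := by
    apply card_eq_sum_card_fiberwise
    intro e he
    have he' := (mem_filter.1 he).1
    exact snd_mem_B he'
  rw [h1]
  push_cast
  calc ∑ b ∈ B E', (((E'.filter (fun e => bad e.2 (f e))).filter (fun e => e.2 = b)).card : ℝ)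
      ≤ ∑ _b ∈ B E', K * dm := by
        apply sum_le_sum
        intro b _
        obtain ⟨W, hW⟩ : ∃ W : ℕ, ∀ e ∈ E', f e < W := by
          refine ⟨E'.sup f + 1, fun e he => ?_⟩
          exact Nat.lt_succ_of_le (Finset.le_sup (f := f) he)
        have h2 := FrozM.count (E'.filter (fun e => e.2 = b)) f W (bad b) dm
          (fun e he => hW e (mem_filter.1 he).1)
          (by
            intro w
            refine le_trans ?_ (hd b w)
            rw [filter_filter])
        have h3 : ((E'.filter (fun e => bad e.2 (f e))).filter (fun e => e.2 = b)).card ≤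
            ((E'.filter (fun e => e.2 = b)).filter (fun e => bad b (f e))).card := by
          apply card_le_card
          intro e he
          rw [mem_filter, mem_filter] at he
          rw [mem_filter, mem_filter]
          obtain ⟨⟨he1, he2⟩, he3⟩ := he
          refine ⟨⟨he1, he3⟩, ?_⟩
          rw [← he3]
          exact he2
        calc _ ≤ (((E'.filter (fun e => e.2 = b)).filter (fun e => bad b (f e))).card : ℝ) := by
              exact_mod_cast h3
          _ ≤ _ := h2
          _ ≤ K * dm := mul_le_mul_of_nonneg_right (hK b W) hdm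
    _ = K * dm * (B E').card := by
        rw [sum_const, nsmul_eq_mul]
        ring

end FrozM

/-- **Frozen edges.** -/
theorem froz : StmtFroz := by
  intro ι L E' θ idx M u N dm hI hθ hu hdm hN hd
  have h := FrozM.main E' (fun e => idx e / M)
    (fun b w => ¬ Fr L E' (θ (w * M)) (θ ((w + 1) * M)) u b) (2 * N / u) dm hdm
    (by
      intro b W
      rw [le_div_iff₀ hu]
      exact FrozM.bad_windows L E' θ M W u N hI hθ hN hu.le b _ (fun w hw => hw))
    (by
      intro b w
      refine le_trans (le_of_eq ?_) (hd b w)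
      congr!)
  refine le_trans (le_of_eq ?_) h
  congr!

end

end Pool.Agent.GG38.Q
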