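import Pool.Agent.Lib.MP_38fd99_co.Q.Spec
import Pool.Agent.Lib.MP_38fd99_co.Halving

/-! # MP_38fd99_co, full Q1: from the separated case to all geometric graphs, by halving. -/

set_option autoImplicit false

namespace Pool.Agent.GG38.Q

open Finset Classical
open Pool.Agent.GG38

namespace HalvQM

/-- the separated case with a uniform constant -/
theorem sep_const (h : StmtSepQ) (ε : ℝ) (hε : 0 < ε) (hε1 : ε ≤ 1) : ∃ C : ℝ, 1 ≤ C ∧
    ∀ (ι : Type) (L : Lines ι) (E : Finset (ι × ι)), Inst L E →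
      (E.card : ℝ) ≤ C * (L.nu E : ℝ) ^ (1 + ε) * ((A E).card + (B E).card) := by
  obtain ⟨N₀, hN₀, hN⟩ := h ε hε hε1
  have hN₀' : (1 : ℝ) ≤ (N₀ : ℝ) := by exact_mod_cast hN₀
  refine ⟨(N₀ : ℝ) ^ (1 + ε), Real.one_le_rpow hN₀' (by linarith), ?_⟩
  intro ι L E hI
  rcases E.eq_empty_or_nonempty with hE | hE
  · rw [hE]
    simp only [Finset.card_empty, Nat.cast_zero]
    positivity
  · have h1 : 1 ≤ L.nu E := L.nu_pos hE
    have h2 := hN (max N₀ (L.nu E)) (le_max_left _ _) ι L E hI (le_max_right _ _)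
    have h3 : ((max N₀ (L.nu E) : ℕ) : ℝ) ≤ (N₀ : ℝ) * (L.nu E : ℝ) := by
      have h4 : max N₀ (L.nu E) ≤ N₀ * L.nu E :=
        max_le (Nat.le_mul_of_pos_right _ h1) (Nat.le_mul_of_pos_left _ hN₀)
      exact_mod_cast h4
    have h5 : ((max N₀ (L.nu E) : ℕ) : ℝ) ^ (1 + ε) ≤
        (N₀ : ℝ) ^ (1 + ε) * (L.nu E : ℝ) ^ (1 + ε) := by
      rw [← Real.mul_rpow (by positivity) (by positivity)]
      exact Real.rpow_le_rpow (by positivity) h3 (by linarith)
    exact h2.trans (mul_le_mul_of_nonneg_right h5 (by positivity))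

end HalvQM

theorem halvQ (hS : StmtSepQ) : StmtHalvQ := by
  intro ε hε hε1
  obtain ⟨C, hC1, hC⟩ := HalvQM.sep_const hS ε hε hε1
  refine ⟨3 * C, by linarith, ?_⟩
  intro ι L V
  induction hn : V.card using Nat.strong_induction_on generalizing V with
  | _ n ih =>
    intro E hinj hgp hE
    have hE' : ∀ p ∈ E, L.v p.1 < L.v p.2 := fun p hp => (hE p hp).2.2
    have hne : ∀ p ∈ E, p.1 ≠ p.2 := fun p hp h => by
      have := hE' p hp
      rw [h] at this
      exact lt_irrefl _ this
    rcases Nat.lt_or_ge n 2 with hn2 | hn2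
    · -- no edges
      have hE0 : E = ∅ := by
        rw [Finset.eq_empty_iff_forall_notMem]
        intro p hp
        obtain ⟨h1, h2, -⟩ := hE p hp
        have h3 : ({p.1, p.2} : Finset ι) ⊆ V := by
          intro x hx
          rw [Finset.mem_insert, Finset.mem_singleton] at hx
          rcases hx with rfl | rfl
          · exact h1
          · exact h2
        have h4 := Finset.card_le_card h3
        rw [Finset.card_pair (hne p hp)] at h4
        omega
      rw [hE0]
      simp only [Finset.card_empty, Nat.cast_zero]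
      positivity
    · obtain ⟨θ, hθ⟩ := Halving.exists_theta V L.v hinj (n / 2) (by omega)
      set V₁ := V.filter (fun x => L.v x < θ) with hV₁
      set V₂ := V.filter (fun x => ¬ L.v x < θ) with hV₂
      have hc : V₁.card + V₂.card = V.card := by
        rw [hV₁, hV₂]
        exact Finset.card_filter_add_card_filter_not _
      set E₁ := E.filter (fun p => L.v p.2 < θ) with hE₁
      set E₂ := E.filter (fun p => θ ≤ L.v p.1) with hE₂
      set E₃ := E.filter (fun p => L.v p.1 < θ ∧ θ ≤ L.v p.2) with hE₃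
      have hsub : E ⊆ E₁ ∪ E₂ ∪ E₃ := by
        intro p hp
        simp only [hE₁, hE₂, hE₃, Finset.mem_union, Finset.mem_filter]
        rcases lt_or_ge (L.v p.2) θ with h | h
        · exact Or.inl (Or.inl ⟨hp, h⟩)
        · rcases lt_or_ge (L.v p.1) θ with h' | h'
          · exact Or.inr ⟨hp, h', h⟩
          · exact Or.inl (Or.inr ⟨hp, h'⟩)
      have hcard : E.card ≤ E₁.card + E₂.card + E₃.card := by
        calc E.card ≤ (E₁ ∪ E₂ ∪ E₃).card := Finset.card_le_card hsub
          _ ≤ (E₁ ∪ E₂).card + E₃.card := Finset.card_union_le _ _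
          _ ≤ E₁.card + E₂.card + E₃.card := by
            have := Finset.card_union_le E₁ E₂
            omega
      have hV1 : V₁ ⊆ V := Finset.filter_subset _ _
      have hV2 : V₂ ⊆ V := Finset.filter_subset _ _
      have i1 : (E₁.card : ℝ) ≤ 3 * C * (L.nu E₁ : ℝ) ^ (1 + ε) * V₁.card := by
        have := ih V₁.card (by omega) V₁ rfl E₁ (hinj.mono (by exact_mod_cast hV1))
          (fun x hx y hy z hz => hgp x (hV1 hx) y (hV1 hy) z (hV1 hz)) (by
            intro p hp
            rw [hE₁, Finset.mem_filter] at hp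
            obtain ⟨h1, h2, h3⟩ := hE p hp.1
            rw [hV₁, Finset.mem_filter, Finset.mem_filter]
            exact ⟨⟨h1, h3.trans hp.2⟩, ⟨h2, hp.2⟩, h3⟩)
        exact this
      have i2 : (E₂.card : ℝ) ≤ 3 * C * (L.nu E₂ : ℝ) ^ (1 + ε) * V₂.card := by
        have := ih V₂.card (by omega) V₂ rfl E₂ (hinj.mono (by exact_mod_cast hV2))
          (fun x hx y hy z hz => hgp x (hV2 hx) y (hV2 hy) z (hV2 hz)) (by
            intro p hp
            rw [hE₂, Finset.mem_filter] at hp
            obtain ⟨h1, h2, h3⟩ := hE p hp.1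
            rw [hV₂, Finset.mem_filter, Finset.mem_filter]
            exact ⟨⟨h1, not_lt.2 hp.2⟩, ⟨h2, not_lt.2 (hp.2.trans h3.le)⟩, h3⟩)
        exact this
      have hAB : A E₃ ∪ B E₃ ⊆ V := by
        intro x hx
        rw [Finset.mem_union, mem_A, mem_B] at hx
        rcases hx with ⟨b, hb⟩ | ⟨a, ha⟩
        · exact (hE _ (Finset.mem_filter.1 hb).1).1
        · exact (hE _ (Finset.mem_filter.1 ha).1).2.1
      have hsep : ∀ a ∈ A E₃, ∀ b ∈ B E₃, L.v a < L.v b := by
        intro a ha b hb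
        rw [mem_A] at ha
        rw [mem_B] at hb
        obtain ⟨b', hb'⟩ := ha
        obtain ⟨a', ha'⟩ := hb
        exact lt_of_lt_of_le (Finset.mem_filter.1 hb').2.1 (Finset.mem_filter.1 ha').2.2
      have hinst : Inst L E₃ := by
        refine ⟨hsep, hinj.mono (by exact_mod_cast hAB), ?_⟩
        intro x hx y hy z hz
        exact hgp x (hAB hx) y (hAB hy) z (hAB hz)
      have i3 := hC ι L E₃ hinst
      have hdisj : Disjoint (A E₃) (B E₃) := by
        rw [Finset.disjoint_left]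
        intro x hx hx'
        exact lt_irrefl _ (hsep x hx x hx')
      have hcl : ((A E₃).card : ℝ) + (B E₃).card ≤ (n : ℝ) := by
        have h1 := Finset.card_le_card hAB
        rw [Finset.card_union_of_disjoint hdisj, hn] at h1
        exact_mod_cast h1
      have hC0 : 0 ≤ C := by linarith
      have hnu3 : (L.nu E₃ : ℝ) ^ (1 + ε) ≤ (L.nu E : ℝ) ^ (1 + ε) := by
        refine Real.rpow_le_rpow (by positivity) ?_ (by linarith)
        exact_mod_cast L.nu_mono (Finset.filter_subset _ _)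
      have j3 : (E₃.card : ℝ) ≤ C * (L.nu E : ℝ) ^ (1 + ε) * n := by
        calc (E₃.card : ℝ) ≤ C * (L.nu E₃ : ℝ) ^ (1 + ε) * ((A E₃).card + (B E₃).card) := i3
          _ ≤ C * (L.nu E : ℝ) ^ (1 + ε) * n := by
            have h3 := mul_le_mul_of_nonneg_left hnu3 hC0
            exact mul_le_mul h3 hcl (by positivity) (by positivity)
      have hnu := Halving.nu_add_le L θ E hE'
      have hnu' : (L.nu E₁ : ℝ) + L.nu E₂ ≤ L.nu E := by exact_mod_cast hnu
      have hpow : (L.nu E₁ : ℝ) ^ (1 + ε) + (L.nu E₂ : ℝ) ^ (1 + ε) ≤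
          (L.nu E : ℝ) ^ (1 + ε) := by
        refine (Real.add_rpow_le_rpow_add (by positivity) (by positivity) (by linarith)).trans ?_
        exact Real.rpow_le_rpow (by positivity) hnu' (by linarith)
      have r1 : (V₁.card : ℝ) ≤ 2 / 3 * n := by
        have : ((3 * V₁.card : ℕ) : ℝ) ≤ ((2 * n : ℕ) : ℝ) := by
          have : 3 * V₁.card ≤ 2 * n := by omega
          exact_mod_cast this
        push_cast at this
        linarith
      have r2 : (V₂.card : ℝ) ≤ 2 / 3 * n := by
        have : ((3 * V₂.card : ℕ) : ℝ) ≤ ((2 * n : ℕ) : ℝ) := by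
          have : 3 * V₂.card ≤ 2 * n := by omega
          exact_mod_cast this
        push_cast at this
        linarith
      have j1 : (E₁.card : ℝ) ≤ 2 * C * n * (L.nu E₁ : ℝ) ^ (1 + ε) := by
        calc (E₁.card : ℝ) ≤ 3 * C * (L.nu E₁ : ℝ) ^ (1 + ε) * V₁.card := i1
          _ ≤ 3 * C * (L.nu E₁ : ℝ) ^ (1 + ε) * (2 / 3 * n) :=
            mul_le_mul_of_nonneg_left r1 (by positivity)
          _ = 2 * C * n * (L.nu E₁ : ℝ) ^ (1 + ε) := by ring
      have j2 : (E₂.card : ℝ) ≤ 2 * C * n * (L.nu E₂ : ℝ) ^ (1 + ε) := by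
        calc (E₂.card : ℝ) ≤ 3 * C * (L.nu E₂ : ℝ) ^ (1 + ε) * V₂.card := i2
          _ ≤ 3 * C * (L.nu E₂ : ℝ) ^ (1 + ε) * (2 / 3 * n) :=
            mul_le_mul_of_nonneg_left r2 (by positivity)
          _ = 2 * C * n * (L.nu E₂ : ℝ) ^ (1 + ε) := by ring
      have hcard' : (E.card : ℝ) ≤ E₁.card + E₂.card + E₃.card := by exact_mod_cast hcard
      have hlast : 2 * C * n * (L.nu E₁ : ℝ) ^ (1 + ε) + 2 * C * n * (L.nu E₂ : ℝ) ^ (1 + ε) ≤
          2 * C * n * (L.nu E : ℝ) ^ (1 + ε) := by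
        rw [← mul_add]
        exact mul_le_mul_of_nonneg_left hpow (by positivity)
      calc (E.card : ℝ) ≤ 2 * C * n * (L.nu E : ℝ) ^ (1 + ε) +
              C * (L.nu E : ℝ) ^ (1 + ε) * n := by linarith
        _ = 3 * C * (L.nu E : ℝ) ^ (1 + ε) * n := by ring

end Pool.Agent.GG38.Q
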