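import Pool.Agent.Lib.MP_38fd99_co.Q.Spec

/-!
# MP_38fd99_co, full Q1: there is no situation `Top` with many scales (`StmtNoTop`)
-/

set_option autoImplicit false

namespace Pool.Agent.GG38.Q

open Finset Classical

namespace NoTopM

theorem le_of_pow {a c : ℕ} {x : ℝ} (h : (2 : ℝ) ^ a ≤ x) (h' : x ≤ 2 ^ c) : a ≤ c := by
  have h1 : (2 : ℝ) ^ a ≤ 2 ^ c := h.trans h'
  exact (pow_le_pow_iff_right₀ (by norm_num : (1 : ℝ) < 2)).1 h1

theorem weaken {P l N : ℝ} (hP : 1 ≤ P) (hl : 1 ≤ l) (hN : 0 ≤ N) :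
    P * (8 * l) * N ≤ 13000 * P * (8 * l) ^ 2 * N := by
  have h1 : 8 * l ≤ 13000 * (8 * l) ^ 2 := by nlinarith
  have h2 : 0 ≤ P * N := by positivity
  calc P * (8 * l) * N = (P * N) * (8 * l) := by ring
    _ ≤ (P * N) * (13000 * (8 * l) ^ 2) := mul_le_mul_of_nonneg_left h1 h2
    _ = 13000 * P * (8 * l) ^ 2 * N := by ring

end NoTopM

open NoTopM in
/-- NO SUCH SITUATION. -/
theorem noTop (h1 : StmtStepV) (h2 : StmtStepF) (h3 : StmtStepMin) (h4 : StmtTopNeg)
    (h5 : StmtScales) : StmtNoTop := by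
  intro ι L E E' θ idx q qA qB N I Z Lw lam g c s P Lam hT hc hs hI
  have hT' := h4 ι L E E' θ idx q qA qB N I Z Lw lam g P Lam hT
  have hl : (1 : ℝ) ≤ lam := by exact_mod_cast hT.lam1
  have hw := weaken hT.P1 hl (Nat.cast_nonneg (α := ℝ) N)
  have key : I ≤ 3 * s + 2 := by
    refine h5 qA qB I g c s (fun i hi => ⟨hT.monoA i hi, hT.monoB i hi⟩) ?_ ?_ ?_ ?_ hs
    · intro i hi
      have h6 := h3 ι L E E' θ idx q qA qB N I Z Lw lam g P Lam hT i hi
      rcases le_total (qA i) (qB i) with h7 | h7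
      · rw [min_eq_left h7]
        rw [min_eq_left (pow_le_pow_right₀ (by norm_num : (1 : ℝ) ≤ 2) h7)] at h6
        exact le_of_pow (h6.trans hw) hc
      · rw [min_eq_right h7]
        rw [min_eq_right (pow_le_pow_right₀ (by norm_num : (1 : ℝ) ≤ 2) h7)] at h6
        exact le_of_pow (h6.trans hw) hc
    · intro i hi h6
      exact le_of_pow (h1 ι L E E' θ idx q qA qB N I Z Lw lam g P Lam hT i hi h6) hc
    · intro i hi h6
      exact le_of_pow (h1 ι L.neg (Esw E) (Esw E') θ (fun e => idx e.swap) q qB qA N I Z Lw lam g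
        P Lam hT' i hi h6) hc
    · intro i hi h6 h7
      exact h2 ι L E E' θ idx q qA qB N I Z Lw lam g P Lam hT i hi h6 h7
  omega

end Pool.Agent.GG38.Q
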