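import Pool.Agent.Lib.MP_38fd99_co.Q.Spec

/-!
# MP_38fd99_co, full Q1: choice of a node of the dyadic tree
-/

set_option autoImplicit false

namespace Pool.Agent.GG38.Q

open Finset Classical

namespace NodeAux

/-- `(1+1/D)^D < 3` -/
theorem one_add_inv_pow (D : ℕ) (hD : 1 ≤ D) : (1 + 1 / (D : ℝ)) ^ D ≤ 3 := by
  have h0 : (0 : ℝ) < D := by exact_mod_cast hD
  have h1 : 1 + 1 / (D : ℝ) ≤ Real.exp (1 / D) := by
    have := Real.add_one_le_exp (1 / (D : ℝ)); linarith
  have h2 : (1 + 1 / (D : ℝ)) ^ D ≤ (Real.exp (1 / D)) ^ D := by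
    apply pow_le_pow_left₀ (by positivity) h1
  rw [← Real.exp_nat_mul] at h2
  have h3 : (D : ℝ) * (1 / D) = 1 := by field_simp
  rw [h3] at h2
  have := Real.exp_one_lt_d9
  linarith

/-- the two halves of a node -/
theorem node_halves (D d j x : ℕ) (hd : d < D) :
    (x / 2 ^ (D - (d + 1)) = 2 * j ↔ x / 2 ^ (D - d) = j ∧ x < cut D d j) ∧
    (x / 2 ^ (D - (d + 1)) = 2 * j + 1 ↔ x / 2 ^ (D - d) = j ∧ cut D d j ≤ x) := by
  have e1 : D - d = (D - (d + 1)) + 1 := by omega
  unfold cut
  rw [e1, pow_succ]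
  generalize hq : 2 ^ (D - (d + 1)) = q
  have hq0 : 0 < q := by rw [← hq]; positivity
  have e2 : q * 2 / 2 = q := by omega
  rw [e2]
  have e3 : x / (q * 2) = x / q / 2 := (Nat.div_div_eq_div_mul x q 2).symm
  rw [e3]
  have hdm := Nat.div_add_mod x q
  have hml := Nat.mod_lt x hq0
  generalize hy : x / q = y at *
  generalize x % q = m at *
  constructor
  · constructor
    · intro h
      subst h
      refine ⟨by omega, ?_⟩
      nlinarith
    · rintro ⟨h1, h2⟩
      have h3 : y = 2 * j ∨ y = 2 * j + 1 := by omega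
      rcases h3 with h3 | h3
      · exact h3
      · exfalso
        subst h3
        nlinarith
  · constructor
    · intro h
      subst h
      refine ⟨by omega, ?_⟩
      nlinarith
    · rintro ⟨h1, h2⟩
      have h3 : y = 2 * j ∨ y = 2 * j + 1 := by omega
      rcases h3 with h3 | h3
      · exfalso
        subst h3
        nlinarith
      · exact h3

/-- NODE CHOICE: dyadic interval number `j` of level `d` -/
theorem node_choice (D : ℕ) (hD : 1 ≤ D) (N : Finset ℕ) (hN : ∀ x ∈ N, x < 2 ^ D) :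
     ∃ d ≤ D, ∃ j < 2 ^ d,
      N.card ≤ 3 * (N.filter (fun x => x / 2 ^ (D - d) = j)).card ∧
      (d < D → (N.filter (fun x => x / 2 ^ (D - d) = j)).card ≤
          (D + 1) * (N.filter (fun x => x / 2 ^ (D - d) = j ∧ x < cut D d j)).card ∧
        (N.filter (fun x => x / 2 ^ (D - d) = j)).card ≤
          (D + 1) * (N.filter (fun x => x / 2 ^ (D - d) = j ∧ cut D d j ≤ x)).card) := by
  have hD0 : (0 : ℝ) < D := by exact_mod_cast hD
  let c : ℕ → ℕ → ℕ := fun d j => (N.filter (fun x => x / 2 ^ (D - d) = j)).card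
  let S : Finset (ℕ × ℕ) := (range (D + 1) ×ˢ range (2 ^ D)).filter (fun z => z.2 < 2 ^ z.1)
  have hS0 : ((0 : ℕ), (0 : ℕ)) ∈ S := by
    simp [S]
  obtain ⟨⟨d, j⟩, hz, hmax⟩ := S.exists_max_image
    (fun z => (c z.1 z.2 : ℝ) * (1 + 1 / (D : ℝ)) ^ z.1) ⟨_, hS0⟩
  simp only [S, mem_filter, mem_product, mem_range] at hz
  obtain ⟨⟨hd, _⟩, hj⟩ := hz
  have hd' : d ≤ D := by omega
  refine ⟨d, hd', j, hj, ?_, ?_⟩
  · have h1 := hmax _ hS0
    simp only [pow_zero, mul_one] at h1
    have h2 : c 0 0 = N.card := by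
      simp only [c]
      congr 1
      apply Finset.filter_true_of_mem
      intro x hx
      exact Nat.div_eq_of_lt (by simpa using hN x hx)
    rw [h2] at h1
    have h3 : (1 + 1 / (D : ℝ)) ^ d ≤ 3 :=
      (pow_le_pow_right₀ (by simp) hd').trans (one_add_inv_pow D hD)
    have h4 : (N.card : ℝ) ≤ 3 * (c d j : ℝ) := by
      refine h1.trans ?_
      rw [mul_comm]
      exact mul_le_mul_of_nonneg_right h3 (by positivity)
    exact_mod_cast h4
  · intro hdD
    have hL : c (d + 1) (2 * j) = (N.filter (fun x => x / 2 ^ (D - d) = j ∧ x < cut D d j)).card := by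
      simp only [c]
      congr 1
      apply Finset.filter_congr
      intro x _
      exact (node_halves D d j x hdD).1
    have hR : c (d + 1) (2 * j + 1) =
        (N.filter (fun x => x / 2 ^ (D - d) = j ∧ cut D d j ≤ x)).card := by
      simp only [c]
      congr 1
      apply Finset.filter_congr
      intro x _
      exact (node_halves D d j x hdD).2
    have hsum : c d j = c (d + 1) (2 * j) + c (d + 1) (2 * j + 1) := by
      rw [hL, hR]
      simp only [c]
      rw [← Finset.card_union_of_disjoint]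
      · congr 1
        ext x
        simp only [mem_filter, mem_union]
        constructor
        · rintro ⟨h1, h2⟩
          rcases Nat.lt_or_ge x (cut D d j) with h3 | h3
          · exact Or.inl ⟨h1, h2, h3⟩
          · exact Or.inr ⟨h1, h2, h3⟩
        · rintro (⟨h1, h2, _⟩ | ⟨h1, h2, _⟩) <;> exact ⟨h1, h2⟩
      · rw [Finset.disjoint_left]
        intro x hx hx'
        simp only [mem_filter] at hx hx'
        omega
    have hpow : 2 ^ (d + 1) ≤ 2 ^ D := Nat.pow_le_pow_right (by norm_num) (by omega)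
    have hp2 : 2 ^ (d + 1) = 2 * 2 ^ d := by ring
    have key : ∀ i, i < 2 ^ (d + 1) → (c (d + 1) i : ℝ) * (1 + 1 / (D : ℝ)) ≤ c d j := by
      intro i hi
      have h1 : ((d + 1, i) : ℕ × ℕ) ∈ S := by
        simp only [S, mem_filter, mem_product, mem_range]
        refine ⟨⟨by omega, by omega⟩, hi⟩
      have h2 := hmax _ h1
      simp only [pow_succ] at h2
      have h3 : (0 : ℝ) < (1 + 1 / (D : ℝ)) ^ d := by positivity
      have h4 : (c (d + 1) i : ℝ) * (1 + 1 / (D : ℝ)) * (1 + 1 / (D : ℝ)) ^ d ≤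
          (c d j : ℝ) * (1 + 1 / (D : ℝ)) ^ d := by
        calc _ = (c (d + 1) i : ℝ) * ((1 + 1 / (D : ℝ)) ^ d * (1 + 1 / (D : ℝ))) := by ring
          _ ≤ _ := h2
      exact le_of_mul_le_mul_right h4 h3
    have key2 : ∀ i, i < 2 ^ (d + 1) → c (d + 1) i * (D + 1) ≤ c d j * D := by
      intro i hi
      have h1 := key i hi
      have h2 : (c (d + 1) i : ℝ) * (D + 1) ≤ c d j * D := by
        have h3 : (c (d + 1) i : ℝ) * (D + 1) = (c (d + 1) i : ℝ) * (1 + 1 / (D : ℝ)) * D := by
          field_simp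
        rw [h3]
        exact mul_le_mul_of_nonneg_right h1 hD0.le
      exact_mod_cast h2
    have hc : (N.filter (fun x => x / 2 ^ (D - d) = j)).card = c d j := rfl
    rw [hc, ← hL, ← hR]
    constructor
    · have h1 := key2 (2 * j + 1) (by omega)
      rw [hsum] at h1 ⊢
      nlinarith
    · have h1 := key2 (2 * j) (by omega)
      rw [hsum] at h1 ⊢
      nlinarith

end NodeAux

open NodeAux in
theorem node : StmtNode := by
  intro D N' hne hlt
  rcases Nat.eq_zero_or_pos D with rfl | hD
  · have h0 : ∀ x ∈ N', x = 0 := by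
      intro x hx
      have := hlt x hx
      simpa using this
    have e1 : ∀ p : ℕ → Prop, p 0 → N'.filter p = N' := by
      intro p hp
      apply Finset.filter_true_of_mem
      intro x hx
      rw [h0 x hx]
      exact hp
    refine ⟨0, 0, le_rfl, ?_, ?_, ?_⟩
    · rw [Finset.filter_true_of_mem (by intro x hx; rw [h0 x hx]; simp)]
      omega
    · rw [Finset.filter_true_of_mem (by intro x hx; rw [h0 x hx]; simp),
        Finset.filter_true_of_mem (by intro x hx; rw [h0 x hx]; simp [cut])]
      omega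
    · rw [Finset.filter_true_of_mem (by intro x hx; rw [h0 x hx]; simp),
        Finset.filter_true_of_mem (by intro x hx; rw [h0 x hx]; simp [cut])]
      omega
  · obtain ⟨d, hd, j, _, h1, h2⟩ := node_choice D hD N' hlt
    refine ⟨d, j, hd, h1, ?_⟩
    rcases hd.lt_or_eq with hdD | rfl
    · obtain ⟨h3, h4⟩ := h2 hdD
      refine ⟨h4, h3.trans (Nat.mul_le_mul_left _ (Finset.card_le_card ?_))⟩
      intro x hx
      rw [Finset.mem_filter] at hx ⊢
      exact ⟨hx.1, hx.2.1, hx.2.2.le⟩
    · have e2 : ∀ x, x / 2 ^ (d - d) = j → x = cut d d j := by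
        intro x hx
        unfold cut
        rw [Nat.sub_self, pow_zero, Nat.div_one] at hx
        simp [hx]
      constructor
      · refine le_trans (Finset.card_le_card ?_) (Nat.le_mul_of_pos_left _ (Nat.succ_pos d))
        intro x hx
        rw [Finset.mem_filter] at hx ⊢
        exact ⟨hx.1, hx.2, (e2 x hx.2).ge⟩
      · refine le_trans (Finset.card_le_card ?_) (Nat.le_mul_of_pos_left _ (Nat.succ_pos d))
        intro x hx
        rw [Finset.mem_filter] at hx ⊢
        exact ⟨hx.1, hx.2, (e2 x hx.2).le⟩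

end Pool.Agent.GG38.Q
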