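import Pool.Agent.Lib.MP_38fd99_co.Q.Spec

/-!
# MP_38fd99_co, full Q1: number of windows with the same node
-/

set_option autoImplicit false

namespace Pool.Agent.GG38.Q

open Finset Classical

namespace NodeCountM

/-- the elements of `T` in increasing order -/
noncomputable def el (T : Finset ℕ) (i : ℕ) : ℕ :=
  if h : i < T.card then T.orderEmbOfFin rfl ⟨i, h⟩ else 0

theorem el_mem {T : Finset ℕ} {i : ℕ} (h : i < T.card) : el T i ∈ T := by
  unfold el
  rw [dif_pos h]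
  exact Finset.orderEmbOfFin_mem T rfl _

theorem el_lt {T : Finset ℕ} {i j : ℕ} (hij : i < j) (h : j < T.card) : el T i < el T j := by
  unfold el
  rw [dif_pos h, dif_pos (hij.trans h)]
  exact (T.orderEmbOfFin rfl).strictMono (by simpa using hij)

theorem el_le {T : Finset ℕ} {i j : ℕ} (hij : i ≤ j) (h : j < T.card) : el T i ≤ el T j := by
  rcases Nat.eq_or_lt_of_le hij with rfl | h1
  · exact le_rfl
  · exact (el_lt h1 h).le

/-- the block number `k` of length `f` -/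
noncomputable def blk (T : Finset ℕ) (f k : ℕ) : Finset ℕ :=
  (Finset.Ico (k * f) ((k + 1) * f)).image (el T)

theorem mem_blk {T : Finset ℕ} {f k j : ℕ} :
    j ∈ blk T f k ↔ ∃ i, k * f ≤ i ∧ i < (k + 1) * f ∧ el T i = j := by
  unfold blk
  rw [Finset.mem_image]
  constructor
  · rintro ⟨i, hi, rfl⟩
    rw [Finset.mem_Ico] at hi
    exact ⟨i, hi.1, hi.2, rfl⟩
  · rintro ⟨i, h1, h2, rfl⟩
    exact ⟨i, Finset.mem_Ico.2 ⟨h1, h2⟩, rfl⟩

theorem blk_sub {T : Finset ℕ} {f k : ℕ} (h : (k + 1) * f ≤ T.card) : blk T f k ⊆ T := by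
  intro j hj
  obtain ⟨i, _, h2, rfl⟩ := mem_blk.1 hj
  exact el_mem (lt_of_lt_of_le h2 h)

theorem blk_card {T : Finset ℕ} {f k : ℕ} (h : (k + 1) * f ≤ T.card) : (blk T f k).card = f := by
  unfold blk
  rw [Finset.card_image_of_injOn, Nat.card_Ico]
  · rw [Nat.add_mul, Nat.one_mul]
    omega
  · intro i hi j hj hij
    rw [Finset.coe_Ico, Set.mem_Ico] at hi hj
    rcases lt_trichotomy i j with h1 | h1 | h1
    · exact absurd hij (el_lt h1 (lt_of_lt_of_le hj.2 h)).ne
    · exact h1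
    · exact absurd hij (el_lt h1 (lt_of_lt_of_le hi.2 h)).ne'

theorem blk_lt {T : Finset ℕ} {f k l : ℕ} (hkl : k < l) (h : (l + 1) * f ≤ T.card) :
    ∀ i ∈ blk T f k, ∀ j ∈ blk T f l, i < j := by
  intro i hi j hj
  obtain ⟨i, _, h2, rfl⟩ := mem_blk.1 hi
  obtain ⟨j, h3, h4, rfl⟩ := mem_blk.1 hj
  have h5 : (k + 1) * f ≤ l * f := Nat.mul_le_mul_right f hkl
  exact el_lt (by omega) (lt_of_lt_of_le h4 h)

end NodeCountM

open NodeCountM in
theorem nodeCount (h1 : StmtT3) (h2 : StmtBlockBundle) (h3 : StmtBlockSep) : StmtNodeCount := by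
  intro ι L E t0 t1 T s s' F r c D QA QB P rho N hw
  have hQA := hw.QA0
  have hQB : 0 < QB := lt_of_lt_of_le hQA hw.QAB
  have hP : 0 < P := lt_of_lt_of_le one_pos hw.P1
  have hrho : 0 < rho := lt_of_lt_of_le one_pos hw.rho1
  have hN : 0 ≤ N := le_trans (Nat.cast_nonneg _) hw.nuE
  have huA : 0 < uA4 QA P rho D := by
    unfold uA4
    positivity
  have huB : 0 < uB4 QB P rho := by
    unfold uB4
    positivity
  obtain ⟨X, hX⟩ : ∃ X : ℝ, X = 600 * (QB / QA) * (N / uA4 QA P rho D + 1) ^ 2 := ⟨_, rfl⟩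
  have hX0 : 0 < X := by
    rw [hX]
    positivity
  obtain ⟨f, hf⟩ : ∃ f : ℕ, f = ⌈X⌉₊ := ⟨_, rfl⟩
  have hf1 : 1 ≤ f := by
    rw [hf]
    exact Nat.one_le_ceil_iff.2 hX0
  have hfX : X ≤ f := by
    rw [hf]
    exact Nat.le_ceil X
  have hfX' : (f : ℝ) ≤ X + 1 := by
    rw [hf]
    exact (Nat.ceil_lt_add_one hX0.le).le
  obtain ⟨m, hm⟩ : ∃ m : ℕ, m = T.card / f := ⟨_, rfl⟩
  have hmT : m * f ≤ T.card := by
    rw [hm]
    exact Nat.div_mul_le_self _ _
  have hkT : ∀ k ∈ Finset.range m, (k + 1) * f ≤ T.card := by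
    intro k hk
    rw [Finset.mem_range] at hk
    exact (Nat.mul_le_mul_right f hk).trans hmT
  have hb : ∀ k ∈ Finset.range m, Bundle L E t0 t1 (uB4 QB P rho) (s (el T (k * f)))
      (s' (el T ((k + 1) * f - 1))) ((blk T f k).biUnion F) (bw F (blk T f k)) := by
    intro k hk
    have hk' := hkT k hk
    have hkf : k * f < (k + 1) * f := by
      rw [Nat.add_mul, Nat.one_mul]
      omega
    refine h2 ι L E t0 t1 T s s' F r c D QA QB P rho N (blk T f k) _ _ hw (blk_sub hk')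
      (mem_blk.2 ⟨k * f, le_rfl, hkf, rfl⟩)
      (mem_blk.2 ⟨(k + 1) * f - 1, by omega, by omega, rfl⟩) ?_ ?_
    · intro j hj
      obtain ⟨i, h4, h5, rfl⟩ := mem_blk.1 hj
      exact ⟨el_le h4 (lt_of_lt_of_le h5 hk'), el_le (by omega) (by omega)⟩
    · rw [blk_card hk', ← hX]
      exact hfX
  have h4 := h1 ι L E t0 t1 (uB4 QB P rho) N ℕ (Finset.range m) (fun k => s (el T (k * f)))
    (fun k => s' (el T ((k + 1) * f - 1))) (fun k => (blk T f k).biUnion F)
    (fun k => bw F (blk T f k)) hw.wins.inst hw.wins.g0 hw.wins.g1 huB hw.nuE hb (by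
      intro k hk l hl hkl
      rcases Nat.lt_or_gt_of_ne hkl with h5 | h5
      · right
        exact h3 ι L E t0 t1 T s s' F r c D QA QB P rho N (blk T f k) (blk T f l) _ _ hw
          (blk_sub (hkT k hk)) (blk_sub (hkT l hl)) (blk_lt h5 (hkT l hl)) (hb l hl)
      · left
        exact h3 ι L E t0 t1 T s s' F r c D QA QB P rho N (blk T f l) (blk T f k) _ _ hw
          (blk_sub (hkT l hl)) (blk_sub (hkT k hk)) (blk_lt h5 (hkT k hk)) (hb k hk))
  rw [Finset.card_range] at h4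
  have h5 : T.card ≤ f * (m + 1) := by
    rw [hm]
    exact (Nat.lt_mul_div_succ _ hf1).le
  have h6 : (T.card : ℝ) ≤ f * (m + 1) := by exact_mod_cast h5
  rw [← hX]
  refine h6.trans ?_
  apply mul_le_mul hfX' (by linarith) (by positivity) (by linarith)

end Pool.Agent.GG38.Q
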