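import Pool.Agent.Lib.MP_38fd99_co.Q.Mass

/-!
# MP_38fd99_co, full Q1: number of different nodes
-/

set_option autoImplicit false

namespace Pool.Agent.GG38.Q

open Finset Classical

namespace NodesAux

variable {ι : Type}

/-- a dense window is a bundle of value `QB / (100 P rho)` (fast side) -/
theorem bundle_single {L : Lines ι} {E G : Finset (ι × ι)} {t0 t1 s s' u : ℝ}
    {P rho QA QB : ℝ} (h1 : t0 ≤ s) (h2 : s ≤ s') (h3 : s' ≤ t1) (h4 : Gen L (A E ∪ B E) s)
    (h5 : Gen L (A E ∪ B E) s') (hGE : G ⊆ E) (htim : ∀ e ∈ G, s ≤ et L e ∧ et L e ≤ s')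
    (hne : G.Nonempty) (hD : Dens L P G) (hR : Reg QA QB rho G) (hP : 0 < P)
    (hrho : 0 < rho) (hQ : 0 ≤ QB) (hQA : QB ≤ QA) (hu : u ≤ QB / (100 * P * rho))
    (hfr : ∀ x ∈ B G, Fr L E t0 t1 u x) : Bundle L E t0 t1 u s s' G (dw G) := by
  have hpos : (0 : ℝ) < G.card := by exact_mod_cast hne.card_pos
  have key : ∀ (c : ℝ), 1 ≤ c → ∀ p : ι → Prop, 1 / c ≤ ms G (dw G) p →
      QB ≤ P * (c * rho) * L.nu (G.filter (fun e => p e.2)) := by
    intro c hc p hp
    rw [ms_dw, div_le_div_iff₀ (by linarith) hpos, one_mul] at hp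
    have hne' : (G.filter (fun e => p e.2)).Nonempty := by
      rw [← Finset.card_pos]
      have : (0 : ℝ) < ((G.filter (fun e => p e.2)).card : ℝ) := by
        by_contra hcon
        push Not at hcon
        nlinarith
      exact_mod_cast this
    refine nu_ge_of_reg hD (Finset.filter_subset _ _) hne' ?_ (by positivity) hQA le_rfl
    exact reg_sub hR (Finset.filter_subset _ _) (hQ.trans hQA) hQ hrho.le
      (by linarith)
  have hu' : u * (100 * P * rho) ≤ QB := by
    rwa [le_div_iff₀ (by positivity)] at hu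
  exact
    { t0s := h1
      ss' := h2
      s't1 := h3
      gs := h4
      gs' := h5
      sub := hGE
      tim := htim
      w0 := dw_nonneg G
      w1 := by
        rw [ms_dw]
        simp only [Finset.filter_true]
        exact div_self hpos.ne'
      v0 := by
        intro p hp
        have := key 100 (by norm_num) p hp
        have h6 : u * (100 * P * rho) ≤ L.nu (G.filter (fun e => p e.2)) * (100 * P * rho) := by
          linarith
        exact le_of_mul_le_mul_right h6 (by positivity)
      v1 := by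
        intro p hp
        have := key 8 (by norm_num) p hp
        have hn : (0 : ℝ) ≤ P * rho * L.nu (G.filter (fun e => p e.2)) := by positivity
        have h6 : 2 * u * (100 * P * rho) ≤
            L.nu (G.filter (fun e => p e.2)) * (100 * P * rho) := by
          nlinarith
        exact le_of_mul_le_mul_right h6 (by positivity)
      fr := hfr }

end NodesAux

open NodesAux in
theorem nodesA (hT3 : StmtT3) : StmtNodesA := by
  intro ι L E t0 t1 T s s' F QA QB P rho N u hW hQA hQAB hP hrho hN hu hu' hD hR hfr hsep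
  have hW' := hW.neg
  refine hT3 ι L.neg (Esw E) t0 t1 u N ℕ T s s' (fun j => Esw (F j)) (fun j => dw (Esw (F j)))
    hW'.inst hW'.g0 hW'.g1 hu (by rw [L.nu_neg]; exact hN) ?_ ?_
  · intro j hj
    exact bundle_single (QA := QB) (QB := QA) (hW'.t0s j hj) (hW'.ss' j hj) (hW'.s't1 j hj)
      (hW'.gs j hj) (hW'.gs' j hj) (hW'.sub j hj) (hW'.tim j hj) (hW'.ne j hj)
      (Dens_Esw (hD j hj)) (Reg_Esw (hR j hj)) (by linarith) (by linarith) hQA.le hQAB hu'
      (by
        intro x hx
        rw [B_Esw] at hx
        exact hfr j hj x hx)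
  · intro k hk l hl hkl
    rcases hsep k hk l hl hkl with h | h
    · right
      rintro z ⟨hz, _⟩ x ⟨hx, _⟩
      rw [B_Esw] at hz hx
      rw [L.neg_H, L.neg_H]
      have := h x hx z hz
      linarith
    · left
      rintro z ⟨hz, _⟩ x ⟨hx, _⟩
      rw [B_Esw] at hz hx
      rw [L.neg_H, L.neg_H]
      have := h z hz x hx
      linarith

end Pool.Agent.GG38.Q
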