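import Pool.Agent.Lib.MP_38fd99_co.Q.Spec

set_option autoImplicit false

namespace Pool.Agent.GG38.Q

open Finset Classical

theorem over_ : StmtOver := by
  intro ι L E t0 t1 u s s' F w x hI hB hF
  by_contra hcon
  push Not at hcon
  obtain ⟨p, hp⟩ : ∃ p : ι → Prop, p = fun z => L.H x t0 < L.H z t0 ∧ L.H z t1 < L.H x t1 :=
    ⟨_, rfl⟩
  have hp' : ∀ z, p z → L.H x t0 < L.H z t0 ∧ L.H z t1 < L.H x t1 := by
    intro z hz
    rw [hp] at hz
    exact hz
  rw [← hp] at hcon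
  have h1 := hB.v0 _ hcon
  have h01 : t0 ≤ t1 := hB.t0s.trans (hB.ss'.trans hB.s't1)
  have h2 := L3 hI h01 (Or.inl (rfl : x = x)) (F.filter (fun e => p e.2))
    ((Finset.filter_subset _ _).trans hB.sub) (by
      intro f hf
      rw [Finset.mem_filter] at hf
      obtain ⟨hf, h3⟩ := hf
      obtain ⟨h3, h4⟩ := hp' _ h3
      have h5 := hB.tim f hf
      exact ⟨hB.t0s.trans h5.1, h5.2.trans hB.s't1, v_lt_of_over L h01 h3.le h4, h3.le, h4⟩)
  have h3 : (lV L E t0 x : ℝ) + L.nu (F.filter (fun e => p e.2)) ≤ lV L E t1 x := by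
    exact_mod_cast h2
  have h4 := hF.1
  linarith

end Pool.Agent.GG38.Q
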