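import Pool.Agent.Lib.MP_38fd99_co.Q.Spec

/-!
# MP_38fd99_co: the choice of the parameters
-/

namespace Pool.Agent.GG38.Q

noncomputable section

namespace ParamQM

open Filter Asymptotics

theorem ev_log (M τ : ℝ) (hτ : 0 < τ) :
    ∀ᶠ x : ℝ in atTop, M * (Real.logb 2 x + 1) + 1 ≤ x ^ τ := by
  have h1 : (fun x : ℝ => Real.log x) =o[atTop] fun x => x ^ τ := isLittleO_log_rpow_atTop hτ
  have h2 : ∀ c : ℝ, (fun _ : ℝ => c) =o[atTop] fun x : ℝ => x ^ τ := fun c =>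
    isLittleO_const_left.2 (Or.inr (tendsto_norm_atTop_atTop.comp (tendsto_rpow_atTop hτ)))
  have h3 : (fun x : ℝ => M / Real.log 2 * Real.log x + (M + 1)) =o[atTop] fun x => x ^ τ :=
    (h1.const_mul_left _).add (h2 _)
  filter_upwards [h3.def one_pos, eventually_ge_atTop (0 : ℝ)] with x hx hx0
  have h4 : 0 ≤ x ^ τ := Real.rpow_nonneg hx0 τ
  rw [one_mul, Real.norm_eq_abs, Real.norm_eq_abs, abs_of_nonneg h4] at hx
  have h5 := (le_abs_self _).trans hx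
  have h6 : M * (Real.logb 2 x + 1) + 1 = M / Real.log 2 * Real.log x + (M + 1) := by
    rw [Real.logb]
    ring
  rw [h6]
  exact h5

theorem ev_const (K δ : ℝ) (hδ : 0 < δ) : ∀ᶠ x : ℝ in atTop, K ≤ x ^ δ :=
  (tendsto_rpow_atTop hδ).eventually_ge_atTop K

/-- all the inequalities from the asymptotic facts -/
theorem main (ε : ℝ) (hε : 0 < ε) (hε1 : ε ≤ 1) (s : ℕ) (hs : 8 / ε ≤ s) (C : ℝ) (hC : 1 ≤ C)
    (N : ℕ) (hN : 2 ≤ N)
    (h1 : ((9 * (3 * s + 3) + 1 : ℕ) : ℝ) * (Real.logb 2 N + 1) + 1 ≤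
      (N : ℝ) ^ (ε / 400 / ((2 * (3 * s + 3 + 1) + 1 : ℕ) : ℝ)))
    (h2 : 2 * C ≤ (N : ℝ) ^ (ε / 400)) (h3 : 64 * 10 ^ 10 ≤ (N : ℝ) ^ (ε / 400)) :
    ∃ (Z Lw g c : ℕ) (P Lam : ℝ),
    1 ≤ Z ∧ 1 ≤ Lw ∧ 1 ≤ P ∧ N * Lw ^ (3 * s + 3) < 2 ^ Z ∧
    C * (2 * (N : ℝ) * Lw ^ (3 * s + 3)) ^ (ε / 400 / ((9 * (3 * s + 3) + 1 : ℕ) : ℝ)) ≤ P ∧
    P ≤ (N : ℝ) ^ ε ∧
    10 ^ 10 * ((Z : ℝ) + 1) ^ 2 * P * (8 * (Z : ℝ) ^ (2 * (3 * s + 3 + 1))) ^ 2 ≤ Lam ∧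
    400000 * ((Z : ℝ) + 1) * (N * Lam) ^ 7 * (8 * (Z : ℝ) ^ (2 * (3 * s + 3 + 1)) * N) < Lw ∧
    13000 * P * (8 * (Z : ℝ) ^ (2 * (3 * s + 3 + 1))) ^ 2 * N ≤ 2 ^ c ∧
    c < (s + 1) * (g + 1) ∧
    16 * (N : ℝ) * Lam * 2 ^ g * (Z : ℝ) ^ (2 * (3 * s + 3 + 1)) ≤ (N : ℝ) ^ (1 + ε) := by
  obtain ⟨k, hk⟩ : ∃ k : ℕ, k = 3 * s + 3 := ⟨_, rfl⟩
  rw [← hk] at h1 ⊢
  obtain ⟨M, hM⟩ : ∃ M : ℕ, M = 9 * k + 1 := ⟨_, rfl⟩
  obtain ⟨D, hD⟩ : ∃ D : ℕ, D = 2 * (k + 1) := ⟨_, rfl⟩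
  rw [← hM, ← hD] at h1
  rw [← hM, ← hD]
  obtain ⟨x, hx⟩ : ∃ x : ℝ, x = (N : ℝ) := ⟨_, rfl⟩
  obtain ⟨δ, hδ⟩ : ∃ δ : ℝ, δ = ε / 400 := ⟨_, rfl⟩
  rw [← hx, ← hδ] at h1 h2 h3
  have hx2 : 2 ≤ x := by
    rw [hx]
    exact_mod_cast hN
  have hx1 : 1 ≤ x := by linarith
  have hx0 : 0 < x := by linarith
  have hδ0 : 0 < δ := by
    rw [hδ]
    positivity
  obtain ⟨y, hy⟩ : ∃ y : ℝ, y = x ^ δ := ⟨_, rfl⟩
  rw [← hy] at h2 h3
  have hy1 : 1 ≤ y := by linarith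
  have hy0 : 0 < y := by linarith
  have hypow : ∀ m : ℕ, y ^ m = x ^ (δ * m) := by
    intro m
    rw [hy, ← Real.rpow_natCast, ← Real.rpow_mul hx0.le]
  -- the logarithm
  obtain ⟨Z, hZ⟩ : ∃ Z : ℕ, Z = M * (Nat.log 2 N + 1) := ⟨_, rfl⟩
  have hM1 : 1 ≤ M := by omega
  have hZ1 : 1 ≤ Z := by
    rw [hZ]
    exact Nat.mul_pos hM1 (Nat.succ_pos _)
  have hlog : ((Nat.log 2 N : ℕ) : ℝ) ≤ Real.logb 2 x := by
    rw [Real.le_logb_iff_rpow_le (by norm_num) hx0, Real.rpow_natCast, hx]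
    exact_mod_cast Nat.pow_log_le_self 2 (by omega)
  have hZτ : (Z : ℝ) + 1 ≤ x ^ (δ / ((D + 1 : ℕ) : ℝ)) := by
    refine le_trans ?_ h1
    rw [hZ]
    push_cast
    have : (M : ℝ) * ((Nat.log 2 N : ℕ) : ℝ) ≤ M * Real.logb 2 x :=
      mul_le_mul_of_nonneg_left hlog (by positivity)
    linarith
  have hD1 : (0 : ℝ) < ((D + 1 : ℕ) : ℝ) := by positivity
  have hZy : (Z : ℝ) + 1 ≤ y := by
    refine hZτ.trans ?_
    rw [hy]
    refine Real.rpow_le_rpow_of_exponent_le hx1 ?_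
    rw [div_le_iff₀ hD1]
    have : (1 : ℝ) ≤ ((D + 1 : ℕ) : ℝ) := by
      push_cast
      have : (0 : ℝ) ≤ D := by positivity
      linarith
    nlinarith
  have hZ0 : (0 : ℝ) ≤ Z := by positivity
  have hlam : (Z : ℝ) ^ D ≤ y := by
    have e1 : (Z : ℝ) ^ D ≤ (x ^ (δ / ((D + 1 : ℕ) : ℝ))) ^ D :=
      pow_le_pow_left₀ hZ0 (by linarith) D
    refine e1.trans ?_
    rw [hy, ← Real.rpow_natCast, ← Real.rpow_mul hx0.le]
    refine Real.rpow_le_rpow_of_exponent_le hx1 ?_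
    rw [div_mul_eq_mul_div, div_le_iff₀ hD1]
    push_cast
    nlinarith
  have hlam0 : (0 : ℝ) ≤ (Z : ℝ) ^ D := by positivity
  -- `P`
  obtain ⟨η, hη⟩ : ∃ η : ℝ, η = δ / (M : ℝ) := ⟨_, rfl⟩
  have hM0 : (0 : ℝ) < M := by exact_mod_cast hM1
  have hη0 : 0 < η := by
    rw [hη]
    positivity
  have hη1 : η ≤ 1 := by
    rw [hη, div_le_one hM0]
    have : (1 : ℝ) ≤ M := by exact_mod_cast hM1
    linarith
  obtain ⟨P, hP⟩ : ∃ P : ℝ, P = C * (2 * x ^ M) ^ η := ⟨_, rfl⟩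
  have hxM : 1 ≤ x ^ M := one_le_pow₀ hx1
  have hP1 : 1 ≤ P := by
    rw [hP]
    have : 1 ≤ (2 * x ^ M) ^ η := Real.one_le_rpow (by linarith) hη0.le
    nlinarith
  have hPy : P ≤ y ^ 2 := by
    have e1 : (2 * x ^ M) ^ η = 2 ^ η * y := by
      rw [Real.mul_rpow (by norm_num) (by positivity), hy, ← Real.rpow_natCast x M,
        ← Real.rpow_mul hx0.le, hη, mul_div_cancel₀ _ hM0.ne']
    have e2 : (2 : ℝ) ^ η ≤ 2 := by
      calc (2 : ℝ) ^ η ≤ 2 ^ (1 : ℝ) := Real.rpow_le_rpow_of_exponent_le (by norm_num) hη1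
        _ = 2 := Real.rpow_one 2
    rw [hP, e1]
    calc C * (2 ^ η * y) ≤ C * (2 * y) := by
          refine mul_le_mul_of_nonneg_left ?_ (by linarith)
          exact mul_le_mul_of_nonneg_right e2 hy0.le
      _ = (2 * C) * y := by ring
      _ ≤ y * y := mul_le_mul_of_nonneg_right h2 hy0.le
      _ = y ^ 2 := by ring
  have hP0 : 0 ≤ P := by linarith
  -- powers of `y` and `x`
  have hδε : δ * 400 = ε := by
    rw [hδ]
    ring
  have hy52 : y ^ 52 < x := by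
    rw [hypow]
    calc x ^ (δ * ((52 : ℕ) : ℝ)) < x ^ (1 : ℝ) := by
          refine Real.rpow_lt_rpow_of_exponent_lt (by linarith) ?_
          push_cast
          linarith
      _ = x := Real.rpow_one x
  have hy5 : y ^ 5 ≤ x := (pow_le_pow_right₀ hy1 (by norm_num)).trans hy52.le
  -- `Lam`
  obtain ⟨Lam, hLam⟩ : ∃ Lam : ℝ, Lam = 10 ^ 10 * ((Z : ℝ) + 1) ^ 2 * P * (8 * (Z : ℝ) ^ D) ^ 2 :=
    ⟨_, rfl⟩
  have hLam0 : 0 ≤ Lam := by
    rw [hLam]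
    positivity
  have hLamy : Lam ≤ y ^ 7 := by
    have e1 : ((Z : ℝ) + 1) ^ 2 ≤ y ^ 2 := pow_le_pow_left₀ (by linarith) hZy 2
    have e2 : ((Z : ℝ) ^ D) ^ 2 ≤ y ^ 2 := pow_le_pow_left₀ hlam0 hlam 2
    calc Lam = (64 * 10 ^ 10) * (((Z : ℝ) + 1) ^ 2 * (P * ((Z : ℝ) ^ D) ^ 2)) := by
          rw [hLam]
          ring
      _ ≤ y * (y ^ 2 * (y ^ 2 * y ^ 2)) := by gcongr
      _ = y ^ 7 := by ring
  -- `g`
  have hlogx : 1 ≤ Real.logb 2 x := by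
    rw [Real.le_logb_iff_rpow_le (by norm_num) hx0, Real.rpow_one]
    exact hx2
  obtain ⟨g, hg⟩ : ∃ g : ℕ, g = ⌊ε / 2 * Real.logb 2 x⌋₊ := ⟨_, rfl⟩
  have hg1 : ε / 2 * Real.logb 2 x < g + 1 := by
    rw [hg]
    exact Nat.lt_floor_add_one _
  have hg2 : (2 : ℝ) ^ g ≤ x ^ (ε / 2) := by
    have e1 : (g : ℝ) ≤ ε / 2 * Real.logb 2 x := by
      rw [hg]
      exact Nat.floor_le (by positivity)
    calc (2 : ℝ) ^ g = 2 ^ (g : ℝ) := (Real.rpow_natCast 2 g).symm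
      _ ≤ 2 ^ (ε / 2 * Real.logb 2 x) := Real.rpow_le_rpow_of_exponent_le (by norm_num) e1
      _ = 2 ^ (Real.logb 2 x * (ε / 2)) := by rw [mul_comm]
      _ = x ^ (ε / 2) := by
          rw [Real.rpow_mul (by norm_num), Real.rpow_logb (by norm_num) (by norm_num) hx0]
  -- `c`
  obtain ⟨v, hv⟩ : ∃ v : ℝ, v = 13000 * P * (8 * (Z : ℝ) ^ D) ^ 2 * x := ⟨_, rfl⟩
  have hZD1 : 1 ≤ (Z : ℝ) ^ D := one_le_pow₀ (by exact_mod_cast hZ1)
  have hv0 : 0 < v := by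
    rw [hv]
    have : 0 < P := by linarith
    have : 0 < (Z : ℝ) ^ D := by linarith
    positivity
  have hvx : v ≤ x ^ 2 := by
    have e2 : ((Z : ℝ) ^ D) ^ 2 ≤ y ^ 2 := pow_le_pow_left₀ hlam0 hlam 2
    have e3 : (832000 : ℝ) ≤ y := by linarith
    calc v = 832000 * (P * ((Z : ℝ) ^ D) ^ 2) * x := by
          rw [hv]
          ring
      _ ≤ y * (y ^ 2 * y ^ 2) * x := by gcongr
      _ = y ^ 5 * x := by ring
      _ ≤ x * x := mul_le_mul_of_nonneg_right hy5 hx0.le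
      _ = x ^ 2 := by ring
  obtain ⟨c, hc⟩ : ∃ c : ℕ, c = ⌈Real.logb 2 v⌉₊ := ⟨_, rfl⟩
  have hc1 : v ≤ 2 ^ c := by
    have e1 : Real.logb 2 v ≤ c := by
      rw [hc]
      exact Nat.le_ceil _
    rw [Real.logb_le_iff_le_rpow (by norm_num) hv0, Real.rpow_natCast] at e1
    exact e1
  have hc2 : (c : ℝ) < 2 * Real.logb 2 x + 1 := by
    have e1 : Real.logb 2 v ≤ 2 * Real.logb 2 x := by
      calc Real.logb 2 v ≤ Real.logb 2 (x ^ 2) := Real.logb_le_logb_of_le (by norm_num) hv0 hvx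
        _ = 2 * Real.logb 2 x := by
            rw [Real.logb_pow]
            norm_num
    rcases le_or_gt (Real.logb 2 v) 0 with e2 | e2
    · have : c = 0 := by
        rw [hc]
        exact Nat.ceil_eq_zero.mpr e2
      rw [this]
      push_cast
      linarith
    · have := Nat.ceil_lt_add_one e2.le
      rw [← hc] at this
      linarith
  have hf : c < (s + 1) * (g + 1) := by
    have e1 : (c : ℝ) < (s + 1) * (g + 1) := by
      have e2 : 8 / ε * (ε / 2 * Real.logb 2 x) ≤ (s + 1 : ℝ) * (g + 1) := by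
        refine mul_le_mul (by linarith) hg1.le (by positivity) (by positivity)
      have e3 : 8 / ε * (ε / 2 * Real.logb 2 x) = 4 * Real.logb 2 x := by
        field_simp
        ring
      rw [e3] at e2
      linarith
    exact_mod_cast e1
  refine ⟨Z, N ^ 9, g, c, P, Lam, hZ1, Nat.one_le_pow _ _ (by omega), hP1, ?_, ?_, ?_, ?_, ?_, ?_,
    hf, ?_⟩
  · have e1 : N * (N ^ 9) ^ k = N ^ M := by
      rw [hM, ← pow_mul, pow_succ]
      ring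
    rw [e1, hZ, mul_comm M, pow_mul]
    refine Nat.pow_lt_pow_left ?_ (by omega)
    exact Nat.lt_pow_succ_log_self (by norm_num) N
  · rw [← hx, hP]
    have e1 : 2 * x * ((N ^ 9 : ℕ) : ℝ) ^ k = 2 * x ^ M := by
      push_cast
      rw [← hx, hM, ← pow_mul, pow_succ]
      ring
    rw [e1, ← hδ, ← hη]
  · rw [← hx]
    refine hPy.trans ?_
    rw [hypow]
    refine Real.rpow_le_rpow_of_exponent_le hx1 ?_
    push_cast
    linarith
  · exact hLam.symm.le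
  · rw [← hx]
    push_cast
    rw [← hx]
    calc 400000 * ((Z : ℝ) + 1) * (x * Lam) ^ 7 * (8 * (Z : ℝ) ^ D * x)
        = 3200000 * (((Z : ℝ) + 1) * Lam ^ 7 * (Z : ℝ) ^ D) * x ^ 8 := by ring
      _ ≤ y * (y * (y ^ 7) ^ 7 * y) * x ^ 8 := by
          have e3 : (3200000 : ℝ) ≤ y := by linarith
          gcongr
      _ = y ^ 52 * x ^ 8 := by ring
      _ < x * x ^ 8 := by
          refine mul_lt_mul_of_pos_right hy52 (by positivity)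
      _ = x ^ 9 := by ring
  · rw [← hx, ← hv]
    exact hc1
  · rw [← hx]
    have e3 : (16 : ℝ) ≤ y := by linarith
    calc 16 * x * Lam * 2 ^ g * (Z : ℝ) ^ D ≤ y * x * y ^ 7 * x ^ (ε / 2) * y := by gcongr
      _ = y ^ 9 * x ^ (ε / 2) * x := by ring
      _ = x ^ (δ * ((9 : ℕ) : ℝ)) * x ^ (ε / 2) * x ^ (1 : ℝ) := by
          rw [hypow, Real.rpow_one]
      _ = x ^ (δ * ((9 : ℕ) : ℝ) + ε / 2 + 1) := by
          rw [← Real.rpow_add hx0, ← Real.rpow_add hx0]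
      _ ≤ x ^ (1 + ε) := by
          refine Real.rpow_le_rpow_of_exponent_le hx1 ?_
          push_cast
          linarith

end ParamQM

/-- PARAMETERS. -/
theorem paramQ : StmtParamQ := by
  intro ε hε hε1
  obtain ⟨s, hs⟩ := exists_nat_ge (8 / ε)
  have hM0 : (0 : ℝ) < ((9 * (3 * s + 3) + 1 : ℕ) : ℝ) := by positivity
  have hM1 : (1 : ℝ) ≤ ((9 * (3 * s + 3) + 1 : ℕ) : ℝ) := by
    have : 1 ≤ 9 * (3 * s + 3) + 1 := by omega
    exact_mod_cast this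
  refine ⟨s, ε / 400 / ((9 * (3 * s + 3) + 1 : ℕ) : ℝ), by positivity, ?_, ?_⟩
  · rw [div_le_one hM0]
    linarith
  · intro C hC
    have h1 := ParamQM.ev_log (((9 * (3 * s + 3) + 1 : ℕ) : ℝ))
      (ε / 400 / ((2 * (3 * s + 3 + 1) + 1 : ℕ) : ℝ)) (by positivity)
    have h2 := ParamQM.ev_const (2 * C) (ε / 400) (by positivity)
    have h3 := ParamQM.ev_const (64 * 10 ^ 10) (ε / 400) (by positivity)
    have h4 := tendsto_natCast_atTop_atTop.eventually (h1.and (h2.and h3))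
    obtain ⟨N₁, hN₁⟩ := Filter.eventually_atTop.mp h4
    refine ⟨max 2 N₁, (by norm_num : 1 ≤ 2).trans (le_max_left _ _), ?_⟩
    intro N hN
    obtain ⟨e1, e2, e3⟩ := hN₁ N ((le_max_right _ _).trans hN)
    exact ParamQM.main ε hε hε1 s hs C hC N ((le_max_left _ _).trans hN) e1 e2 e3

end

end Pool.Agent.GG38.Q
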