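import Pool.Agent.Lib.MP_38fd99_co.Q.Spec

/-!
# MP_38fd99_co, full Q1: a dense node in one window
-/

set_option autoImplicit false

namespace Pool.Agent.GG38.Q

open Finset Classical

namespace PickAux

variable {ι : Type}

/-- weighted averaging -/
theorem exists_avg {α : Type} (S : Finset α) (x y : α → ℝ) (c : ℝ) (hx : ∀ i ∈ S, 0 ≤ x i)
    (hy : ∀ i ∈ S, 0 ≤ y i) (hpos : 0 < ∑ i ∈ S, y i) (h : ∑ i ∈ S, x i ≤ c * ∑ i ∈ S, y i) :
    ∃ i ∈ S, 0 < y i ∧ x i ≤ c * y i := by
  by_contra hcon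
  push Not at hcon
  obtain ⟨i0, hi0, hi0'⟩ := Finset.exists_lt_of_sum_lt (s := S) (f := fun _ => (0 : ℝ)) (g := y)
    (by simpa using hpos)
  have h1 : c * ∑ i ∈ S, y i < ∑ i ∈ S, x i := by
    rw [Finset.mul_sum]
    apply Finset.sum_lt_sum
    · intro i hi
      rcases (hy i hi).lt_or_eq with h2 | h2
      · exact (hcon i hi h2).le
      · rw [← h2, mul_zero]
        exact hx i hi
    · exact ⟨i0, hi0, hcon i0 hi0 hi0'⟩
  linarith

theorem card_eq_sum_dB (F : Finset (ι × ι)) : F.card = ∑ b ∈ B F, dB F b := by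
  unfold dB B
  exact Finset.card_eq_sum_card_image Prod.snd F

/-- neighbours of `b` as ranks -/
theorem card_nbr (F : Finset (ι × ι)) (r : ι → ℕ) (hr : Set.InjOn r (A F)) (b : ι)
    (p : ℕ → Prop) [DecidablePred p] :
    (((F.filter (fun e => e.2 = b)).image (fun e => r e.1)).filter p).card =
      (F.filter (fun e => e.2 = b ∧ p (r e.1))).card := by
  rw [Finset.filter_image, Finset.filter_filter]
  apply Finset.card_image_of_injOn
  intro e he e' he' h
  rw [Finset.mem_coe, Finset.mem_filter] at he he'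
  have h1 := hr (Finset.mem_coe.2 (fst_mem_A he.1)) (Finset.mem_coe.2 (fst_mem_A he'.1)) h
  exact Prod.ext h1 (he.2.1.trans he'.2.1.symm)

end PickAux

open PickAux in
theorem pick (hnode : StmtNode) : StmtPick := by
  intro ι F r D QA QB rho hne hr hlt hQA hQB hReg
  have hFpos : (0 : ℝ) < F.card := by exact_mod_cast hne.card_pos
  have hrho : 0 ≤ rho := by
    unfold Reg at hReg
    by_contra hcon
    push Not at hcon
    have h1 : rho * F.card < 0 := mul_neg_of_neg_of_pos hcon hFpos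
    have h2 : (0 : ℝ) ≤ QA * (A F).card + QB * (B F).card := by positivity
    linarith
  have hch : ∀ b : ι, ∃ z : ℕ × ℕ, b ∈ B F → z.1 ≤ D ∧
      dB F b ≤ 3 * (F.filter (fun e => e.2 = b ∧ r e.1 / 2 ^ (D - z.1) = z.2)).card ∧
      (F.filter (fun e => e.2 = b ∧ r e.1 / 2 ^ (D - z.1) = z.2)).card ≤
          (D + 1) * (F.filter (fun e => e.2 = b ∧ r e.1 / 2 ^ (D - z.1) = z.2 ∧
            cut D z.1 z.2 ≤ r e.1)).card ∧
        (F.filter (fun e => e.2 = b ∧ r e.1 / 2 ^ (D - z.1) = z.2)).card ≤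
          (D + 1) * (F.filter (fun e => e.2 = b ∧ r e.1 / 2 ^ (D - z.1) = z.2 ∧
            r e.1 ≤ cut D z.1 z.2)).card := by
    intro b
    by_cases hb : b ∈ B F
    · obtain ⟨d, i, hd, h1, h2, h3⟩ := hnode D
        ((F.filter (fun e => e.2 = b)).image (fun e => r e.1)) (by
          obtain ⟨e, he, rfl⟩ := Finset.mem_image.1 hb
          exact ⟨r e.1, Finset.mem_image.2 ⟨e, Finset.mem_filter.2 ⟨he, rfl⟩, rfl⟩⟩) (by
          intro x hx
          obtain ⟨e, he, rfl⟩ := Finset.mem_image.1 hx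
          exact hlt _ (fst_mem_A (Finset.mem_filter.1 he).1))
      refine ⟨(d, i), fun _ => ⟨hd, ?_, ?_, ?_⟩⟩
      · have h4 := card_nbr F r hr b (fun _ => True)
        simp only [Finset.filter_true, and_true] at h4
        rw [h4, card_nbr F r hr b] at h1
        exact h1
      · rw [card_nbr F r hr b, card_nbr F r hr b] at h2
        exact h2
      · rw [card_nbr F r hr b, card_nbr F r hr b] at h3
        exact h3
    · exact ⟨(0, 0), fun h => absurd h hb⟩
  choose nd hnd using hch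
  let G : ℕ → ℕ → Finset (ι × ι) := fun d i => F.filter (fun e => nd e.2 = (d, i) ∧
    r e.1 / 2 ^ (D - d) = i)
  -- number of good edges
  let Gd : Finset (ι × ι) := F.filter (fun e => r e.1 / 2 ^ (D - (nd e.2).1) = (nd e.2).2)
  have hgood : F.card ≤ 3 * Gd.card := by
    rw [card_eq_sum_dB F]
    have h1 : Gd.card = ∑ b ∈ B F, (F.filter (fun e => e.2 = b ∧
        r e.1 / 2 ^ (D - (nd b).1) = (nd b).2)).card := by
      rw [Finset.card_eq_sum_card_fiberwise (f := Prod.snd) (t := B F) (s := Gd) (by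
        intro e he
        exact Finset.mem_coe.2 (snd_mem_B (Finset.mem_filter.1 (Finset.mem_coe.1 he)).1))]
      apply Finset.sum_congr rfl
      intro b _
      congr 1
      ext e
      simp only [Gd, Finset.mem_filter]
      constructor
      · rintro ⟨⟨h1, h2⟩, rfl⟩
        exact ⟨h1, rfl, h2⟩
      · rintro ⟨h1, rfl, h2⟩
        exact ⟨⟨h1, h2⟩, rfl⟩
    rw [h1, Finset.mul_sum]
    exact Finset.sum_le_sum (fun b hb => (hnd b hb).2.1)
  -- the level
  have hlev : ∃ d ≤ D, Gd.card ≤ (D + 1) * (Gd.filter (fun e => (nd e.2).1 = d)).card := by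
    have h1 : Gd.card = ∑ d ∈ range (D + 1), (Gd.filter (fun e => (nd e.2).1 = d)).card :=
      Finset.card_eq_sum_card_fiberwise (by
        intro e he
        simpa using Nat.lt_succ_of_le
          (hnd e.2 (snd_mem_B (Finset.mem_filter.1 (Finset.mem_coe.1 he)).1)).1)
    obtain ⟨d, hd, hmax⟩ := (range (D + 1)).exists_max_image
      (fun d => (Gd.filter (fun e => (nd e.2).1 = d)).card) ⟨0, by simp⟩
    refine ⟨d, by simpa using Nat.lt_succ_iff.1 (Finset.mem_range.1 hd), ?_⟩
    rw [h1]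
    calc _ ≤ ∑ _ ∈ range (D + 1), (Gd.filter (fun e => (nd e.2).1 = d)).card :=
          Finset.sum_le_sum (fun x hx => hmax x hx)
      _ = _ := by simp
  obtain ⟨d, hd, hdc⟩ := hlev
  let J : Finset ℕ := (B F).image (fun b => (nd b).2)
  have hsumG : (Gd.filter (fun e => (nd e.2).1 = d)).card = ∑ i ∈ J, (G d i).card := by
    rw [Finset.card_eq_sum_card_fiberwise (f := fun e : ι × ι => (nd e.2).2) (t := J)
      (by
        intro e he
        have h1 := (Finset.mem_filter.1 (Finset.mem_filter.1 (Finset.mem_coe.1 he)).1).1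
        exact Finset.mem_coe.2 (Finset.mem_image.2 ⟨e.2, snd_mem_B h1, rfl⟩))]
    apply Finset.sum_congr rfl
    intro i _
    congr 1
    ext e
    simp only [G, Gd, Finset.mem_filter]
    constructor
    · rintro ⟨⟨⟨h1, h2⟩, h3⟩, h4⟩
      rw [h3, h4] at h2
      exact ⟨h1, Prod.ext h3 h4, h2⟩
    · rintro ⟨h1, h2, h3⟩
      rw [h2]
      exact ⟨⟨⟨h1, h3⟩, rfl⟩, rfl⟩
  have hA : ∑ i ∈ J, (A (G d i)).card ≤ (A F).card := by
    rw [← Finset.card_biUnion]
    · apply Finset.card_le_card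
      intro a ha
      obtain ⟨i, _, hi⟩ := Finset.mem_biUnion.1 ha
      exact A_mono (Finset.filter_subset _ _) hi
    · intro i _ i' _ hii
      rw [Function.onFun, Finset.disjoint_left]
      intro a ha ha'
      obtain ⟨e, he, rfl⟩ := Finset.mem_image.1 ha
      obtain ⟨e', he', h'⟩ := Finset.mem_image.1 ha'
      have h1 := (Finset.mem_filter.1 he).2.2
      have h2 := (Finset.mem_filter.1 he').2.2
      rw [h'] at h2
      exact hii (h1.symm.trans h2)
  have hB : ∑ i ∈ J, (B (G d i)).card ≤ (B F).card := by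
    rw [← Finset.card_biUnion]
    · apply Finset.card_le_card
      intro a ha
      obtain ⟨i, _, hi⟩ := Finset.mem_biUnion.1 ha
      exact B_mono (Finset.filter_subset _ _) hi
    · intro i _ i' _ hii
      rw [Function.onFun, Finset.disjoint_left]
      intro a ha ha'
      obtain ⟨e, he, rfl⟩ := Finset.mem_image.1 ha
      obtain ⟨e', he', h'⟩ := Finset.mem_image.1 ha'
      have h1 := (Finset.mem_filter.1 he).2.1
      have h2 := (Finset.mem_filter.1 he').2.1
      rw [h', h1] at h2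
      exact hii (Prod.ext_iff.1 h2).2
  have hF : (F.card : ℝ) ≤ 3 * (D + 1) * ∑ i ∈ J, ((G d i).card : ℝ) := by
    have h1 : F.card ≤ 3 * ((D + 1) * ∑ i ∈ J, (G d i).card) := by
      rw [← hsumG]
      exact hgood.trans (Nat.mul_le_mul_left 3 hdc)
    have h2 : (F.card : ℝ) ≤ ((3 * ((D + 1) * ∑ i ∈ J, (G d i).card) : ℕ) : ℝ) := by
      exact_mod_cast h1
    push_cast at h2
    linarith
  obtain ⟨i, hi, hi1, hi2⟩ := exists_avg (J)
    (fun i => QA * (A (G d i)).card + QB * (B (G d i)).card) (fun i => ((G d i).card : ℝ))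
    (3 * (D + 1) * rho) (fun i _ => by positivity) (fun i _ => by positivity)
    (by
      by_contra hcon
      push Not at hcon
      have : 3 * ((D : ℝ) + 1) * ∑ i ∈ J, ((G d i).card : ℝ) ≤ 0 :=
        mul_nonpos_of_nonneg_of_nonpos (by positivity) hcon
      linarith)
    (by
      have hA' : (∑ i ∈ J, ((A (G d i)).card : ℝ)) ≤ (A F).card := by exact_mod_cast hA
      have hB' : (∑ i ∈ J, ((B (G d i)).card : ℝ)) ≤ (B F).card := by exact_mod_cast hB
      rw [Finset.sum_add_distrib, ← Finset.mul_sum, ← Finset.mul_sum]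
      calc _ ≤ QA * (A F).card + QB * (B F).card :=
            add_le_add (mul_le_mul_of_nonneg_left hA' hQA) (mul_le_mul_of_nonneg_left hB' hQB)
        _ ≤ rho * F.card := hReg
        _ ≤ rho * (3 * (D + 1) * ∑ i ∈ J, ((G d i).card : ℝ)) :=
            mul_le_mul_of_nonneg_left hF hrho
        _ = _ := by ring)
  refine ⟨d, i, G d i, hd, Finset.filter_subset _ _, ?_, ?_, hi2, ?_, ?_⟩
  · rw [← Finset.card_pos]
    exact_mod_cast hi1
  · intro e he
    exact (Finset.mem_filter.1 he).2.2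
  all_goals
    intro b hb
    obtain ⟨e, he, rfl⟩ := Finset.mem_image.1 hb
    have h1 := (Finset.mem_filter.1 he).2.1
    obtain ⟨_, _, h2, h3⟩ := hnd e.2 (snd_mem_B (Finset.mem_filter.1 he).1)
    rw [h1] at h2 h3
    have e1 : dB (G d i) e.2 = (F.filter (fun f => f.2 = e.2 ∧ r f.1 / 2 ^ (D - d) = i)).card := by
      unfold dB
      congr 1
      ext f
      simp only [G, Finset.mem_filter]
      constructor
      · rintro ⟨⟨h1, h2, h3⟩, h4⟩
        exact ⟨h1, h4, h3⟩
      · rintro ⟨h1', h2', h3'⟩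
        refine ⟨⟨h1', ?_, h3'⟩, h2'⟩
        rw [h2']; exact h1
    have e2 : ∀ (p : ℕ → Prop) [DecidablePred p], ((G d i).filter (fun f => f.2 = e.2 ∧ p (r f.1))).card =
        (F.filter (fun f => f.2 = e.2 ∧ r f.1 / 2 ^ (D - d) = i ∧ p (r f.1))).card := by
      intro p _
      congr 1
      ext f
      simp only [G, Finset.mem_filter]
      constructor
      · rintro ⟨⟨h1, h2, h3⟩, h4, h5⟩
        exact ⟨h1, h4, h3, h5⟩
      · rintro ⟨h1', h2', h3', h4'⟩
        refine ⟨⟨h1', ?_, h3'⟩, h2', h4'⟩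
        rw [h2']; exact h1
  · rw [e1, e2 (fun x => cut D d i ≤ x)]
    exact h2
  · rw [e1, e2 (fun x => x ≤ cut D d i)]
    exact h3

end Pool.Agent.GG38.Q
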