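import Pool.Agent.Lib.MP_38fd99_co.Q.Spec

/-! # MP_38fd99_co, full Q1: regularisation (pigeonhole over all scales) -/

set_option autoImplicit false

namespace Pool.Agent.GG38.Q

open Finset Classical

noncomputable section

namespace RegulM

/-- the largest fibre -/
lemma pigeon {α β : Type} (E : Finset α) (hE : E.Nonempty) (v : α → β) (T : Finset β)
    (hv : ∀ e ∈ E, v e ∈ T) :
    ∃ (E' : Finset α) (y : β), E' ⊆ E ∧ E'.Nonempty ∧ E.card ≤ T.card * E'.card ∧
      ∀ e ∈ E', v e = y := by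
  have hT : T.Nonempty := by
    obtain ⟨e, he⟩ := hE
    exact ⟨v e, hv e he⟩
  obtain ⟨y, -, hy⟩ := Finset.exists_max_image T (fun y => (E.filter (fun e => v e = y)).card) hT
  have h1 : E.card ≤ T.card * (E.filter (fun e => v e = y)).card := by
    rw [Finset.card_eq_sum_card_fiberwise (f := v) (t := T) hv]
    calc _ ≤ ∑ _x ∈ T, (E.filter (fun e => v e = y)).card := Finset.sum_le_sum hy
      _ = _ := by rw [Finset.sum_const, smul_eq_mul]
  refine ⟨E.filter (fun e => v e = y), y, Finset.filter_subset _ _, ?_, h1,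
    fun e he => (Finset.mem_filter.1 he).2⟩
  rw [← Finset.card_pos]
  by_contra h0
  have : (E.filter (fun e => v e = y)).card = 0 := by omega
  rw [this, Nat.mul_zero] at h1
  have := hE.card_pos
  omega

variable {ι : Type}

/-- the degree of `e` with respect to the fibres of `p` -/
def dg {κ : Type} (E : Finset (ι × ι)) (p : ι × ι → κ) (e : ι × ι) : ℕ :=
  (E.filter (fun f => p f = p e)).card

lemma dg_pos {κ : Type} {E : Finset (ι × ι)} {p : ι × ι → κ} {e : ι × ι} (he : e ∈ E) :
    0 < dg E p e := Finset.card_pos.2 ⟨e, by simp [he]⟩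

lemma log_dg_lt {κ : Type} {E : Finset (ι × ι)} {p : ι × ι → κ} {e : ι × ι} {Z : ℕ}
    (he : e ∈ E) (W : Finset (ι × ι)) (hW : W.card < 2 ^ Z) (h : ∀ f ∈ E, p f = p e → f ∈ W) :
    Nat.log 2 (dg E p e) < Z := by
  apply Nat.log_lt_of_lt_pow (dg_pos he).ne'
  refine lt_of_le_of_lt (Finset.card_le_card ?_) hW
  intro f hf
  rw [Finset.mem_filter] at hf
  exact h f hf.1 hf.2

/-- the fibres of the regular part are small -/
lemma small {κ : Type} {E E' : Finset (ι × ι)} {p : ι × ι → κ} {q : ℕ} (hs : E' ⊆ E)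
    (hq : ∀ e ∈ E', Nat.log 2 (dg E p e) = q) (k : κ) :
    (E'.filter (fun e => p e = k)).card ≤ 2 * 2 ^ q := by
  rcases (E'.filter (fun e => p e = k)).eq_empty_or_nonempty with h | ⟨e, he⟩
  · rw [h]; simp
  · rw [Finset.mem_filter] at he
    have h1 : (E'.filter (fun e => p e = k)).card ≤ dg E p e := by
      apply Finset.card_le_card
      intro f hf
      rw [Finset.mem_filter] at hf ⊢
      exact ⟨hs hf.1, by rw [hf.2, he.2]⟩
    have h2 : dg E p e < 2 ^ (q + 1) := by
      have := Nat.lt_pow_succ_log_self (b := 2) (by norm_num) (dg E p e)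
      rwa [hq e he.1] at this
    rw [pow_succ] at h2
    omega

/-- there are few fibres -/
lemma few {κ : Type} {E E' : Finset (ι × ι)} {p : ι × ι → κ} {q : ℕ} (hs : E' ⊆ E)
    (hq : ∀ e ∈ E', Nat.log 2 (dg E p e) = q) :
    2 ^ q * (E'.image p).card ≤ E.card := by
  have h1 : 2 ^ q * (E'.image p).card ≤ (E.filter (fun e => p e ∈ E'.image p)).card := by
    apply Finset.mul_card_image_le_card_of_maps_to (f := p)
    · intro e he
      exact (Finset.mem_filter.1 he).2
    · intro k hk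
      obtain ⟨e, he, rfl⟩ := Finset.mem_image.1 hk
      have h2 : 2 ^ q ≤ dg E p e := by
        rw [← hq e he]
        exact Nat.pow_log_le_self 2 (dg_pos (hs he)).ne'
      refine h2.trans (Finset.card_le_card ?_)
      intro f hf
      rw [Finset.mem_filter] at hf
      rw [Finset.mem_filter, Finset.mem_filter]
      exact ⟨⟨hf.1, by rw [hf.2]; exact hk⟩, hf.2⟩
  exact h1.trans (Finset.card_le_card (Finset.filter_subset _ _))

/-- comparison of two fibrations -/
lemma mono {κ κ' : Type} {E : Finset (ι × ι)} {p : ι × ι → κ} {p' : ι × ι → κ'} {e : ι × ι}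
    (h : ∀ f, p f = p e → p' f = p' e) : Nat.log 2 (dg E p e) ≤ Nat.log 2 (dg E p' e) := by
  apply Nat.log_mono_right
  apply Finset.card_le_card
  intro f hf
  rw [Finset.mem_filter] at hf ⊢
  exact ⟨hf.1, h f hf.2⟩

end RegulM

open RegulM

theorem regul : StmtRegul := by
  intro ι E idx I Z Lw hE hL hZ hw
  set pA : ℕ → ι × ι → ι × ℕ := fun i e => (e.1, idx e / Lw ^ i) with hpA
  set pB : ℕ → ι × ι → ι × ℕ := fun i e => (e.2, idx e / Lw ^ i) with hpB
  set v : ι × ι → (Fin (I + 1) → ℕ × ℕ) := fun e i =>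
    (Nat.log 2 (dg E (pA i) e), Nat.log 2 (dg E (pB i) e)) with hv
  set T : Finset (Fin (I + 1) → ℕ × ℕ) :=
    Fintype.piFinset (fun _ => Finset.range Z ×ˢ Finset.range Z) with hT
  have hvT : ∀ e ∈ E, v e ∈ T := by
    intro e he
    rw [hT, Fintype.mem_piFinset]
    intro i
    have hi : (i : ℕ) ≤ I := Nat.lt_succ_iff.1 i.2
    rw [Finset.mem_product, Finset.mem_range, Finset.mem_range]
    refine ⟨log_dg_lt he _ (hw i hi (idx e / Lw ^ (i : ℕ))) ?_,
      log_dg_lt he _ (hw i hi (idx e / Lw ^ (i : ℕ))) ?_⟩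
    · intro f hf hfe
      exact Finset.mem_filter.2 ⟨hf, (Prod.ext_iff.1 hfe).2⟩
    · intro f hf hfe
      exact Finset.mem_filter.2 ⟨hf, (Prod.ext_iff.1 hfe).2⟩
  have hTc : T.card = Z ^ (2 * (I + 1)) := by
    rw [hT, Fintype.card_piFinset_const, Finset.card_product, Finset.card_range, ← pow_two,
      ← pow_mul]
  obtain ⟨E', y, hs, hne, hcard, hv'⟩ := pigeon E hE v T hvT
  rw [hTc] at hcard
  have hqA : ∀ i ≤ I, ∀ e ∈ E', Nat.log 2 (dg E (pA i) e) = (y (Fin.ofNat (I + 1) i)).1 := by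
    intro i hi e he
    have h1 : v e = y := hv' e he
    have h2 : ((Fin.ofNat (I + 1) i : Fin (I + 1)) : ℕ) = i := by
      simp [Fin.ofNat, Nat.mod_eq_of_lt (Nat.lt_succ_of_le hi)]
    rw [← h1, hv]
    simp only [h2]
  have hqB : ∀ i ≤ I, ∀ e ∈ E', Nat.log 2 (dg E (pB i) e) = (y (Fin.ofNat (I + 1) i)).2 := by
    intro i hi e he
    have h1 : v e = y := hv' e he
    have h2 : ((Fin.ofNat (I + 1) i : Fin (I + 1)) : ℕ) = i := by
      simp [Fin.ofNat, Nat.mod_eq_of_lt (Nat.lt_succ_of_le hi)]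
    rw [← h1, hv]
    simp only [h2]
  refine ⟨E', fun i => (y (Fin.ofNat (I + 1) i)).1, fun i => (y (Fin.ofNat (I + 1) i)).2, hs, hne,
    hcard, ?_, ?_, ?_, ?_, ?_⟩
  · intro i hi a w
    refine le_trans (Finset.card_le_card ?_) (small hs (hqA i hi) (a, w))
    intro e he
    simp only [Finset.mem_filter] at he ⊢
    exact ⟨he.1, Prod.ext he.2.1 he.2.2⟩
  · intro i hi b w
    refine le_trans (Finset.card_le_card ?_) (small hs (hqB i hi) (b, w))
    intro e he
    simp only [Finset.mem_filter] at he ⊢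
    exact ⟨he.1, Prod.ext he.2.1 he.2.2⟩
  · intro i hi
    have := few hs (hqA i hi)
    simp only [hpA] at this
    convert this using 3
    ext x
    simp only [Finset.mem_image]
  · intro i hi
    have := few hs (hqB i hi)
    simp only [hpB] at this
    convert this using 3
    ext x
    simp only [Finset.mem_image]
  · intro i hi
    obtain ⟨e, he⟩ := hne
    have hdiv : ∀ f : ι × ι, idx f / Lw ^ (i + 1) = idx f / Lw ^ i / Lw := by
      intro f
      rw [pow_succ, Nat.div_div_eq_div_mul]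
    constructor
    · show (y (Fin.ofNat (I + 1) i)).1 ≤ (y (Fin.ofNat (I + 1) (i + 1))).1
      rw [← hqA i hi.le e he, ← hqA (i + 1) hi e he]
      apply mono
      intro f hf
      obtain ⟨h1, h2⟩ := Prod.ext_iff.1 hf
      refine Prod.ext h1 ?_
      show idx f / Lw ^ (i + 1) = idx e / Lw ^ (i + 1)
      rw [hdiv, hdiv]
      have h3 : idx f / Lw ^ i = idx e / Lw ^ i := h2
      rw [h3]
    · show (y (Fin.ofNat (I + 1) i)).2 ≤ (y (Fin.ofNat (I + 1) (i + 1))).2
      rw [← hqB i hi.le e he, ← hqB (i + 1) hi e he]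
      apply mono
      intro f hf
      obtain ⟨h1, h2⟩ := Prod.ext_iff.1 hf
      refine Prod.ext h1 ?_
      show idx f / Lw ^ (i + 1) = idx e / Lw ^ (i + 1)
      rw [hdiv, hdiv]
      have h3 : idx f / Lw ^ i = idx e / Lw ^ i := h2
      rw [h3]

end

end Pool.Agent.GG38.Q
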