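import Pool.Agent.Lib.MP_38fd99_co.Q.Spec

/-!
# MP_38fd99_co, Q1: counting the scales (`StmtScales`)
-/

namespace Pool.Agent.GG38.Q

namespace ScalesM

theorem big (q : ℕ → ℕ) (g : ℕ) : ∀ n : ℕ, (∀ i < n, q i ≤ q (i + 1)) →
    ((Finset.range n).filter (fun i => q i + g < q (i + 1))).card * (g + 1) ≤ q n := by
  intro n
  induction n with
  | zero => intro _; simp
  | succ n ih =>
    intro h
    have h1 := ih (fun i hi => h i (by omega))
    have h2 := h n (by omega)
    rw [Finset.range_add_one, Finset.filter_insert]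
    split_ifs with h3
    · rw [Finset.card_insert_of_notMem (by simp)]
      have : (((Finset.range n).filter (fun i => q i + g < q (i + 1))).card + 1) * (g + 1) =
          ((Finset.range n).filter (fun i => q i + g < q (i + 1))).card * (g + 1) + (g + 1) := by
        ring
      omega
    · omega

theorem few (q : ℕ → ℕ) (g c s n : ℕ) (hm : ∀ i < n, q i ≤ q (i + 1)) (hc : q n ≤ c)
    (hs : c < (s + 1) * (g + 1)) :
    ((Finset.range n).filter (fun i => q i + g < q (i + 1))).card ≤ s := by
  have h1 := big q g n hm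
  by_contra hcon
  push Not at hcon
  have h2 : (s + 1) * (g + 1) ≤
      ((Finset.range n).filter (fun i => q i + g < q (i + 1))).card * (g + 1) :=
    Nat.mul_le_mul_right _ hcon
  omega

theorem half (qA qB : ℕ → ℕ) (I g c s : ℕ) (hmA : ∀ i < I, qA i ≤ qA (i + 1))
    (hmB : ∀ i < I, qB i ≤ qB (i + 1)) (hA : ∀ i < I, qA (i + 1) ≤ qA i + g → qB i ≤ c)
    (hF : ∀ i < I, qA (i + 1) ≤ qA i + g → qB (i + 1) ≤ qB i + g → False)
    (hs : c < (s + 1) * (g + 1)) (hI : 3 * s + 3 ≤ I) (hlast : qA (I - 1) ≤ c) : False := by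
  have h1 := few qA g c s (I - 1) (fun i hi => hmA i (by omega)) hlast hs
  -- a flat step of `qA` among the last `s + 1` steps
  obtain ⟨i₀, hi1, hi2, hi3⟩ : ∃ i₀, I - 2 - s ≤ i₀ ∧ i₀ < I - 1 ∧ qA (i₀ + 1) ≤ qA i₀ + g := by
    by_contra hcon
    push Not at hcon
    have h2 : Finset.Ico (I - 2 - s) (I - 1) ⊆
        (Finset.range (I - 1)).filter (fun i => qA i + g < qA (i + 1)) := by
      intro i hi
      rw [Finset.mem_Ico] at hi
      rw [Finset.mem_filter, Finset.mem_range]
      exact ⟨hi.2, hcon i hi.1 hi.2⟩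
    have h3 := Finset.card_le_card h2
    rw [Nat.card_Ico] at h3
    omega
  have h4 := hA i₀ (by omega) hi3
  have h5 := few qB g c s i₀ (fun i hi => hmB i (by omega)) h4 hs
  have h6 : Finset.range i₀ ⊆ (Finset.range (I - 1)).filter (fun i => qA i + g < qA (i + 1)) ∪
      (Finset.range i₀).filter (fun i => qB i + g < qB (i + 1)) := by
    intro i hi
    rw [Finset.mem_range] at hi
    rw [Finset.mem_union, Finset.mem_filter, Finset.mem_filter, Finset.mem_range, Finset.mem_range]
    by_cases h7 : qA i + g < qA (i + 1)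
    · exact Or.inl ⟨by omega, h7⟩
    · right
      refine ⟨hi, ?_⟩
      by_contra h8
      exact hF i (by omega) (by omega) (by omega)
  have h7 := (Finset.card_le_card h6).trans (Finset.card_union_le _ _)
  rw [Finset.card_range] at h7
  omega

end ScalesM

theorem scales : StmtScales := by
  intro qA qB I g c s hm hmin hB hA hF hs
  by_contra hcon
  push Not at hcon
  have h1 := hmin (I - 1) (by omega)
  rcases min_le_iff.1 h1 with h2 | h2
  · exact ScalesM.half qA qB I g c s (fun i hi => (hm i hi).1) (fun i hi => (hm i hi).2) hA hF hs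
      (by omega) h2
  · exact ScalesM.half qB qA I g c s (fun i hi => (hm i hi).2) (fun i hi => (hm i hi).1) hB
      (fun i hi h h' => hF i hi h' h) hs (by omega) h2

end Pool.Agent.GG38.Q
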