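import Pool.Agent.Lib.MP_38fd99_co.Q.Spec

/-!
# MP_38fd99_co, full Q1: the separated case (module SepQ)
-/

set_option autoImplicit false

namespace Pool.Agent.GG38.Q

open Finset Classical

namespace SepQM

/-- the number of edges in a window of `M` time steps -/
theorem window_card {ι : Type} {E : Finset (ι × ι)} {idx : ι × ι → ℕ} {N : ℕ}
    (hfew : ∀ j, (E.filter (fun e => idx e = j)).card ≤ N) (M w : ℕ) (hM : 1 ≤ M) :
    (E.filter (fun e => idx e / M = w)).card ≤ N * M := by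
  have h1 : E.filter (fun e => idx e / M = w) ⊆
      (Finset.Ico (w * M) ((w + 1) * M)).biUnion (fun j => E.filter (fun e => idx e = j)) := by
    intro e he
    rw [Finset.mem_filter] at he
    rw [Finset.mem_biUnion]
    refine ⟨idx e, ?_, ?_⟩
    · rw [Finset.mem_Ico]
      have h1 := Nat.div_add_mod (idx e) M
      have h2 := Nat.mod_lt (idx e) hM
      have h3 := Nat.zero_le (idx e % M)
      rw [he.2] at h1
      constructor <;> nlinarith
    · rw [Finset.mem_filter]
      exact ⟨he.1, rfl⟩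
  refine (Finset.card_le_card h1).trans (Finset.card_biUnion_le.trans ?_)
  refine (Finset.sum_le_sum fun j _ => hfew j).trans ?_
  rw [Finset.sum_const, Nat.card_Ico, smul_eq_mul]
  have : (w + 1) * M - w * M = M := by
    rw [add_mul, one_mul]; omega
  rw [this, mul_comm]

/-- the density of the small subsets, from the bound in terms of the number of lines -/
theorem dens_of {C η P K : ℝ} (hC : 1 ≤ C) (hη : 0 < η)
    (hS : ∀ (ι : Type) (L : Lines ι) (E : Finset (ι × ι)), Inst L E →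
      (E.card : ℝ) ≤ C * ((A E ∪ B E).card : ℝ) ^ (1 + η) * L.nu E)
    (hK : C * (2 * K) ^ η ≤ P) {ι : Type} {L : Lines ι} {E : Finset (ι × ι)} (hI : Inst L E)
    {F : Finset (ι × ι)} (hF : F ⊆ E) (hFc : (F.card : ℝ) ≤ K) :
    (F.card : ℝ) ≤ P * ((A F).card + (B F).card) * L.nu F := by
  have h1 := hS ι L F (hI.mono hF)
  have hA : ((A F).card : ℝ) ≤ F.card := by exact_mod_cast Finset.card_image_le
  have hB : ((B F).card : ℝ) ≤ F.card := by exact_mod_cast Finset.card_image_le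
  have hx : ((A F ∪ B F).card : ℝ) ≤ (A F).card + (B F).card := by
    exact_mod_cast Finset.card_union_le _ _
  have hx0 : (0 : ℝ) ≤ ((A F ∪ B F).card : ℝ) := Nat.cast_nonneg _
  have hnu : (0 : ℝ) ≤ (L.nu F : ℝ) := Nat.cast_nonneg _
  have hxK : ((A F ∪ B F).card : ℝ) ≤ 2 * K := by linarith
  have e1 : ((A F ∪ B F).card : ℝ) ^ (1 + η) =
      ((A F ∪ B F).card : ℝ) * ((A F ∪ B F).card : ℝ) ^ η :=
    Real.rpow_one_add' hx0 (by linarith)
  have e2 : ((A F ∪ B F).card : ℝ) ^ η ≤ (2 * K) ^ η := Real.rpow_le_rpow hx0 hxK hη.le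
  have e3 : (0 : ℝ) ≤ ((A F ∪ B F).card : ℝ) ^ η := Real.rpow_nonneg hx0 _
  have hy0 : (0 : ℝ) ≤ ((A F).card : ℝ) + (B F).card := by positivity
  calc (F.card : ℝ) ≤ C * ((A F ∪ B F).card : ℝ) ^ (1 + η) * L.nu F := h1
    _ = C * (((A F ∪ B F).card : ℝ) * ((A F ∪ B F).card : ℝ) ^ η) * L.nu F := by rw [e1]
    _ ≤ C * ((((A F).card : ℝ) + (B F).card) * (2 * K) ^ η) * L.nu F := by
        apply mul_le_mul_of_nonneg_right _ hnu
        apply mul_le_mul_of_nonneg_left _ (by linarith)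
        exact mul_le_mul hx e2 e3 hy0
    _ = (C * (2 * K) ^ η) * (((A F).card : ℝ) + (B F).card) * L.nu F := by ring
    _ ≤ P * (((A F).card : ℝ) + (B F).card) * L.nu F := by
        apply mul_le_mul_of_nonneg_right _ hnu
        exact mul_le_mul_of_nonneg_right hK hy0

end SepQM

theorem sepQ (h1 : Pool.Agent.GG38.StmtSep) (h2 : StmtClock) (h3 : StmtRegul)
    (h4 : StmtParamQ) (h5 : StmtNoTop) : StmtSepQ := by
  intro ε hε hε1
  obtain ⟨s, η, hη, hη1, hpar⟩ := h4 ε hε hε1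
  obtain ⟨C, hC, hS⟩ := h1 η hη hη1
  obtain ⟨N₀, hN₀, hpar⟩ := hpar C hC
  refine ⟨N₀, hN₀, fun N hN ι L E hI hnu => ?_⟩
  obtain ⟨Z, Lw, g, c, P, Lam, hZ, hLw, hP, hZN, hCP, hPN, hLam, hLwb, hc, hcg, hmany⟩ :=
    hpar N hN
  by_contra hcon
  push Not at hcon
  have hN1 : 1 ≤ N := hN₀.trans hN
  have hN1' : (1 : ℝ) ≤ N := by exact_mod_cast hN1
  have hnu' : (L.nu E : ℝ) ≤ N := by exact_mod_cast hnu
  have hAB0 : (0 : ℝ) ≤ ((A E).card : ℝ) + (B E).card := by positivity
  have hpow0 : (0 : ℝ) ≤ (N : ℝ) ^ (1 + ε) := Real.rpow_nonneg (by linarith) _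
  have hEpos : (0 : ℝ) < E.card := lt_of_le_of_lt (mul_nonneg hpow0 hAB0) hcon
  have hEne : E.Nonempty := by
    rw [← Finset.card_pos]
    exact_mod_cast hEpos
  -- density
  have hK : C * (2 * ((N * Lw ^ (3 * s + 3) : ℕ) : ℝ)) ^ η ≤ P := by
    have : 2 * ((N * Lw ^ (3 * s + 3) : ℕ) : ℝ) = 2 * (N : ℝ) * (Lw : ℝ) ^ (3 * s + 3) := by
      push_cast; ring
    rw [this]
    exact hCP
  have hdens : ∀ F ⊆ E, F.card ≤ N * Lw ^ (3 * s + 3) →
      (F.card : ℝ) ≤ P * ((A F).card + (B F).card) * L.nu F := by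
    intro F hF hFc
    exact SepQM.dens_of hC hη hS hK hI hF (by exact_mod_cast hFc)
  -- the instance is large
  have hbig : Lw ^ (3 * s + 3) ≤ E.card := by
    by_contra hlt
    push Not at hlt
    have e1 : E.card ≤ N * Lw ^ (3 * s + 3) := by
      calc E.card ≤ 1 * Lw ^ (3 * s + 3) := by rw [one_mul]; exact hlt.le
        _ ≤ N * Lw ^ (3 * s + 3) := Nat.mul_le_mul_right _ hN1
    have e2 := hdens E (Finset.Subset.refl _) e1
    have e3 : (N : ℝ) ^ (1 + ε) = N * (N : ℝ) ^ ε := Real.rpow_one_add' (by linarith) (by linarith)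
    have e4 : P * (((A E).card : ℝ) + (B E).card) * L.nu E ≤
        (N : ℝ) ^ ε * (((A E).card : ℝ) + (B E).card) * N := by
      apply mul_le_mul (mul_le_mul_of_nonneg_right hPN hAB0) hnu' (Nat.cast_nonneg _)
      exact mul_nonneg (Real.rpow_nonneg (by linarith) _) hAB0
    rw [e3] at hcon
    nlinarith
  -- clock
  obtain ⟨θ, idx, q, hclk⟩ := h2 ι L E hI
  have hclk' : Clock L E N θ idx q :=
    { mono := hclk.mono, gen := hclk.gen, lt := hclk.lt, le := hclk.le, le' := hclk.le'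
      ne := hclk.ne, few := fun j => (hclk.few j).trans hnu }
  have hLwpow : ∀ i ≤ 3 * s + 3, Lw ^ i ≤ Lw ^ (3 * s + 3) := fun i hi =>
    Nat.pow_le_pow_right hLw hi
  have hwin : ∀ i ≤ 3 * s + 3, ∀ w, (E.filter (fun e => idx e / Lw ^ i = w)).card ≤
      N * Lw ^ (3 * s + 3) := by
    intro i hi w
    exact (SepQM.window_card hclk'.few (Lw ^ i) w (Nat.one_le_pow _ _ hLw)).trans
      (Nat.mul_le_mul_left _ (hLwpow i hi))
  obtain ⟨E', qA, qB, hsub, hne, hcard, hdA, hdB, hacA, hacB, hmono⟩ :=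
    h3 ι E idx (3 * s + 3) Z Lw hEne hLw hZ (fun i hi w => (hwin i hi w).trans_lt hZN)
  have hlam1 : 1 ≤ Z ^ (2 * (3 * s + 3 + 1)) := Nat.one_le_pow _ _ hZ
  have hlam0 : (0 : ℝ) < (Z : ℝ) ^ (2 * (3 * s + 3 + 1)) := by
    have : (0 : ℝ) < Z := by exact_mod_cast hZ
    positivity
  have hcard' : (E.card : ℝ) ≤ (Z : ℝ) ^ (2 * (3 * s + 3 + 1)) * E'.card := by
    exact_mod_cast hcard
  have hwin' : ∀ i ≤ 3 * s + 3, ∀ w, (E'.filter (fun e => idx e / Lw ^ i = w)).card ≤
      N * Lw ^ (3 * s + 3) := fun i hi w =>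
    (Finset.card_le_card (Finset.filter_subset_filter _ hsub)).trans (hwin i hi w)
  have htop : Top L E E' θ idx q qA qB N (3 * s + 3) Z Lw (Z ^ (2 * (3 * s + 3 + 1))) g P Lam :=
    { inst := hI
      clk := hclk'
      N1 := hN1
      Lw1 := hLw
      lam1 := hlam1
      P1 := hP
      nuE := hnu
      sub := hsub
      ne := hne
      card := hcard
      degA := hdA
      degB := hdB
      actA := hacA
      actB := hacB
      monoA := fun i hi => (hmono i hi).1
      monoB := fun i hi => (hmono i hi).2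
      dens := by
        intro i hi w F' hF'
        exact hdens F' ((hF'.trans (Finset.filter_subset _ _)).trans hsub)
          ((Finset.card_le_card hF').trans (hwin' i hi w))
      small := fun i hi w => (hwin' i hi w).trans hZN.le
      big := hbig
      many := by
        have e1 : 16 * (N : ℝ) * Lam * 2 ^ g * (Z : ℝ) ^ (2 * (3 * s + 3 + 1)) *
            (((A E).card : ℝ) + (B E).card) ≤ (Z : ℝ) ^ (2 * (3 * s + 3 + 1)) * E'.card := by
          have := mul_le_mul_of_nonneg_right hmany hAB0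
          linarith
        have e2 : (Z : ℝ) ^ (2 * (3 * s + 3 + 1)) * (16 * (N : ℝ) * Lam * 2 ^ g *
            (((A E).card : ℝ) + (B E).card)) ≤ (Z : ℝ) ^ (2 * (3 * s + 3 + 1)) * E'.card := by
          linarith
        exact le_of_mul_le_mul_left e2 hlam0
      hLam := by push_cast; exact hLam
      hLw := by push_cast; exact hLwb }
  exact h5 ι L E E' θ idx q qA qB N (3 * s + 3) Z Lw (Z ^ (2 * (3 * s + 3 + 1))) g c s P Lam htop
    (by push_cast; exact hc) hcg rfl

end Pool.Agent.GG38.Q
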