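import Pool.Agent.Lib.MP_38fd99_co.Q.Spec

/-!
# MP_38fd99_co, full Q1: the fast side is flat (`StmtStepV`)
-/

set_option autoImplicit false

namespace Pool.Agent.GG38.Q

open Finset Classical

namespace StepVM

/-- the count -/
theorem count_aux {x y : ℝ} (hx0 : 0 ≤ x) (hxy : x ≤ y) (hy : 1 ≤ y) {Z : ℝ} (hZ : 0 ≤ Z) :
    (2 * x + 1) * (3 * (x + 1) ^ 2) ≤ 400000 * (Z + 1) * y ^ 7 := by
  have h1 : (2 * x + 1) * (3 * (x + 1) ^ 2) ≤ (2 * y + 1) * (3 * (y + 1) ^ 2) := by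
    gcongr
  have h2 : (2 * y + 1) * (3 * (y + 1) ^ 2) ≤ (3 * y) * (3 * (2 * y) ^ 2) := by
    have hy0 : 0 ≤ y := by linarith
    gcongr
    · linarith
    · linarith
  have h3 : (3 * y) * (3 * (2 * y) ^ 2) = 36 * y ^ 3 := by ring
  have h4 : y ^ 3 ≤ y ^ 7 := pow_le_pow_right₀ hy (by norm_num)
  have h5 : 0 ≤ y ^ 7 := by positivity
  have h6 : 36 * y ^ 7 ≤ 400000 * (Z + 1) * y ^ 7 := by
    have h7 : (36 : ℝ) ≤ 400000 * (Z + 1) := by linarith
    exact mul_le_mul_of_nonneg_right h7 h5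
  linarith

end StepVM

open StepVM

theorem stepV (h1 : StmtStepWins) (h2 : StmtFroz) (h3 : StmtV) : StmtStepV := by
  intro ι L E E' θ idx q qA qB N I Z Lw lam g P Lam hT i hi hflat
  -- elementary inequalities
  have hlam : (1 : ℝ) ≤ lam := by exact_mod_cast hT.lam1
  have hN : (1 : ℝ) ≤ N := by exact_mod_cast hT.N1
  have hP := hT.P1
  have hZ : (0 : ℝ) ≤ Z := Nat.cast_nonneg Z
  have hrho : (1 : ℝ) ≤ 8 * lam := by linarith
  have hPr : (0 : ℝ) < P * (8 * lam) := by positivity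
  have hLam1 : 10 ^ 10 * (P * (8 * lam)) ≤ Lam := by
    refine le_trans ?_ hT.hLam
    have e1 : (1 : ℝ) ≤ ((Z : ℝ) + 1) ^ 2 := one_le_pow₀ (by linarith)
    have e2 : (8 * (lam : ℝ)) ≤ (8 * lam) ^ 2 := by nlinarith
    calc (10 : ℝ) ^ 10 * (P * (8 * lam)) = 10 ^ 10 * 1 * P * (8 * lam) := by ring
      _ ≤ 10 ^ 10 * ((Z : ℝ) + 1) ^ 2 * P * (8 * lam) ^ 2 := by gcongr
  have hPr1 : (1 : ℝ) ≤ P * (8 * lam) := by nlinarith
  have hLam0 : 0 < Lam := by
    have : (0 : ℝ) < 10 ^ 10 * (P * (8 * lam)) := by positivity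
    linarith
  have hLamge1 : 1 ≤ Lam := by
    have : (1 : ℝ) ≤ 10 ^ 10 * (P * (8 * lam)) := by nlinarith
    linarith
  have h800 : 800 * P * (8 * lam) ≤ Lam := by
    have : 800 * P * (8 * (lam : ℝ)) ≤ 10 ^ 10 * (P * (8 * lam)) := by nlinarith
    linarith
  have hQB : (0 : ℝ) < 2 ^ qB i := by positivity
  have hQB1 : (1 : ℝ) ≤ 2 ^ qB i := one_le_pow₀ (by norm_num)
  have hQA : (0 : ℝ) < 2 ^ qA i := by positivity
  have hu : (0 : ℝ) < 2 ^ qB i / Lam := div_pos hQB hLam0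
  have hI' : Inst L E' := hT.inst.mono hT.sub
  have hnu : (L.nu E' : ℝ) ≤ N := by
    have := (L.nu_mono hT.sub).trans hT.nuE
    exact_mod_cast this
  -- the frozen edges
  let M := Lw ^ (i + 1)
  let p : ι × ι → Prop := fun e =>
    Fr L E' (θ (idx e / M * M)) (θ ((idx e / M + 1) * M)) (2 ^ qB i / Lam) e.2
  have hFz : ((E'.filter (fun e => ¬ p e)).card : ℝ) ≤
      2 * N / (2 ^ qB i / Lam) * (2 * 2 ^ qB (i + 1)) * (B E').card := by
    refine h2 ι L E' θ idx M (2 ^ qB i / Lam) N (2 * 2 ^ qB (i + 1)) hI' hT.clk.mono hu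
      (by positivity) hnu ?_
    intro b w
    have := hT.degB (i + 1) (by omega) b w
    exact_mod_cast this
  have hBE : ((B E').card : ℝ) ≤ (B E).card := by
    exact_mod_cast Finset.card_le_card (B_mono hT.sub)
  have hsplit : (E'.filter p).card + (E'.filter (fun e => ¬ p e)).card = E'.card :=
    Finset.card_filter_add_card_filter_not p
  have hbound : ((E'.filter (fun e => ¬ p e)).card : ℝ) ≤ (E'.card : ℝ) / 4 := by
    have e1 : (2 : ℝ) ^ qB (i + 1) ≤ 2 ^ g * 2 ^ qB i := by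
      rw [← pow_add]
      exact pow_le_pow_right₀ (by norm_num) (by omega)
    have e2 : 2 * (N : ℝ) / (2 ^ qB i / Lam) * (2 * 2 ^ qB (i + 1)) * (B E').card
        ≤ 2 * (N : ℝ) / (2 ^ qB i / Lam) * (2 * (2 ^ g * 2 ^ qB i)) * (B E).card := by
      have h0 : (0 : ℝ) ≤ 2 * (N : ℝ) / (2 ^ qB i / Lam) := by positivity
      gcongr
    have e3 : 2 * (N : ℝ) / (2 ^ qB i / Lam) * (2 * (2 ^ g * 2 ^ qB i)) * (B E).card
        = 4 * N * Lam * 2 ^ g * (B E).card := by
      field_simp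
      ring
    have e4 : 16 * (N : ℝ) * Lam * 2 ^ g * (B E).card
        ≤ 16 * (N : ℝ) * Lam * 2 ^ g * ((A E).card + (B E).card) := by
      have h0 : (0 : ℝ) ≤ 16 * (N : ℝ) * Lam * 2 ^ g := by positivity
      refine mul_le_mul_of_nonneg_left ?_ h0
      have : (0 : ℝ) ≤ (A E).card := Nat.cast_nonneg _
      linarith
    have e5 := hT.many
    linarith
  have hhalf : E'.card ≤ 2 * (E'.filter p).card := by
    have e1 : ((E'.filter p).card : ℝ) + (E'.filter (fun e => ¬ p e)).card = E'.card := by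
      exact_mod_cast hsplit
    have e2 : (E'.card : ℝ) ≤ 2 * (E'.filter p).card := by linarith
    exact_mod_cast e2
  obtain ⟨J, T, hW, hJ, hReg, hcard⟩ := h1 ι L E E' θ idx q qA qB N I Z Lw lam g P Lam hT i hi
    (E'.filter p) (Finset.filter_subset _ _) hhalf
  -- the size of `T`
  have hTc : 400000 * ((Z : ℝ) + 1) * (N * Lam) ^ 7 < T.card := by
    have e1 := lt_of_lt_of_le hT.hLw hcard
    have e2 : (0 : ℝ) < 8 * lam * N := by positivity
    have e3 : 400000 * ((Z : ℝ) + 1) * (N * Lam) ^ 7 * (8 * lam * N) < T.card * (8 * lam * N) := by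
      calc 400000 * ((Z : ℝ) + 1) * (N * Lam) ^ 7 * (8 * lam * N) < 8 * lam * N * T.card := e1
        _ = T.card * (8 * lam * N) := by ring
    exact lt_of_mul_lt_mul_right e3 e2.le
  refine h3 ι L E' _ _ T _ _ _ (2 ^ qA i) (2 ^ qB i) P (8 * lam) N hW hQA hQB hP hrho hnu
    ?_ ?_ hReg ?_ ?_
  · -- degrees
    intro j _ b
    have e1 : dB ((E'.filter p).filter (fun e => idx e / Lw ^ i = j)) b
        ≤ (E'.filter (fun e => e.2 = b ∧ idx e / Lw ^ i = j)).card := by
      unfold dB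
      apply Finset.card_le_card
      intro e he
      rw [Finset.mem_filter, Finset.mem_filter, Finset.mem_filter] at he
      rw [Finset.mem_filter]
      exact ⟨he.1.1.1, he.2, he.1.2⟩
    have e2 := e1.trans (hT.degB i (by omega) b j)
    exact_mod_cast e2
  · -- density
    intro j _
    refine (hT.dens i (by omega) j).mono ?_
    intro e he
    rw [Finset.mem_filter, Finset.mem_filter] at he
    rw [Finset.mem_filter]
    exact ⟨he.1.1, he.2⟩
  · -- frozen lines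
    intro j hj x hx
    obtain ⟨a, ha⟩ := mem_B.1 hx
    rw [Finset.mem_filter, Finset.mem_filter] at ha
    obtain ⟨⟨_, hp⟩, hidx⟩ := ha
    have hp' : Fr L E' (θ (idx (a, x) / M * M)) (θ ((idx (a, x) / M + 1) * M))
      (2 ^ qB i / Lam) x := hp
    have hM : idx (a, x) / M = J := by
      show idx (a, x) / Lw ^ (i + 1) = J
      rw [pow_succ, ← Nat.div_div_eq_div_mul, hidx]
      exact hJ j hj
    rw [hM] at hp'
    refine hp'.mono ?_
    exact div_le_div_of_nonneg_left hQB.le (by positivity) h800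
  · -- the number of windows
    have hx0 : 0 ≤ (N : ℝ) / (2 ^ qB i / (800 * P * (8 * lam))) := by positivity
    have hxy : (N : ℝ) / (2 ^ qB i / (800 * P * (8 * lam))) ≤ N * Lam := by
      have hq : (0 : ℝ) < 800 * P * (8 * lam) := by positivity
      rw [div_div_eq_mul_div, div_le_iff₀ hQB]
      calc (N : ℝ) * (800 * P * (8 * lam)) ≤ N * Lam * 1 := by
            rw [mul_one]; gcongr
        _ ≤ N * Lam * 2 ^ qB i := by gcongr
    have hy1 : 1 ≤ (N : ℝ) * Lam := by nlinarith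
    exact (count_aux hx0 hxy hy1 hZ).trans hTc.le

end Pool.Agent.GG38.Q
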