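import Pool.Agent.Lib.MP_38fd99_co.Q.Spec

/-! # MP_38fd99_co, full Q1: windows for one step, minimum of the degrees -/

set_option autoImplicit false

namespace Pool.Agent.GG38.Q

open Finset Classical

theorem stepWins (h : StmtDenseJ) : StmtStepWins := by
  intro ι L E E' θ idx q qA qB N I Z Lw lam g P Lam hT i hi Eg hEg hcard
  have hM : 1 ≤ Lw ^ i := Nat.one_le_pow _ _ hT.Lw1
  have hE'c : 0 < E'.card := Finset.card_pos.2 hT.ne
  have hEgne : Eg.Nonempty := by
    rw [← Finset.card_pos]
    by_contra h0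
    have h1 : Eg.card = 0 := by omega
    rw [h1] at hcard
    omega
  have hEgE : Eg ⊆ E := hEg.trans hT.sub
  have hbig : Lw ^ i * Lw ≤ E.card := by
    rw [← pow_succ]
    exact (Nat.pow_le_pow_right hT.Lw1 hi).trans hT.big
  have hcE : E.card ≤ 2 * lam * Eg.card := by
    calc E.card ≤ lam * E'.card := hT.card
      _ ≤ lam * (2 * Eg.card) := Nat.mul_le_mul_left _ hcard
      _ = 2 * lam * Eg.card := by ring
  have hA : ((2 : ℝ) ^ qA i) * ((Eg.image (fun e => (e.1, idx e / Lw ^ i))).card : ℝ)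
      ≤ (E.card : ℝ) := by
    have h1 := hT.actA i hi.le
    have h2 : (Eg.image (fun e => (e.1, idx e / Lw ^ i))).card
        ≤ (E'.image (fun e => (e.1, idx e / Lw ^ i))).card :=
      Finset.card_le_card (Finset.image_subset_image hEg)
    have h3 : 2 ^ qA i * (Eg.image (fun e => (e.1, idx e / Lw ^ i))).card ≤ E.card :=
      (Nat.mul_le_mul_left _ h2).trans h1
    exact_mod_cast h3
  have hB : ((2 : ℝ) ^ qB i) * ((Eg.image (fun e => (e.2, idx e / Lw ^ i))).card : ℝ)
      ≤ (E.card : ℝ) := by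
    have h1 := hT.actB i hi.le
    have h2 : (Eg.image (fun e => (e.2, idx e / Lw ^ i))).card
        ≤ (E'.image (fun e => (e.2, idx e / Lw ^ i))).card :=
      Finset.card_le_card (Finset.image_subset_image hEg)
    have h3 : 2 ^ qB i * (Eg.image (fun e => (e.2, idx e / Lw ^ i))).card ≤ E.card :=
      (Nat.mul_le_mul_left _ h2).trans h1
    exact_mod_cast h3
  obtain ⟨J, T, hJ, hTT, hLw⟩ := h ι E Eg idx N q (Lw ^ i) Lw lam ((2 : ℝ) ^ qA i)
    ((2 : ℝ) ^ qB i) hM hT.Lw1 hT.N1 hT.lam1 (by positivity) (by positivity) hEgE hEgne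
    hT.clk.lt hT.clk.ne hT.clk.few hbig hcE hA hB
  have hU : A E' ∪ B E' ⊆ A E ∪ B E :=
    Finset.union_subset_union (A_mono hT.sub) (B_mono hT.sub)
  have hgen : ∀ j, Gen L (A E' ∪ B E') (θ j) := fun j => (hT.clk.gen j).mono hU
  have hinst : Inst L E' :=
    { sep := fun a ha b hb => hT.inst.sep a (A_mono hT.sub ha) b (B_mono hT.sub hb)
      inj := hT.inst.inj.mono (by exact_mod_cast hU)
      gp := fun x hx y hy z hz => hT.inst.gp x (hU hx) y (hU hy) z (hU hz) }
  have hmul : ∀ a b : ℕ, a ≤ b → θ (a * Lw ^ i) ≤ θ (b * Lw ^ i) := fun a b hab =>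
    hT.clk.mono (Nat.mul_le_mul_right _ hab)
  have hpow : ∀ a : ℕ, a * Lw ^ (i + 1) = (a * Lw) * Lw ^ i := fun a => by
    rw [pow_succ]; ring
  refine ⟨J, T, ?_, hJ, fun w hw => (hTT w hw).2, hLw⟩
  exact
    { inst := hinst
      g0 := hgen _
      g1 := hgen _
      t01 := hT.clk.mono (Nat.mul_le_mul_right _ (Nat.le_succ J))
      gs := fun w _ => hgen _
      gs' := fun w _ => hgen _
      t0s := fun w hw => by
        rw [hpow]
        apply hmul
        have h1 := hJ w hw
        rw [← h1]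
        exact Nat.div_mul_le_self w Lw
      ss' := fun w _ => hmul _ _ (Nat.le_succ w)
      s't1 := fun w hw => by
        rw [hpow]
        apply hmul
        have h1 := hJ w hw
        have h2 : w < (w / Lw + 1) * Lw := by
          have h3 := Nat.lt_div_mul_add (a := w) hT.Lw1
          calc w < w / Lw * Lw + Lw := h3
            _ = (w / Lw + 1) * Lw := by ring
        rw [h1] at h2
        exact h2
      mono := fun a _ b _ hab => hmul _ _ hab
      sub := fun w _ => (Finset.filter_subset _ _).trans hEg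
      ne := fun w hw => (hTT w hw).1
      tim := fun w _ e he => by
        rw [Finset.mem_filter] at he
        obtain ⟨he, hw⟩ := he
        have heE := hEgE he
        have h1 : w * Lw ^ i ≤ idx e := by
          rw [← hw]
          exact Nat.div_mul_le_self _ _
        have h2 : idx e + 1 ≤ (w + 1) * Lw ^ i := by
          have h3 := Nat.lt_div_mul_add (a := idx e) hM
          rw [hw] at h3
          calc idx e + 1 ≤ w * Lw ^ i + Lw ^ i := h3
            _ = (w + 1) * Lw ^ i := by ring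
        exact ⟨(hT.clk.mono h1).trans (hT.clk.le e heE), (hT.clk.le' e heE).trans (hT.clk.mono h2)⟩ }

theorem stepMin (h1 : StmtMin) (h2 : StmtStepWins) : StmtStepMin := by
  intro ι L E E' θ idx q qA qB N I Z Lw lam g P Lam hT i hi
  obtain ⟨J, T, hW, hJ, hReg, hLw⟩ := h2 ι L E E' θ idx q qA qB N I Z Lw lam g P Lam hT i hi E'
    (Finset.Subset.refl _) (by omega)
  have hTne : T.Nonempty := by
    rw [Finset.nonempty_iff_ne_empty]
    intro h0
    rw [h0, Finset.card_empty, Nat.cast_zero, mul_zero] at hLw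
    have h3 : (1 : ℝ) ≤ (Lw : ℝ) := by exact_mod_cast hT.Lw1
    linarith
  obtain ⟨w, hw⟩ := hTne
  have hnu : (L.nu (E'.filter (fun e => idx e / Lw ^ i = w)) : ℝ) ≤ (N : ℝ) := by
    have h3 : L.nu (E'.filter (fun e => idx e / Lw ^ i = w)) ≤ N :=
      (L.nu_mono ((Finset.filter_subset _ _).trans hT.sub)).trans hT.nuE
    exact_mod_cast h3
  exact h1 ι L (E'.filter (fun e => idx e / Lw ^ i = w)) ((2 : ℝ) ^ qA i) ((2 : ℝ) ^ qB i) P
    (8 * lam) N (hW.ne w hw) (by positivity) (by positivity) hT.P1 hnu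
    (hT.dens i hi.le w) (hReg w hw)

end Pool.Agent.GG38.Q
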