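import Pool.Agent.Lib.MP_38fd99_co.Q.Lab
import Pool.Agent.Lib.MP_38fd99_co.Spec

/-!
# MP_38fd99_co, full Q1: `e_k(n) ≤ k^(1+ε) n` for all `n` and `k ≥ k₀(ε)`.  SPEC

Every module is a Prop `Stmt...`; its docstring contains a complete proof.  Modules used are taken as
hypotheses.  The paper proof is in the notes 1122 of MP_38fd99_co (helper5), checked by helper39,
helper61, helper84.  All real quantities `QA QB P rho u N` are real numbers; mass is `ms`.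
`N` is always an upper bound of the matching number `nu`.
-/

set_option autoImplicit false

namespace Pool.Agent.GG38.Q

open Finset Classical

noncomputable section

/-! ## Part 1: bundles (helper61) -/

/-- OVERTAKING.  A frozen line overtakes only a small part of a bundle.
Proof.  Otherwise `u ≤ nu S`, `S = F.filter (p e.2)` by `v0`.  For `f ∈ S` the line `x` is faster
(`v_lt_of_over`), so `L3` with `x = y` gives `lV t0 x + nu S ≤ lV t1 x`, against `Fr`. -/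
def StmtOver : Prop := ∀ (ι : Type) (L : Lines ι) (E : Finset (ι × ι)) (t0 t1 u s s' : ℝ)
  (F : Finset (ι × ι)) (w : ι → ℝ) (x : ι), Inst L E → Bundle L E t0 t1 u s s' F w →
  Fr L E t0 t1 u x →
  ms F w (fun z => L.H x t0 < L.H z t0 ∧ L.H z t1 < L.H x t1) < 1 / 100

/-- MASS OF THE MIDDLE PART.  Uses `StmtOver`.
Proof.  `{x : ms(z ≤ x) < 1/4}`: if nonempty let `x*` be its highest element at time `t0`, the set is
contained in `{z : H z t0 ≤ H x* t0}`, mass `< 1/4`; same from above.  `∑_x w x * ms(z overtakes x) =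
∑_z w z * ms(x overtaken by z) ≤ 1/100`, so the mass of the `x` with `ms(z overtakes x) ≥ 8/100` is
`≤ 1/8` (Markov).  `1 - 1/4 - 1/4 - 1/8 = 3/8`. -/
def StmtMidMass : Prop := ∀ (ι : Type) (L : Lines ι) (E : Finset (ι × ι)) (t0 t1 u s s' : ℝ)
  (F : Finset (ι × ι)) (w : ι → ℝ), Inst L E → Bundle L E t0 t1 u s s' F w →
  3 / 8 ≤ ms F w (Mid L t0 t1 F w)

/-- MIDDLE PARTS STAY ORDERED.  Uses `StmtOver`.
Proof.  Suppose `H x t < H z t`.  `H z t0 < H x t0` because `Mid → Trim`, so `z` is faster and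
`H x t1 < H z t1`.  `Y = {y : H y t0 ≤ H x t0}` has mass `≥ 1/4`.  The `y ∈ Y` which are not in `Trim` have
mass `< 1/8` (for `y ∈ Y` the mass above `y` is `≥ 1/4`, so `y` has mass `< 1/8` below), the `y ∈ Y` which
overtake `x` have mass `< 8/100`; all other `y ∈ Y` satisfy `H z t0 < H y t0` (`TSep`) and
`H y t1 ≤ H x t1 < H z t1` (if `H y t0 = H x t0` then `y = x` by `Gen`), mass `< 1/100` by `StmtOver` for
`z`.  `1/8 + 8/100 + 1/100 < 1/4`, contradiction. -/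
def StmtMidOrd : Prop := ∀ (ι : Type) (L : Lines ι) (E : Finset (ι × ι)) (t0 t1 u s s' : ℝ)
  (F : Finset (ι × ι)) (w : ι → ℝ) (r r' : ℝ) (F' : Finset (ι × ι)) (w' : ι → ℝ), Inst L E →
  Gen L (A E ∪ B E) t0 →
  Bundle L E t0 t1 u s s' F w → Bundle L E t0 t1 u r r' F' w' → TSep L t0 F' w' F w →
  ∀ t, t0 ≤ t → t ≤ t1 → ∀ z, Mid L t0 t1 F' w' z → ∀ x, Mid L t0 t1 F w x → L.H z t ≤ L.H x t

/-- T3: THE NUMBER OF SEPARATED BUNDLES.  Uses `StmtMidMass`, `StmtMidOrd`.  See note 1122. -/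
def StmtT3 : Prop := ∀ (ι : Type) (L : Lines ι) (E : Finset (ι × ι)) (t0 t1 u N : ℝ) (κ : Type)
  (K : Finset κ) (s s' : κ → ℝ) (F : κ → Finset (ι × ι)) (w : κ → ι → ℝ), Inst L E →
  Gen L (A E ∪ B E) t0 → Gen L (A E ∪ B E) t1 → 0 < u → (L.nu E : ℝ) ≤ N →
  (∀ k ∈ K, Bundle L E t0 t1 u (s k) (s' k) (F k) (w k)) →
  (∀ k ∈ K, ∀ l ∈ K, k ≠ l → TSep L t0 (F k) (w k) (F l) (w l) ∨
    TSep L t0 (F l) (w l) (F k) (w k)) →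
  (K.card : ℝ) ≤ 3 * (N / u + 1) ^ 2

/-! ## Part 2: value lemma (helper61) -/

/-- VALUE LEMMA.  Uses `StmtT3`, `StmtMidMass`, `StmtMidOrd`, slots and Mirsky.  See note 1122. -/
def StmtVL : Prop := ∀ (ι : Type) (L : Lines ι) (E : Finset (ι × ι)) (t0 t1 : ℝ) (T : Finset ℕ)
  (s s' : ℕ → ℝ) (F : ℕ → Finset (ι × ι)) (QA QB P rho N : ℝ) (R : ℕ), Wins L E t0 t1 T s s' F →
  0 < QB → 1 ≤ P → 1 ≤ rho → (L.nu E : ℝ) ≤ N →
  (∀ j ∈ T, ∀ b, (dB (F j) b : ℝ) ≤ 2 * QB) → (∀ j ∈ T, Dens L P (F j)) →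
  (∀ j ∈ T, Reg QA QB rho (F j)) →
  (∀ j ∈ T, ∀ x ∈ B (F j), Fr L E t0 t1 (QB / (800 * P * rho)) x) →
  1 ≤ R → 8 * rho * QB * R ≤ QA →
  R * (3 * (N / (QB / (800 * P * rho)) + 1) ^ 2) ≤ (T.card : ℝ) →
  QB / (800 * P * rho) * R / 2 ≤ (L.nu (T.biUnion F) : ℝ)

/-- VALUE LEMMA, second form.  Uses `StmtVL`.
Proof.  `R = ⌊QA / (8 rho QB)⌋`.  If `R ≥ 1` then `R ≥ QA / (16 rho QB)`, `R ≤ QA/QB` and `StmtVL` gives
`nu ≥ QB/(800 P rho) * QA/(16 rho QB) / 2 = QA / (25600 P rho²)`.  If `R = 0` then `QA < 8 rho QB`; take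
any `j ∈ T`: by `Dens`, `|F j| ≤ P (|A|+|B|) nu (F j)` and `QB (|A|+|B|) ≤ QA |A| + QB |B| ≤ rho |F j|`, so
`nu (F j) ≥ QB/(P rho) ≥ QA/(8 P rho²)` (`F j` is nonempty). -/
def StmtVLC : Prop := ∀ (ι : Type) (L : Lines ι) (E : Finset (ι × ι)) (t0 t1 : ℝ) (T : Finset ℕ)
  (s s' : ℕ → ℝ) (F : ℕ → Finset (ι × ι)) (QA QB P rho N : ℝ), Wins L E t0 t1 T s s' F →
  T.Nonempty → 0 < QB → QB ≤ QA → 1 ≤ P → 1 ≤ rho → (L.nu E : ℝ) ≤ N →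
  (∀ j ∈ T, ∀ b, (dB (F j) b : ℝ) ≤ 2 * QB) → (∀ j ∈ T, Dens L P (F j)) →
  (∀ j ∈ T, Reg QA QB rho (F j)) →
  (∀ j ∈ T, ∀ x ∈ B (F j), Fr L E t0 t1 (QB / (800 * P * rho)) x) →
  QA / QB * (3 * (N / (QB / (800 * P * rho)) + 1) ^ 2) ≤ (T.card : ℝ) →
  QA / (25600 * P * rho ^ 2) ≤ (L.nu (T.biUnion F) : ℝ)

/-- MINIMUM OF THE DEGREES in one window.
Proof.  `q = min QA QB`, `q (|A F|+|B F|) ≤ rho |F|` and `|F| ≤ P (|A F|+|B F|) nu F ≤ P (rho |F| / q) N`. -/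
def StmtMin : Prop := ∀ (ι : Type) (L : Lines ι) (F : Finset (ι × ι)) (QA QB P rho N : ℝ),
  F.Nonempty → 0 < QA → 0 < QB → 1 ≤ P → (L.nu F : ℝ) ≤ N → Dens L P F → Reg QA QB rho F →
  min QA QB ≤ P * rho * N

/-- DEGREE BOUND: if the fast side is frozen then `QA` is small.  Uses `StmtVL`, `StmtMin`.
Proof.  `u = QB/(800 P rho)`, `R = ⌊2N/u⌋ + 1`, so `R ≤ 2N/u+1` and `u R / 2 > N ≥ nu E`.  By `StmtVL`
(`L.nu (T.biUnion F) ≤ L.nu E`) `8 rho QB R ≤ QA` is impossible, so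
`QA < 8 rho QB (2N/u+1) = 12800 P rho² N + 8 rho QB`.  `StmtMin` for one `j ∈ T` (`T` is nonempty):
if `QB ≤ QA` then `QB ≤ P rho N` and `QA ≤ 12808 P rho² N`; if `QA < QB` then `QA ≤ P rho N`. -/
def StmtV : Prop := ∀ (ι : Type) (L : Lines ι) (E : Finset (ι × ι)) (t0 t1 : ℝ) (T : Finset ℕ)
  (s s' : ℕ → ℝ) (F : ℕ → Finset (ι × ι)) (QA QB P rho N : ℝ), Wins L E t0 t1 T s s' F →
  0 < QA → 0 < QB → 1 ≤ P → 1 ≤ rho → (L.nu E : ℝ) ≤ N →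
  (∀ j ∈ T, ∀ b, (dB (F j) b : ℝ) ≤ 2 * QB) → (∀ j ∈ T, Dens L P (F j)) →
  (∀ j ∈ T, Reg QA QB rho (F j)) →
  (∀ j ∈ T, ∀ x ∈ B (F j), Fr L E t0 t1 (QB / (800 * P * rho)) x) →
  (2 * (N / (QB / (800 * P * rho))) + 1) * (3 * (N / (QB / (800 * P * rho)) + 1) ^ 2) ≤
    (T.card : ℝ) →
  QA ≤ 13000 * P * rho ^ 2 * N

/-! ## Part 3: nodes of the dyadic tree -/

/-- NODE of a finite set of natural numbers `< 2^D`.
Proof.  `D = 0`: `N' = {0}`, `d = j = 0`, `cut = 0`.  `D ≥ 1`: choose the pair `(d,j)`, `d ≤ D`, `j < 2^D`, with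
`|N_{d,j}| (1+1/D)^d` maximal, `N_{d,j} = {x ∈ N' : x / 2^(D-d) = j}`.  Comparison with `(0,0)`:
`|N'| ≤ |N_{d,j}| (1+1/D)^d ≤ 3 |N_{d,j}|` (`(1+1/D)^D ≤ exp 1 < 3`).  If `d = D` then `cut = j` and both
filters are `N_{d,j}`.  If `d < D`: `N_{d,j}` is the disjoint union of `N_{d+1,2j}` (the `x < cut`) and
`N_{d+1,2j+1}` (the `x ≥ cut`), each has at most `|N_{d,j}| D/(D+1)` elements by maximality, hence each has
at least `|N_{d,j}|/(D+1)`. -/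
def StmtNode : Prop := ∀ (D : ℕ) (N' : Finset ℕ), N'.Nonempty → (∀ x ∈ N', x < 2 ^ D) →
  ∃ d j : ℕ, d ≤ D ∧ N'.card ≤ 3 * (N'.filter (fun x => x / 2 ^ (D - d) = j)).card ∧
    (N'.filter (fun x => x / 2 ^ (D - d) = j)).card ≤
      (D + 1) * (N'.filter (fun x => x / 2 ^ (D - d) = j ∧ cut D d j ≤ x)).card ∧
    (N'.filter (fun x => x / 2 ^ (D - d) = j)).card ≤
      (D + 1) * (N'.filter (fun x => x / 2 ^ (D - d) = j ∧ x ≤ cut D d j)).card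

/-- A DENSE NODE in one window.  Uses `StmtNode`.
Proof.  For `b ∈ B F` apply `StmtNode` to `N_b = {r a : (a,b) ∈ F}`, giving `(d_b, j_b)`.  `F^{d,j} =
{(a,b) ∈ F : d_b = d, j_b = j, r a / 2^(D-d) = j}`.  `∑_{d,j} |F^{d,j}| ≥ |F|/3` (`r` is injective on `A F`, so
`|N_b| = dB F b` etc.), so for some `d ≤ D`: `∑_j |F^{d,j}| ≥ |F|/(3(D+1))`.  For this `d` the sets `A (F^{d,j})`
(`j` is determined by `a`) and the sets `B (F^{d,j})` are pairwise disjoint, so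
`∑_j (QA |A F^{d,j}| + QB |B F^{d,j}|) ≤ QA |A F| + QB |B F| ≤ rho |F| ≤ 3 (D+1) rho ∑_j |F^{d,j}|`: take
`j` with `F^{d,j}` nonempty and `QA |A| + QB |B| ≤ 3 (D+1) rho |F^{d,j}|` (if all nonempty ones violated this the sum
would be larger).  The last two items are those of `StmtNode` (`dB F^{d,j} b = |{x ∈ N_b : x/2^(D-d) = j}|`). -/
def StmtPick : Prop := ∀ (ι : Type) (F : Finset (ι × ι)) (r : ι → ℕ) (D : ℕ) (QA QB rho : ℝ),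
  F.Nonempty → Set.InjOn r (A F) → (∀ a ∈ A F, r a < 2 ^ D) → 0 ≤ QA → 0 ≤ QB →
  Reg QA QB rho F →
  ∃ (d j : ℕ) (F' : Finset (ι × ι)), d ≤ D ∧ F' ⊆ F ∧ F'.Nonempty ∧
    (∀ e ∈ F', r e.1 / 2 ^ (D - d) = j) ∧ Reg QA QB (3 * (D + 1) * rho) F' ∧
    (∀ b ∈ B F', dB F' b ≤
      (D + 1) * (F'.filter (fun e => e.2 = b ∧ cut D d j ≤ r e.1)).card) ∧
    (∀ b ∈ B F', dB F' b ≤
      (D + 1) * (F'.filter (fun e => e.2 = b ∧ r e.1 ≤ cut D d j)).card)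

/-! ## Part 4: windows with the same node -/

/-- BAD PAIRS.  `(a,b)` happens before `τ`, the edges of `F'` after `τ`; `a` is above the cut and frozen.
Then few edges of `F'` have their fast line above (or equal to) `b` at time `τ`.
Proof.  `E₂ = {e ∈ F' : H b τ ≤ H e.2 τ, r e.1 ≤ c}`.  Let `e = (a',b') ∈ E₂`.  Then
`H a τ ≤ H b τ ≤ H b' τ ≤ H a' τ` (`fst_le_snd`, `snd_le_fst`).  `a' ≠ a`: otherwise `H a τ = H b τ`, against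
`Gen` at `τ` (`a ≠ b` because `v a < v b`).  So `H a τ < H a' τ` by `Gen`.  `r a' ≤ c ≤ r a` gives
`H a' t0 ≤ H a t0`.  So `a'` is faster than `a` (`v_lt_of_over`) and `H a t1 < H a' t1` (`H_lt_of_le`).
`L3` for `L.neg`, `Esw E`, `x = y = a`, `S = Esw E₂` gives `nu E₂ < u` (`nu_neg`, `Fr`).  By `Dens`
`|E₂| ≤ P (|A F'|+|B F'|) u ≤ P u (rho |F'|/QA)` (`QA ≤ QB` and `Reg`).  Finally
`|{e ∈ F' : H b τ ≤ H e.2 τ}| = ∑_{b'} dB F' b' ≤ (D+1) ∑_{b'} |{e ∈ F' : e.2 = b', r e.1 ≤ c}| = (D+1) |E₂|`,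
sums over the `b' ∈ B F'` with `H b τ ≤ H b' τ`. -/
def StmtBad : Prop := ∀ (ι : Type) (L : Lines ι) (E : Finset (ι × ι)) (t0 t1 τ u P rho QA QB : ℝ)
  (D c : ℕ) (F' : Finset (ι × ι)) (r : ι → ℕ) (a b : ι), Inst L E →
  Gen L (A E ∪ B E) t0 → Gen L (A E ∪ B E) τ → t0 ≤ τ → τ ≤ t1 → (a, b) ∈ E → t0 ≤ et L (a, b) →
  et L (a, b) ≤ τ → c ≤ r a → Fr L.neg (Esw E) t0 t1 u a → F' ⊆ E →
  (∀ e ∈ F', τ ≤ et L e ∧ et L e ≤ t1) → (∀ e ∈ F', r e.1 ≤ r a → L.H e.1 t0 ≤ L.H a t0) →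
  (∀ b' ∈ B F', dB F' b' ≤ (D + 1) * (F'.filter (fun e => e.2 = b' ∧ r e.1 ≤ c)).card) →
  Dens L P F' → 0 < u → 0 < P → 0 < QA → QA ≤ QB → Reg QA QB rho F' →
  ((F'.filter (fun e => L.H b τ ≤ L.H e.2 τ)).card : ℝ) ≤
    (D + 1) * P * rho * (u / QA) * F'.card

/-- weight of a block of windows: average over the windows of the normalised degrees -/
def bw {ι : Type} (F : ℕ → Finset (ι × ι)) (T : Finset ℕ) (x : ι) : ℝ :=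
  (∑ j ∈ T, (dB (F j) x : ℝ) / (F j).card) / T.card

/-- MASS OF A BLOCK.
Proof.  Exchange the sums; `∑_{z ∈ B (T.biUnion F), p z} dB (F j) z = |{e ∈ F j : p e.2}|` since
`B (F j) ⊆ B (T.biUnion F)`. -/
def StmtBlockMass : Prop := ∀ (ι : Type) (F : ℕ → Finset (ι × ι)) (T : Finset ℕ) (p : ι → Prop),
  ms (T.biUnion F) (bw F T) p =
    (∑ j ∈ T, (((F j).filter (fun e => p e.2)).card : ℝ) / (F j).card) / T.card

/-- frozenness constants in Part 4 -/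
def uA4 (QA P rho : ℝ) (D : ℕ) : ℝ := QA / (160000 * (D + 1) * P * rho)

/-- frozenness constants in Part 4 -/
def uB4 (QB P rho : ℝ) : ℝ := QB / (1024000000 * P * rho ^ 2)

/-- common hypotheses of Part 4: windows `T` with the same cut `c` -/
structure NodeWins {ι : Type} (L : Lines ι) (E : Finset (ι × ι)) (t0 t1 : ℝ) (T : Finset ℕ)
    (s s' : ℕ → ℝ) (F : ℕ → Finset (ι × ι)) (r : ι → ℕ) (c D : ℕ) (QA QB P rho N : ℝ) : Prop where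
  wins : Wins L E t0 t1 T s s' F
  QA0 : 0 < QA
  QAB : QA ≤ QB
  P1 : 1 ≤ P
  rho1 : 1 ≤ rho
  nuE : (L.nu E : ℝ) ≤ N
  degA : ∀ j ∈ T, ∀ a, (dA (F j) a : ℝ) ≤ 2 * QA
  dens : ∀ j ∈ T, Dens L P (F j)
  reg : ∀ j ∈ T, Reg QA QB rho (F j)
  frA : ∀ j ∈ T, ∀ a ∈ A (F j), Fr L.neg (Esw E) t0 t1 (uA4 QA P rho D) a
  frB : ∀ j ∈ T, ∀ b ∈ B (F j), Fr L E t0 t1 (uB4 QB P rho) b
  rk : ∀ i ∈ T, ∀ j ∈ T, ∀ x ∈ A (F i), ∀ y ∈ A (F j), r x ≤ r y → L.H x t0 ≤ L.H y t0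
  hi : ∀ j ∈ T, ∀ b ∈ B (F j), dB (F j) b ≤
    (D + 1) * ((F j).filter (fun e => e.2 = b ∧ c ≤ r e.1)).card
  lo : ∀ j ∈ T, ∀ b ∈ B (F j), dB (F j) b ≤
    (D + 1) * ((F j).filter (fun e => e.2 = b ∧ r e.1 ≤ c)).card

/-- A LONG BLOCK IS A BUNDLE.  Uses `StmtVLC` (for `L.neg`), `StmtBlockMass`.
Proof.  `s = s (min T')`, `s' = s' (max T')` (the windows are monotone in time).  `w0`, `w1`: `StmtBlockMass`.
`fr`: `frB`.  `v0`: let `p` have mass `≥ 1/100`, `T₁ = {j ∈ T' : |F j| ≤ 200 |F j[p]|}`; as all fractions are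
`≤ 1`, `|T₁| ≥ |T'|/200 > 0`.  Apply `StmtVLC` to `L.neg`, `Esw E`, windows `T₁`, edge sets `Esw (F j [p])` (`QA` and `QB`
exchanged, `rho₂ = 200 rho`): `Reg` holds since `|F j| ≤ 200 |F j[p]|`; frozen with
`QA/(800 P rho₂) = QA/(160000 P rho) ≥ uA4`; number of windows: `QB/QA * 3 (N/uA4+1)² ≤ |T'|/200 ≤ |T₁|`.
Result: `nu ≥ QB/(25600 P rho₂²) = uB4`.  `v1`: mass `≥ 1/8`, `T₁ = {j : |F j| ≤ 16 |F j[p]|}`, `|T₁| ≥ |T'|/16`,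
`rho₂ = 16 rho`, result `QB/(6553600 P rho²) ≥ 2 uB4`. -/
def StmtBlockBundle : Prop := ∀ (ι : Type) (L : Lines ι) (E : Finset (ι × ι)) (t0 t1 : ℝ)
  (T : Finset ℕ) (s s' : ℕ → ℝ) (F : ℕ → Finset (ι × ι)) (r : ι → ℕ) (c D : ℕ)
  (QA QB P rho N : ℝ) (T' : Finset ℕ) (lo hi : ℕ),
  NodeWins L E t0 t1 T s s' F r c D QA QB P rho N → T' ⊆ T → lo ∈ T' → hi ∈ T' →
  (∀ j ∈ T', lo ≤ j ∧ j ≤ hi) →
  600 * (QB / QA) * (N / uA4 QA P rho D + 1) ^ 2 ≤ (T'.card : ℝ) →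
  Bundle L E t0 t1 (uB4 QB P rho) (s lo) (s' hi) (T'.biUnion F) (bw F T')

/-- AN EARLIER BLOCK IS ABOVE A LATER BLOCK.  Uses `StmtBad`, `StmtOver`, `StmtBlockMass`.
Proof.  Let `z` be in `Trim` of block `T₂`, `x` in `Trim` of block `T₁`, suppose `H x t0 ≤ H z t0`.  The lines `y` of
block `T₂` with `H z t0 ≤ H y t0` have mass `≥ 1/8`, they all satisfy `H x t0 ≤ H y t0`.
Choose `j ∈ T₁` with `x ∈ B (F j)`, `(a,x) ∈ F j` with `c ≤ r a` (by `hi`, `dB ≥ 1`), `τ = s' j`.  For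
`i ∈ T₂` (`j < i`) `StmtBad` with `F' = F i`, `u = uA4`: `|{e ∈ F i : H x τ ≤ H e.2 τ}| ≤ |F i| / 160000`, so the mass of
`{y : H x τ ≤ H y τ}` in block `T₂` is `≤ 1/160000` (`StmtBlockMass`).  If `H x t0 ≤ H y t0` and `H y τ < H x τ`
then `y ≠ x`, `H x t0 < H y t0` (`Gen`), `x` is faster, `H y t1 < H x t1`: by `StmtOver` (`x` is frozen by `frB`, block `T₂` is a
bundle) their mass is `< 1/100`.  `1/160000 + 1/100 < 1/8`. -/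
def StmtBlockSep : Prop := ∀ (ι : Type) (L : Lines ι) (E : Finset (ι × ι)) (t0 t1 : ℝ)
  (T : Finset ℕ) (s s' : ℕ → ℝ) (F : ℕ → Finset (ι × ι)) (r : ι → ℕ) (c D : ℕ)
  (QA QB P rho N : ℝ) (T₁ T₂ : Finset ℕ) (q q' : ℝ),
  NodeWins L E t0 t1 T s s' F r c D QA QB P rho N → T₁ ⊆ T → T₂ ⊆ T →
  (∀ i ∈ T₁, ∀ j ∈ T₂, i < j) →
  Bundle L E t0 t1 (uB4 QB P rho) q q' (T₂.biUnion F) (bw F T₂) →
  TSep L t0 (T₂.biUnion F) (bw F T₂) (T₁.biUnion F) (bw F T₁)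

/-- NUMBER OF WINDOWS WITH THE SAME NODE.  Uses `StmtT3`, `StmtBlockBundle`, `StmtBlockSep`.
Proof.  `f = ⌈600 (QB/QA) (N/uA4+1)²⌉ ≤ 600 .. + 1`, `f ≥ 1`.  Cut `T` (increasing order) into consecutive blocks with
exactly `f` elements, `k < ⌊|T|/f⌋`, and a rest.  They are bundles, pairwise `TSep`.  `StmtT3` gives
`⌊|T|/f⌋ ≤ 3 (N/uB4+1)²`, `|T| < f (⌊|T|/f⌋ + 1)`. -/
def StmtNodeCount : Prop := ∀ (ι : Type) (L : Lines ι) (E : Finset (ι × ι)) (t0 t1 : ℝ)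
  (T : Finset ℕ) (s s' : ℕ → ℝ) (F : ℕ → Finset (ι × ι)) (r : ι → ℕ) (c D : ℕ)
  (QA QB P rho N : ℝ), NodeWins L E t0 t1 T s s' F r c D QA QB P rho N →
  (T.card : ℝ) ≤ (600 * (QB / QA) * (N / uA4 QA P rho D + 1) ^ 2 + 1) *
    (3 * (N / uB4 QB P rho + 1) ^ 2 + 1)

/-- NUMBER OF DIFFERENT NODES.  Uses `StmtT3` (for `L.neg`).
Proof.  `StmtT3` for `L.neg`, `Esw E`, index set `T`, bundles `Esw (F j)` with window `[s j, s' j]` and weight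
`w a = dA (F j) a / |F j|` on `A (F j)` (`= dB (Esw (F j)) a / ..`).  `ms (Esw (F j)) w p = |{e ∈ F j : p e.1}|/|F j|`.
Value: `F' = {e ∈ F j : p e.1}`, `Dens`: `|F'| ≤ P (|A F'|+|B F'|) nu F'` and `QA (|A F j|+|B F j|) ≤ rho |F j|`, so
`nu F' ≥ mass * QA/(P rho)`; mass `≥ 1/100` gives `≥ u`, mass `≥ 1/8` gives `≥ 2u` since `u ≤ QA/(100 P rho)`.
`TSep` holds because the sets `A (F i)`, `A (F j)` are completely separated at `t0`. -/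
def StmtNodesA : Prop := ∀ (ι : Type) (L : Lines ι) (E : Finset (ι × ι)) (t0 t1 : ℝ)
  (T : Finset ℕ) (s s' : ℕ → ℝ) (F : ℕ → Finset (ι × ι)) (QA QB P rho N u : ℝ),
  Wins L E t0 t1 T s s' F → 0 < QA → QA ≤ QB → 1 ≤ P → 1 ≤ rho → (L.nu E : ℝ) ≤ N → 0 < u →
  u ≤ QA / (100 * P * rho) → (∀ j ∈ T, Dens L P (F j)) → (∀ j ∈ T, Reg QA QB rho (F j)) →
  (∀ j ∈ T, ∀ a ∈ A (F j), Fr L.neg (Esw E) t0 t1 u a) →
  (∀ i ∈ T, ∀ j ∈ T, i ≠ j → (∀ x ∈ A (F i), ∀ y ∈ A (F j), L.H x t0 < L.H y t0) ∨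
    (∀ x ∈ A (F i), ∀ y ∈ A (F j), L.H y t0 < L.H x t0)) →
  (T.card : ℝ) ≤ 3 * (N / u + 1) ^ 2

/-! ## Part 5: Theorem F -/

/-- THEOREM F.  Both sides frozen: the number of dense windows is polynomially bounded.  Uses `StmtPick`,
`StmtNodeCount`, `StmtNodesA`.
Proof.  `X = A (T.biUnion F)`, `r x = |{y ∈ X : H y t0 < H x t0}| < |X| ≤ 2^D`; `r` is injective on `X` by `Gen`, and
`r x ≤ r y ↔ H x t0 ≤ H y t0`.  `StmtPick` for every `j ∈ T`: `(d_j, i_j, F' j)`, `rho' = 3 (D+1) rho`.  For some `d ≤ D` the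
set `T_d = {j : d_j = d}` has `|T| ≤ (D+1) |T_d|`.  For every `i` the set `{j ∈ T_d : i_j = i}` satisfies `NodeWins`
with `F'`, `c = cut D d i`, `rho'` (`uA4 QA P rho' D = QA/(480000 (D+1)² P rho) ≥ QA/Lam`,
`uB4 QB P rho' = QB/(9216000000 (D+1)² P rho²) ≥ QB/Lam`, degrees only decrease, `Wins.restrict`), so it has at most `m₂`
elements (`StmtNodeCount`).  Choose one `j` for every value `i_j`: for different values the sets `A (F' j)` are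
separated at `t0` (`r a / 2^(D-d) = i`), `StmtNodesA` with `u = uA4 QA P rho' D` bounds their number by
`3 (N/uA4+1)²`.  So `|T| ≤ (D+1) * 3 (N/uA4+1)² * m₂`.  With `x = N Lam ≥ 1`: `N/uA4 ≤ x`, `N/uB4 ≤ x`,
`QB/QA ≤ x`, `(x+1)² ≤ 4x²`, `m₂ ≤ (2400 x³+1)(12x²+1) ≤ 2401*13 x⁵`, total `≤ 12*2401*13 (D+1) x⁷`. -/
def StmtF : Prop := ∀ (ι : Type) (L : Lines ι) (E : Finset (ι × ι)) (t0 t1 : ℝ)
  (T : Finset ℕ) (s s' : ℕ → ℝ) (F : ℕ → Finset (ι × ι)) (D : ℕ) (QA QB P rho N Lam : ℝ),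
  Wins L E t0 t1 T s s' F → 1 ≤ QA → QA ≤ QB → 1 ≤ P → 1 ≤ rho → (L.nu E : ℝ) ≤ N → 1 ≤ N →
  10 ^ 10 * (D + 1) ^ 2 * P * rho ^ 2 ≤ Lam → QB ≤ N * Lam → (A (T.biUnion F)).card ≤ 2 ^ D →
  (∀ j ∈ T, ∀ a, (dA (F j) a : ℝ) ≤ 2 * QA) →
  (∀ j ∈ T, Dens L P (F j)) → (∀ j ∈ T, Reg QA QB rho (F j)) →
  (∀ j ∈ T, ∀ a ∈ A (F j), Fr L.neg (Esw E) t0 t1 (QA / Lam) a) →
  (∀ j ∈ T, ∀ b ∈ B (F j), Fr L E t0 t1 (QB / Lam) b) →
  (T.card : ℝ) ≤ 400000 * (D + 1) * (N * Lam) ^ 7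

/-! ## Part 6: windows, regularisation, frozen edges -/

/-- THE CLOCK.
Proof.  Let `τ_0 < ... < τ_{q-1}` be the distinct values of `et L e`, `e ∈ E`.  `idx e` = the index of `et L e`.
`θ j` for `1 ≤ j ≤ q-1` is a time strictly between `τ_{j-1}` and `τ_j`, `θ 0 < τ_0`, `θ j = θ q > τ_{q-1}` for
`j ≥ q`, all outside the finite set of the meeting times `tm x y`, `x ≠ y ∈ A E ∪ B E` (generic by `eq_iff`,
`inj`).  `few`: the edges with the same time are pairwise separated: `e ≠ f` with `et L e = et L f = t`.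
If `H e.1 t = H f.1 t` then: if `e.1 = f.1` then `e.2 ≠ f.2` and `tm e.1 e.2 = tm e.1 f.2` contradicts `gp`; if `e.1 ≠ f.1`
then `tm e.1 f.1 = t = tm e.1 e.2` and `e.2 ≠ f.1` (`sep`: `v e.1 < v e.2`, all slow lines are slower than all fast
lines, so `A E`, `B E` are disjoint), against `gp`.  So the heights differ, and at time `t` both lines of one edge
are below both lines of the other (`H e.1 t = H e.2 t`). -/
def StmtClock : Prop := ∀ (ι : Type) (L : Lines ι) (E : Finset (ι × ι)), Inst L E →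
  ∃ (θ : ℕ → ℝ) (idx : ι × ι → ℕ) (q : ℕ), Clock L E (L.nu E) θ idx q

/-- REGULARISATION (pigeonhole), scales `0 ≤ i ≤ I`, windows of length `Lw^i`.
Proof.  For `e ∈ E`, `i ≤ I`: `α_i(e) = log₂ |{f ∈ E : f.1 = e.1, idx f / Lw^i = idx e / Lw^i}|`, `β_i(e)` the same with
`f.2 = e.2`; all values are `< Z`.  The vector `(α_0,β_0,...,α_I,β_I)` has at most `Z^(2(I+1))` values, let `E'` be the largest
fibre and `qA i`, `qB i` its values.  First items: the sets are contained in the ones for `E`, whose size is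
`< 2^(α+1)` (if the set for `E'` is empty there is nothing to prove).  `act`: the sets
`{f ∈ E : f.1 = a, idx f / Lw^i = w}` for different `(a,w)` are disjoint and have `≥ 2^(qA i)` elements if
`(a,w)` comes from an `e ∈ E'`.  Monotone: for `e ∈ E'` the window of scale `i+1` contains the one of scale `i`
(`Nat.div_div_eq_div_mul`, `pow_succ`). -/
def StmtRegul : Prop := ∀ (ι : Type) (E : Finset (ι × ι)) (idx : ι × ι → ℕ) (I Z Lw : ℕ),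
  E.Nonempty → 1 ≤ Lw → 1 ≤ Z →
  (∀ i ≤ I, ∀ w, (E.filter (fun e => idx e / Lw ^ i = w)).card < 2 ^ Z) →
  ∃ (E' : Finset (ι × ι)) (qA qB : ℕ → ℕ), E' ⊆ E ∧ E'.Nonempty ∧
    E.card ≤ Z ^ (2 * (I + 1)) * E'.card ∧
    (∀ i ≤ I, ∀ a w, (E'.filter (fun e => e.1 = a ∧ idx e / Lw ^ i = w)).card ≤ 2 * 2 ^ qA i) ∧
    (∀ i ≤ I, ∀ b w, (E'.filter (fun e => e.2 = b ∧ idx e / Lw ^ i = w)).card ≤ 2 * 2 ^ qB i) ∧
    (∀ i ≤ I, 2 ^ qA i * (E'.image (fun e => (e.1, idx e / Lw ^ i))).card ≤ E.card) ∧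
    (∀ i ≤ I, 2 ^ qB i * (E'.image (fun e => (e.2, idx e / Lw ^ i))).card ≤ E.card) ∧
    (∀ i < I, qA i ≤ qA (i + 1) ∧ qB i ≤ qB (i + 1))

/-- FROZEN EDGES.  Windows `[θ (w M), θ ((w+1) M)]`.
Proof.  Fix `b ∈ B E'`.  Bad windows of type `V`: `lV (θ((w+1)M)) b ≥ lV (θ(wM)) b + u`; the intervals are consecutive and
`lV` is monotone with values in `[0,N]` (`lV_mono`, `lV_le`), so there are at most `N/u` of them (telescoping sum over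
`w < W`); type `W` the same.  So at most `2N/u` bad windows, each with at most `dm` edges of `b`. -/
def StmtFroz : Prop := ∀ (ι : Type) (L : Lines ι) (E' : Finset (ι × ι)) (θ : ℕ → ℝ)
  (idx : ι × ι → ℕ) (M : ℕ) (u N dm : ℝ), Inst L E' → Monotone θ → 0 < u → 0 ≤ dm →
  (L.nu E' : ℝ) ≤ N →
  (∀ b w, ((E'.filter (fun e => e.2 = b ∧ idx e / M = w)).card : ℝ) ≤ dm) →
  ((E'.filter (fun e => ¬ Fr L E' (θ (idx e / M * M)) (θ ((idx e / M + 1) * M)) u e.2)).card : ℝ) ≤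
    2 * N / u * dm * (B E').card

/-- MANY DENSE WINDOWS IN ONE LONG WINDOW.
Proof.  For `w ∈ ℕ` let `F_w = {e ∈ Eg : idx e / M = w}`.  `∑_w (QA |A F_w| + QB |B F_w|) = QA |image| + QB |image|
≤ 2 |E| ≤ 4 lam |Eg|`.  The windows with `F_w ≠ ∅` violating `Reg QA QB (8 lam)` carry at most `4 lam |Eg| / (8 lam) =
|Eg|/2` edges.  `|F_w| ≤ N M` (at most `M` values of `idx`, each `≤ N` edges), so there are `≥ |Eg|/(2NM)` good windows.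
All `w` are `< q/M + 1`, the number of values `w / Lw` is `≤ q/(M Lw) + 1 ≤ |E|/(M Lw) + 1 ≤ 2|E|/(M Lw)` (`q ≤ |E|` by
`ne`).  So some value `J` has `≥ |Eg| Lw / (4 N |E|) ≥ Lw/(8 lam N)` good windows (`|E| ≤ 2 lam |Eg|`). -/
def StmtDenseJ : Prop := ∀ (ι : Type) (E Eg : Finset (ι × ι)) (idx : ι × ι → ℕ)
  (N q M Lw lam : ℕ) (QA QB : ℝ), 1 ≤ M → 1 ≤ Lw → 1 ≤ N → 1 ≤ lam → 0 < QA → 0 < QB →
  Eg ⊆ E → Eg.Nonempty → (∀ e ∈ E, idx e < q) →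
  (∀ j < q, (E.filter (fun e => idx e = j)).Nonempty) →
  (∀ j, (E.filter (fun e => idx e = j)).card ≤ N) → M * Lw ≤ E.card →
  E.card ≤ 2 * lam * Eg.card →
  QA * (Eg.image (fun e => (e.1, idx e / M))).card ≤ E.card →
  QB * (Eg.image (fun e => (e.2, idx e / M))).card ≤ E.card →
  ∃ (J : ℕ) (T : Finset ℕ), (∀ w ∈ T, w / Lw = J) ∧
    (∀ w ∈ T, (Eg.filter (fun e => idx e / M = w)).Nonempty ∧
      Reg QA QB (8 * lam) (Eg.filter (fun e => idx e / M = w))) ∧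
    (Lw : ℝ) ≤ 8 * lam * N * T.card

/-! ## Part 7: one step of the scale -/

/-- the situation after the regularisation -/
structure Top {ι : Type} (L : Lines ι) (E E' : Finset (ι × ι)) (θ : ℕ → ℝ) (idx : ι × ι → ℕ)
    (q : ℕ) (qA qB : ℕ → ℕ) (N I Z Lw lam g : ℕ) (P Lam : ℝ) : Prop where
  inst : Inst L E
  clk : Clock L E N θ idx q
  N1 : 1 ≤ N
  Lw1 : 1 ≤ Lw
  lam1 : 1 ≤ lam
  P1 : 1 ≤ P
  nuE : L.nu E ≤ N
  sub : E' ⊆ E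
  ne : E'.Nonempty
  card : E.card ≤ lam * E'.card
  degA : ∀ i ≤ I, ∀ a w, (E'.filter (fun e => e.1 = a ∧ idx e / Lw ^ i = w)).card ≤ 2 * 2 ^ qA i
  degB : ∀ i ≤ I, ∀ b w, (E'.filter (fun e => e.2 = b ∧ idx e / Lw ^ i = w)).card ≤ 2 * 2 ^ qB i
  actA : ∀ i ≤ I, 2 ^ qA i * (E'.image (fun e => (e.1, idx e / Lw ^ i))).card ≤ E.card
  actB : ∀ i ≤ I, 2 ^ qB i * (E'.image (fun e => (e.2, idx e / Lw ^ i))).card ≤ E.card
  monoA : ∀ i < I, qA i ≤ qA (i + 1)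
  monoB : ∀ i < I, qB i ≤ qB (i + 1)
  dens : ∀ i ≤ I, ∀ w, Dens L P (E'.filter (fun e => idx e / Lw ^ i = w))
  small : ∀ i ≤ I, ∀ w, (E'.filter (fun e => idx e / Lw ^ i = w)).card ≤ 2 ^ Z
  big : Lw ^ I ≤ E.card
  many : 16 * (N : ℝ) * Lam * 2 ^ g * ((A E).card + (B E).card) ≤ (E'.card : ℝ)
  hLam : 10 ^ 10 * ((Z : ℝ) + 1) ^ 2 * P * (8 * lam) ^ 2 ≤ Lam
  hLw : 400000 * ((Z : ℝ) + 1) * (N * Lam) ^ 7 * (8 * lam * N) < Lw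

/-- SYMMETRY.  Proof.  `Inst.neg`, `Clock.neg`, `nu_neg`, `Esw_filter`, `Dens_Esw`, `A_Esw`, `B_Esw`, `card_Esw`; the
image of `Esw E'` under `e ↦ (e.1, idx e.swap / M)` is the image of `E'` under `e ↦ (e.2, idx e / M)`. -/
def StmtTopNeg : Prop := ∀ (ι : Type) (L : Lines ι) (E E' : Finset (ι × ι)) (θ : ℕ → ℝ)
  (idx : ι × ι → ℕ) (q : ℕ) (qA qB : ℕ → ℕ) (N I Z Lw lam g : ℕ) (P Lam : ℝ),
  Top L E E' θ idx q qA qB N I Z Lw lam g P Lam →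
  Top L.neg (Esw E) (Esw E') θ (fun e => idx e.swap) q qB qA N I Z Lw lam g P Lam

/-- WINDOWS FOR ONE STEP.  Uses `StmtDenseJ`.  From a large set `Eg` of good edges we get one long window
`[t0,t1]` of scale `i+1` and many dense windows of scale `i` in it.
Proof.  `StmtDenseJ` with `M = Lw^i`, `QA = 2^(qA i)`, `QB = 2^(qB i)` (`M Lw = Lw^(i+1) ≤ Lw^I ≤ |E|`;
`|E| ≤ lam |E'| ≤ 2 lam |Eg|`; images of `Eg` are contained in the images of `E'`), `clk`.  `s w = θ (w Lw^i)`,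
`s' w = θ ((w+1) Lw^i)`, `t0 = θ (J Lw^(i+1))`, `t1 = θ ((J+1) Lw^(i+1))`: for `w / Lw = J`: `J Lw ≤ w`,
`w + 1 ≤ (J+1) Lw`.  Edges with `idx e / Lw^i = w`: `w Lw^i ≤ idx e`, `idx e + 1 ≤ (w+1) Lw^i`.  The windows are for the instance
`E'` (labels are computed in `E'`): `Inst L E'`, `Gen` on `A E' ∪ B E' ⊆ A E ∪ B E`. -/
def StmtStepWins : Prop := ∀ (ι : Type) (L : Lines ι) (E E' : Finset (ι × ι)) (θ : ℕ → ℝ)
  (idx : ι × ι → ℕ) (q : ℕ) (qA qB : ℕ → ℕ) (N I Z Lw lam g : ℕ) (P Lam : ℝ),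
  Top L E E' θ idx q qA qB N I Z Lw lam g P Lam → ∀ i < I, ∀ Eg ⊆ E', E'.card ≤ 2 * Eg.card →
  ∃ (J : ℕ) (T : Finset ℕ),
    Wins L E' (θ (J * Lw ^ (i + 1))) (θ ((J + 1) * Lw ^ (i + 1))) T (fun w => θ (w * Lw ^ i))
      (fun w => θ ((w + 1) * Lw ^ i)) (fun w => Eg.filter (fun e => idx e / Lw ^ i = w)) ∧
    (∀ w ∈ T, w / Lw = J) ∧
    (∀ w ∈ T, Reg (2 ^ qA i) (2 ^ qB i) (8 * lam) (Eg.filter (fun e => idx e / Lw ^ i = w))) ∧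
    (Lw : ℝ) ≤ 8 * lam * N * T.card

/-- THE FAST SIDE IS FLAT.  Uses `StmtStepWins`, `StmtFroz`, `StmtV`.
Proof.  `u = 2^(qB i) / Lam`, `Eg = {e ∈ E' : Fr L E' (θ(w M)) (θ((w+1) M)) u e.2}` with `M = Lw^(i+1)`,
`w = idx e / M`.  `StmtFroz` (`dm = 2 * 2^(qB(i+1)) ≤ 2 * 2^g * 2^(qB i)`): the complement has at most
`2 N Lam / 2^(qB i) * 2 * 2^g * 2^(qB i) * |B E'| = 4 N Lam 2^g |B E| ≤ |E'|/2` edges.  `StmtStepWins`; the lines of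
`B (F w)` are frozen over `[t0,t1]` (`idx e / Lw^(i+1) = (idx e / Lw^i) / Lw = J`) with
`u ≤ QB/(800 P rho)`, `rho = 8 lam`.  `StmtV` with `x = N/(QB/(800 P rho)) ≤ N Lam`:
`(2x+1) 3 (x+1)² ≤ 36 (N Lam)³ ≤ |T|` as `|T| ≥ Lw/(8 lam N) > 400000 (N Lam)^7`. -/
def StmtStepV : Prop := ∀ (ι : Type) (L : Lines ι) (E E' : Finset (ι × ι)) (θ : ℕ → ℝ)
  (idx : ι × ι → ℕ) (q : ℕ) (qA qB : ℕ → ℕ) (N I Z Lw lam g : ℕ) (P Lam : ℝ),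
  Top L E E' θ idx q qA qB N I Z Lw lam g P Lam → ∀ i < I, qB (i + 1) ≤ qB i + g →
  (2 : ℝ) ^ qA i ≤ 13000 * P * (8 * lam) ^ 2 * N

/-- BOTH SIDES CANNOT BE FLAT.  Uses `StmtStepWins`, `StmtFroz`, `StmtStepV`, `StmtF`, `StmtTopNeg`.
Proof.  By `StmtTopNeg` assume `qA i ≤ qB i`.  `Eg` = edges of `E'` whose both lines are frozen over their window of scale
`i+1` (fast line: `Fr L E'` with `2^(qB i)/Lam`, slow line: `Fr L.neg (Esw E')` with `2^(qA i)/Lam`): the complement has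
at most `4 N Lam 2^g (|A E| + |B E|) ≤ |E'|/2` edges (`StmtFroz` twice, the second time for `L.neg`, `Esw E'`).
`StmtStepWins`, then `StmtF` with `D = Z`, `rho = 8 lam`: `QB ≤ 13000 P (8 lam)² N ≤ N Lam` by `StmtStepV` for `L.neg`
(the slow side is flat); `|A (T.biUnion F)| ≤` number of edges of `E'` in the window of scale `i+1` `≤ 2^Z`.
`StmtF`: `|T| ≤ 400000 (Z+1) (N Lam)^7`, but `|T| ≥ Lw/(8 lam N)`: contradiction to `hLw`. -/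
def StmtStepF : Prop := ∀ (ι : Type) (L : Lines ι) (E E' : Finset (ι × ι)) (θ : ℕ → ℝ)
  (idx : ι × ι → ℕ) (q : ℕ) (qA qB : ℕ → ℕ) (N I Z Lw lam g : ℕ) (P Lam : ℝ),
  Top L E E' θ idx q qA qB N I Z Lw lam g P Lam → ∀ i < I, qA (i + 1) ≤ qA i + g →
  qB (i + 1) ≤ qB i + g → False

/-- MINIMUM OF THE DEGREES at every scale.  Uses `StmtMin`, `StmtStepWins` (with `Eg = E'`) or a direct sum over
the windows.
Proof.  `i < I`: `StmtStepWins` with `Eg = E'` gives a window `w ∈ T` (`T` is nonempty because `0 < Lw`) with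
`Reg (2^qA i) (2^qB i) (8 lam)`; `StmtMin`: `min ≤ P (8 lam) N`. -/
def StmtStepMin : Prop := ∀ (ι : Type) (L : Lines ι) (E E' : Finset (ι × ι)) (θ : ℕ → ℝ)
  (idx : ι × ι → ℕ) (q : ℕ) (qA qB : ℕ → ℕ) (N I Z Lw lam g : ℕ) (P Lam : ℝ),
  Top L E E' θ idx q qA qB N I Z Lw lam g P Lam → ∀ i < I,
  min ((2 : ℝ) ^ qA i) (2 ^ qB i) ≤ P * (8 * lam) * N

/-- COUNTING THE SCALES (pure combinatorics).
Proof.  Suppose `3 s + 3 ≤ I`.  By `hmin` at `i = I - 1` one of `qA (I-1)`, `qB (I-1)` is `≤ c`, say `qA (I-1) ≤ c` (the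
hypotheses are symmetric).  A step `i < I-1` with `qA (i+1) > qA i + g` increases `qA` by at least `g+1`, so there
are at most `s` such steps (`(s+1)(g+1) > c`).  So there is `i₀` with `I - 2 - s ≤ i₀ ≤ I - 2` and
`qA (i₀+1) ≤ qA i₀ + g`; by `hA`, `qB i₀ ≤ c`, so at most `s` steps `i < i₀` have `qB (i+1) > qB i + g`.  By `hF`
every step `i < i₀` is of one of the two kinds, so `i₀ ≤ 2 s`, hence `I ≤ 3 s + 2`. -/
def StmtScales : Prop := ∀ (qA qB : ℕ → ℕ) (I g c s : ℕ),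
  (∀ i < I, qA i ≤ qA (i + 1) ∧ qB i ≤ qB (i + 1)) → (∀ i < I, min (qA i) (qB i) ≤ c) →
  (∀ i < I, qB (i + 1) ≤ qB i + g → qA i ≤ c) → (∀ i < I, qA (i + 1) ≤ qA i + g → qB i ≤ c) →
  (∀ i < I, qA (i + 1) ≤ qA i + g → qB (i + 1) ≤ qB i + g → False) → c < (s + 1) * (g + 1) →
  I ≤ 3 * s + 2

/-- NO SUCH SITUATION.  Uses `StmtStepV`, `StmtStepF`, `StmtStepMin`, `StmtTopNeg`, `StmtScales`.
Proof.  `13000 P (8 lam)² N ≤ 2^c` turns the bounds into `qA i ≤ c` etc.; `StmtScales` gives `I ≤ 3s+2`. -/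
def StmtNoTop : Prop := ∀ (ι : Type) (L : Lines ι) (E E' : Finset (ι × ι)) (θ : ℕ → ℝ)
  (idx : ι × ι → ℕ) (q : ℕ) (qA qB : ℕ → ℕ) (N I Z Lw lam g c s : ℕ) (P Lam : ℝ),
  Top L E E' θ idx q qA qB N I Z Lw lam g P Lam → 13000 * P * (8 * lam) ^ 2 * N ≤ 2 ^ c →
  c < (s + 1) * (g + 1) → I = 3 * s + 3 → False

/-! ## Part 8: parameters and the final theorems -/

/-- PARAMETERS (analysis).
Proof.  `s = ⌈8/ε⌉`, `I = 3s+3`, `η = ε/(100 (9I+2))` (so `η ≤ 1`).  For `N` large put `Lw = N^9`, `Z = log₂(N Lw^I) + 1`,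
`lam = Z^(2(I+1))`, `P = C (2 N Lw^I)^η ≤ 2 C N^(ε/100)`, `Lam = 10^10 (Z+1)² P (8 lam)² ≤ N^(ε/50)`,
`g = ⌊(ε/2) log₂ N⌋`, `c = ⌈log₂(13000 P (8 lam)² N)⌉ ≤ (1 + ε/20) log₂ N`.  All powers of `Z` are `N^o(1)`.
`(s+1)(g+1) ≥ (8/ε)(ε/2) log₂ N = 4 log₂ N > c`.  `400000 (Z+1) (N Lam)^7 8 lam N ≤ N^(8 + 7ε/50 + o(1)) < N^9`.
`16 N Lam 2^g lam ≤ N^(1 + ε/50 + ε/2 + o(1)) ≤ N^(1+ε)`. -/
def StmtParamQ : Prop := ∀ ε : ℝ, 0 < ε → ε ≤ 1 → ∃ (s : ℕ) (η : ℝ), 0 < η ∧ η ≤ 1 ∧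
  ∀ C : ℝ, 1 ≤ C → ∃ N₀ : ℕ, 1 ≤ N₀ ∧ ∀ N : ℕ, N₀ ≤ N → ∃ (Z Lw g c : ℕ) (P Lam : ℝ),
    1 ≤ Z ∧ 1 ≤ Lw ∧ 1 ≤ P ∧ N * Lw ^ (3 * s + 3) < 2 ^ Z ∧
    C * (2 * (N : ℝ) * Lw ^ (3 * s + 3)) ^ η ≤ P ∧ P ≤ (N : ℝ) ^ ε ∧
    10 ^ 10 * ((Z : ℝ) + 1) ^ 2 * P * (8 * (Z : ℝ) ^ (2 * (3 * s + 3 + 1))) ^ 2 ≤ Lam ∧
    400000 * ((Z : ℝ) + 1) * (N * Lam) ^ 7 * (8 * (Z : ℝ) ^ (2 * (3 * s + 3 + 1)) * N) < Lw ∧
    13000 * P * (8 * (Z : ℝ) ^ (2 * (3 * s + 3 + 1))) ^ 2 * N ≤ 2 ^ c ∧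
    c < (s + 1) * (g + 1) ∧
    16 * (N : ℝ) * Lam * 2 ^ g * (Z : ℝ) ^ (2 * (3 * s + 3 + 1)) ≤ (N : ℝ) ^ (1 + ε)

/-- SEPARATED CASE.  Uses `StmtSep` (landed: `Pool.Agent.GG38` , file Assembly), `StmtClock`, `StmtRegul`, `StmtParamQ`,
`StmtNoTop`.
Proof.  `s, η` from `StmtParamQ`, `C` from `StmtSep` for `η`, then `N₀`; `I = 3s+3`, `lam = Z^(2(I+1))`.  Suppose
`|E| > N^(1+ε) (|A|+|B|)`.  DENSITY: every `F ⊆ E` with `|F| ≤ N Lw^I` satisfies `|A F ∪ B F| ≤ 2|F| ≤ 2 N Lw^I`, so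
`StmtSep` gives `|F| ≤ C |A F ∪ B F|^(1+η) nu F ≤ P (|A F|+|B F|) nu F`.  If `|E| < Lw^I` then
`|E| ≤ P (|A|+|B|) N ≤ N^(1+ε) (|A|+|B|)`, contradiction; so `Lw^I ≤ |E|`.  `StmtClock` (`few` with `nu E ≤ N`): every window of scale
`i ≤ I` has at most `N Lw^i ≤ N Lw^I < 2^Z` edges.  `StmtRegul` gives `E', qA, qB`; `|E'| ≥ |E|/lam ≥ 16 N Lam 2^g (|A|+|B|)`.  So
`Top` holds, contradiction to `StmtNoTop`. -/
def StmtSepQ : Prop := ∀ ε : ℝ, 0 < ε → ε ≤ 1 → ∃ N₀ : ℕ, 1 ≤ N₀ ∧ ∀ N : ℕ, N₀ ≤ N →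
  ∀ (ι : Type) (L : Lines ι) (E : Finset (ι × ι)), Inst L E → L.nu E ≤ N →
  (E.card : ℝ) ≤ (N : ℝ) ^ (1 + ε) * ((A E).card + (B E).card)

/-- HALVING.  Uses `StmtSepQ`.  The proof of `halving` (file Halving.lean) with small changes.
Proof.  `C₀ = N₀^(1+ε)`: every separated instance satisfies `|E| ≤ C₀ nu(E)^(1+ε) (|A|+|B|)` (if `E = ∅` trivial; else
`nu ≥ 1`, `N = max N₀ nu`), and `|A|+|B| = |A ∪ B| ≤ |V|`.  `C = 3 C₀`, strong induction on `|V|`: `E₁, E₂, E₃` as in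
`halving`: `|E₃| ≤ C₀ nu^(1+ε) n`, `|E₁|+|E₂| ≤ C (2n/3) (nu₁^(1+ε) + nu₂^(1+ε)) ≤ C (2n/3) nu^(1+ε)` because
`nu₁ + nu₂ ≤ nu`. -/
def StmtHalvQ : Prop := ∀ ε : ℝ, 0 < ε → ε ≤ 1 → ∃ C : ℝ, 1 ≤ C ∧
  ∀ (ι : Type) (L : Lines ι) (V : Finset ι) (E : Finset (ι × ι)), Set.InjOn L.v V →
    (∀ x ∈ V, ∀ y ∈ V, ∀ z ∈ V, x ≠ y → x ≠ z → y ≠ z → L.tm x y ≠ L.tm x z) →
    (∀ p ∈ E, p.1 ∈ V ∧ p.2 ∈ V ∧ L.v p.1 < L.v p.2) →
    (E.card : ℝ) ≤ C * (L.nu E : ℝ) ^ (1 + ε) * V.card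

end

end Pool.Agent.GG38.Q
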