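import Pool.Agent.Lib.MP_38fd99_co.Q.T3
import Pool.Agent.Lib.MP_38fd99_co.Q.Spec

/-!
# MP_38fd99_co, full Q1: the statements of Part 1
-/

set_option autoImplicit false

namespace Pool.Agent.GG38.Q

open Finset Classical

theorem stmtT3 : StmtT3 := fun ι L E t0 t1 u N κ K s s' F w hI h0 h1 hu hN hb hT =>
  t3 L E t0 t1 u N κ K s s' F w hI h0 h1 hu hN hb hT

theorem stmtMidMass : StmtMidMass := by
  intro ι L E t0 t1 u s s' F w hI h
  have h1 := h.toBun.mass_M (fun e he => fst_lt hI he)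
  refine h1.trans ?_
  rw [ms_filter]
  apply Finset.sum_le_sum_of_subset_of_nonneg
  · intro x hx
    have hx' := hx
    rw [Bun.mem_M] at hx'
    rw [Finset.mem_filter]
    have e1 : h.toBun.low x = ms F w (fun z => L.H z t0 ≤ L.H x t0) := by
      rw [ms_filter]
      rfl
    have e2 : h.toBun.up x = ms F w (fun z => L.H x t0 ≤ L.H z t0) := by
      rw [ms_filter]
      rfl
    have e3 : ms F w (fun z => L.H z t0 < L.H x t0 ∧ L.H x t1 < L.H z t1) ≤ h.toBun.ovb x := by
      have e4 : h.toBun.ovb x = ms F w (fun z => L.H z t0 ≤ L.H x t0 ∧ L.H x t1 < L.H z t1) := by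
        rw [ms_filter]
        unfold Bun.ovb
        apply Finset.sum_congr _ (fun _ _ => rfl)
        ext z
        simp only [Finset.mem_filter]
        rfl
      rw [e4]
      exact ms_mono h.w0 (fun z _ hz => ⟨hz.1.le, hz.2⟩)
    rw [e1, e2] at hx'
    exact ⟨hx'.1, hx'.1, hx'.2.1, hx'.2.2.1, lt_of_le_of_lt e3 hx'.2.2.2⟩
  · intro x _ _
    exact h.w0 x

theorem stmtMidOrd : StmtMidOrd := by
  intro ι L E t0 t1 u s s' F w r r' F' w' hI g0 h h' hT t ht0 ht1 z hz x hx
  refine h'.toBun.M_le h.toBun (fun e he => fst_lt hI he) ?_ ((toBun_M h' g0 z).2 hz)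
    ((toBun_M h g0 x).2 hx) ht0 ht1
  intro a ha b hb
  exact hT a ((toBun_T h' a).1 ha) b ((toBun_T h b).1 hb)

end Pool.Agent.GG38.Q
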