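import Pool.Agent.Lib.MP_38fd99_co.Q.Spec

/-!
# MP_38fd99_co, full Q1: the symmetry of the structure `Top`
-/

set_option autoImplicit false

namespace Pool.Agent.GG38.Q

open Finset Classical

namespace TopNegM

variable {ι : Type}

theorem filt (E : Finset (ι × ι)) (idx : ι × ι → ℕ) (M w : ℕ) :
    (Esw E).filter (fun e => idx e.swap / M = w) = Esw (E.filter (fun e => idx e / M = w)) := by
  ext e
  rw [Finset.mem_filter, mem_Esw', mem_Esw', Finset.mem_filter]

theorem filt1 (E : Finset (ι × ι)) (idx : ι × ι → ℕ) (M w : ℕ) (a : ι) :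
    (Esw E).filter (fun e => e.1 = a ∧ idx e.swap / M = w) =
      Esw (E.filter (fun e => e.2 = a ∧ idx e / M = w)) := by
  ext e
  rw [Finset.mem_filter, mem_Esw', mem_Esw', Finset.mem_filter, Prod.snd_swap]

theorem filt2 (E : Finset (ι × ι)) (idx : ι × ι → ℕ) (M w : ℕ) (a : ι) :
    (Esw E).filter (fun e => e.2 = a ∧ idx e.swap / M = w) =
      Esw (E.filter (fun e => e.1 = a ∧ idx e / M = w)) := by
  ext e
  rw [Finset.mem_filter, mem_Esw', mem_Esw', Finset.mem_filter, Prod.fst_swap]

theorem im1 (E : Finset (ι × ι)) (idx : ι × ι → ℕ) (M : ℕ) :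
    (Esw E).image (fun e => (e.1, idx e.swap / M)) = E.image (fun e => (e.2, idx e / M)) := by
  ext p
  simp only [Finset.mem_image]
  constructor
  · rintro ⟨e, he, rfl⟩
    exact ⟨e.swap, mem_Esw'.1 he, rfl⟩
  · rintro ⟨e, he, rfl⟩
    refine ⟨e.swap, mem_Esw'.2 (by rwa [Prod.swap_swap]), ?_⟩
    rw [Prod.swap_swap, Prod.fst_swap]

theorem im2 (E : Finset (ι × ι)) (idx : ι × ι → ℕ) (M : ℕ) :
    (Esw E).image (fun e => (e.2, idx e.swap / M)) = E.image (fun e => (e.1, idx e / M)) := by
  ext p
  simp only [Finset.mem_image]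
  constructor
  · rintro ⟨e, he, rfl⟩
    exact ⟨e.swap, mem_Esw'.1 he, rfl⟩
  · rintro ⟨e, he, rfl⟩
    refine ⟨e.swap, mem_Esw'.2 (by rwa [Prod.swap_swap]), ?_⟩
    rw [Prod.swap_swap, Prod.snd_swap]

end TopNegM

open TopNegM in
theorem topNeg : StmtTopNeg := by
  intro ι L E E' θ idx q qA qB N I Z Lw lam g P Lam h
  exact
    { inst := h.inst.neg
      clk := h.clk.neg
      N1 := h.N1
      Lw1 := h.Lw1
      lam1 := h.lam1
      P1 := h.P1
      nuE := by rw [L.nu_neg]; exact h.nuE
      sub := Esw_mono h.sub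
      ne := Esw_nonempty h.ne
      card := by rw [card_Esw, card_Esw]; exact h.card
      degA := fun i hi a w => by
        rw [filt1, card_Esw]
        exact h.degB i hi a w
      degB := fun i hi a w => by
        rw [filt2, card_Esw]
        exact h.degA i hi a w
      actA := fun i hi => by
        rw [im1, card_Esw]
        exact h.actB i hi
      actB := fun i hi => by
        rw [im2, card_Esw]
        exact h.actA i hi
      monoA := h.monoB
      monoB := h.monoA
      dens := fun i hi w => by
        rw [filt]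
        exact Dens_Esw (h.dens i hi w)
      small := fun i hi w => by
        rw [filt, card_Esw]
        exact h.small i hi w
      big := by rw [card_Esw]; exact h.big
      many := by
        rw [card_Esw, A_Esw, B_Esw, add_comm ((B E).card : ℝ)]
        exact h.many
      hLam := h.hLam
      hLw := h.hLw }

end Pool.Agent.GG38.Q
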