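import Pool.Agent.Lib.MP_38fd99_co.Q.VLa
import Pool.Agent.Lib.MP_38fd99_co.Q.Spec

/-!
# MP_38fd99_co, full Q1: the value lemma
-/

set_option autoImplicit false

namespace Pool.Agent.GG38.Q

open Finset Classical

variable {ι : Type}

/-- normalised degrees -/
noncomputable def dwV (F : Finset (ι × ι)) (b : ι) : ℝ := (dB F b : ℝ) / F.card

theorem card_filter_snd (F : Finset (ι × ι)) (p : ι → Prop) :
    (F.filter (fun e => p e.2)).card = ∑ b ∈ B F, if p b then dB F b else 0 := by
  have h1 : (F.filter (fun e => p e.2)).card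
      = ∑ b ∈ B F, ((F.filter (fun e => p e.2)).filter (fun e => e.2 = b)).card := by
    apply Finset.card_eq_sum_card_fiberwise
    intro e he
    exact Finset.mem_coe.2 (snd_mem_B (Finset.mem_filter.1 (Finset.mem_coe.1 he)).1)
  rw [h1]
  apply Finset.sum_congr rfl
  intro b _
  unfold dB
  split_ifs with hb
  · congr 1
    ext e
    simp only [Finset.mem_filter]
    constructor
    · rintro ⟨⟨h2, _⟩, h3⟩
      exact ⟨h2, h3⟩
    · rintro ⟨h2, h3⟩
      exact ⟨⟨h2, by rw [h3]; exact hb⟩, h3⟩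
  · rw [Finset.card_eq_zero]
    ext e
    simp only [Finset.mem_filter, Finset.notMem_empty, iff_false, not_and]
    rintro ⟨_, h2⟩ h3
    rw [h3] at h2
    exact hb h2

theorem card_filter_mem (F : Finset (ι × ι)) (S : Finset ι) :
    (F.filter (fun e => e.2 ∈ S)).card = ∑ b ∈ S, dB F b := by
  have h1 : (F.filter (fun e => e.2 ∈ S)).card
      = ∑ b ∈ S, ((F.filter (fun e => e.2 ∈ S)).filter (fun e => e.2 = b)).card := by
    apply Finset.card_eq_sum_card_fiberwise
    intro e he
    exact Finset.mem_coe.2 (Finset.mem_filter.1 (Finset.mem_coe.1 he)).2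
  rw [h1]
  apply Finset.sum_congr rfl
  intro b hb
  unfold dB
  congr 1
  ext e
  simp only [Finset.mem_filter]
  constructor
  · rintro ⟨⟨h2, _⟩, h3⟩
    exact ⟨h2, h3⟩
  · rintro ⟨h2, h3⟩
    exact ⟨⟨h2, by rw [h3]; exact hb⟩, h3⟩

theorem card_eq_sum_dBV (F : Finset (ι × ι)) : F.card = ∑ b ∈ B F, dB F b := by
  have := card_filter_snd F (fun _ => True)
  simpa using this

theorem ms_dwV (F : Finset (ι × ι)) (p : ι → Prop) :
    ms F (dwV F) p = ((F.filter (fun e => p e.2)).card : ℝ) / F.card := by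
  rw [card_filter_snd]
  unfold ms dwV
  push_cast
  rw [Finset.sum_div]
  apply Finset.sum_congr rfl
  intro b _
  split_ifs
  · rfl
  · simp

/-- a bundle with the normalised degrees as weights -/
theorem bundle_deg {L : Lines ι} {E : Finset (ι × ι)} {t0 t1 u s s' Z : ℝ}
    {F : Finset (ι × ι)} (t0s : t0 ≤ s) (ss' : s ≤ s') (s't1 : s' ≤ t1)
    (gs : Gen L (A E ∪ B E) s) (gs' : Gen L (A E ∪ B E) s') (sub : F ⊆ E)
    (tim : ∀ e ∈ F, s ≤ et L e ∧ et L e ≤ s') (hne : F.Nonempty) (hZ0 : 0 < Z)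
    (hZ : ∀ G ⊆ F, (G.card : ℝ) ≤ Z * L.nu G) (hu : 100 * Z * u ≤ F.card)
    (fr : ∀ x ∈ B F, Fr L E t0 t1 u x) : Bundle L E t0 t1 u s s' F (dwV F) := by
  have hF : (0 : ℝ) < F.card := by exact_mod_cast hne.card_pos
  refine
    { t0s := t0s
      ss' := ss'
      s't1 := s't1
      gs := gs
      gs' := gs'
      sub := sub
      tim := tim
      w0 := ?_
      w1 := ?_
      v0 := ?_
      v1 := ?_
      fr := fr }
  · intro x
    unfold dwV
    positivity
  · rw [ms_dwV]
    simp only [Finset.filter_true]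
    exact div_self hF.ne'
  · intro p hp
    rw [ms_dwV, le_div_iff₀ hF] at hp
    have h1 := hZ _ (Finset.filter_subset (fun e : ι × ι => p e.2) F)
    have h2 : Z * (100 * u) ≤ Z * (100 * L.nu (F.filter (fun e => p e.2))) := by nlinarith
    have h3 := le_of_mul_le_mul_left h2 hZ0
    linarith
  · intro p hp
    rw [ms_dwV, le_div_iff₀ hF] at hp
    have h1 := hZ _ (Finset.filter_subset (fun e : ι × ι => p e.2) F)
    have h2 : Z * (100 * u) ≤ Z * (8 * L.nu (F.filter (fun e => p e.2))) := by nlinarith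
    have h3 := le_of_mul_le_mul_left h2 hZ0
    have h4 : (0 : ℝ) ≤ L.nu (F.filter (fun e => p e.2)) := Nat.cast_nonneg _
    by_cases hu0 : 0 ≤ u
    · linarith
    · linarith

/-- three elements of a set of numbers -/
theorem exists_three (N : Finset ℕ) (h : 3 ≤ N.card) :
    ∃ a ∈ N, ∃ b ∈ N, ∃ c ∈ N, a < b ∧ b < c := by
  have hne : N.Nonempty := by
    rw [← Finset.card_pos]
    omega
  have h1 : (N \ {N.min' hne, N.max' hne}).Nonempty := by
    rw [← Finset.card_pos]
    have h2 := Finset.le_card_sdiff ({N.min' hne, N.max' hne} : Finset ℕ) N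
    have h3 : ({N.min' hne, N.max' hne} : Finset ℕ).card ≤ 2 := Finset.card_le_two
    omega
  obtain ⟨b, hb⟩ := h1
  rw [Finset.mem_sdiff, Finset.mem_insert, Finset.mem_singleton, not_or] at hb
  refine ⟨N.min' hne, N.min'_mem hne, b, hb.1, N.max' hne, N.max'_mem hne, ?_, ?_⟩
  · exact lt_of_le_of_ne (N.min'_le b hb.1) (Ne.symm hb.2.1)
  · exact lt_of_le_of_ne (N.le_max' b hb.1) hb.2.2

/-- **Value lemma.** -/
theorem vl : StmtVL := by
  intro ι L E t0 t1 T s s' F QA QB P rho N R hW hQB hP hrho hN hdeg hdens hreg hfr hR hRQ hT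
  set u : ℝ := QB / (800 * P * rho) with hu_def
  have hu : 0 < u := by positivity
  have hI := hW.inst
  have hRr : (1 : ℝ) ≤ R := by exact_mod_cast hR
  have hN0 : (0 : ℝ) ≤ N := (Nat.cast_nonneg _).trans hN
  have hTpos : (0 : ℝ) < T.card := by
    refine lt_of_lt_of_le ?_ hT
    positivity
  -- slots
  let g : ι → ℝ := fun b => L.H b t0
  let d : ℕ → ι → ℝ := fun j b => (dB (F j) b : ℝ)
  let l : ℕ → ℝ := fun j => (F j).card / (2 * R)
  let S : ℕ → ℕ → Finset ι := fun j i => slot (B (F j)) g (d j) (l j) i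
  let Fs : ℕ → ℕ → Finset (ι × ι) := fun j i => (F j).filter (fun e => e.2 ∈ S j i)
  let I : ℕ → Finset ℕ := fun j =>
    (Finset.range (2 * R)).filter (fun i => R * (S j i).card ≤ (B (F j)).card)
  have hd0 : ∀ j, ∀ b ∈ B (F j), 0 ≤ d j b := fun j b _ => Nat.cast_nonneg _
  have hl0 : ∀ j, 0 ≤ l j := fun j => by positivity
  have hgi : ∀ j ∈ T, ∀ b ∈ B (F j), ∀ c ∈ B (F j), g b = g c → b = c := by
    intro j hj b hb c hc hbc
    by_contra hne
    exact hW.g0 b (Finset.mem_union_right _ (B_mono (hW.sub j hj) hb)) c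
      (Finset.mem_union_right _ (B_mono (hW.sub j hj) hc)) hne hbc
  have hsumd : ∀ j, ∑ b ∈ B (F j), d j b = (F j).card := by
    intro j
    have := card_eq_sum_dBV (F j)
    rw [this]
    push_cast
    rfl
  -- the number of edges
  have hA1 : ∀ j ∈ T, (1 : ℝ) ≤ (A (F j)).card := by
    intro j hj
    have : 1 ≤ (A (F j)).card := ((hW.ne j hj).image _).card_pos
    exact_mod_cast this
  have hF8 : ∀ j ∈ T, 8 * QB * R * (A (F j)).card ≤ (F j).card := by
    intro j hj
    have h1 := hreg j hj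
    unfold Reg at h1
    have h2 : (0 : ℝ) ≤ QB * (B (F j)).card := by positivity
    have h3 : 8 * rho * QB * R * (A (F j)).card ≤ QA * (A (F j)).card :=
      mul_le_mul_of_nonneg_right hRQ (by positivity)
    have h4 : rho * (8 * QB * R * (A (F j)).card) ≤ rho * (F j).card := by nlinarith
    exact le_of_mul_le_mul_left h4 (by linarith)
  have hmass : ∀ j ∈ T, ∀ i < 2 * R, ((F j).card : ℝ) ≤ 4 * R * (Fs j i).card := by
    intro j hj i hi
    have h1 := slot_mass (X := B (F j)) (g := g) (d := d j) (D := 2 * QB) (l := l j) (i := i)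
      (hgi j hj) (hd0 j) (fun b _ => hdeg j hj b) (by linarith) (hl0 j) (by
        rw [hsumd j]
        have h2 : (i : ℝ) + 1 ≤ 2 * R := by exact_mod_cast hi
        calc l j * (i + 1) ≤ l j * (2 * R) := mul_le_mul_of_nonneg_left h2 (hl0 j)
          _ = (F j).card := by
            simp only [l]
            field_simp)
    have h2 : ∑ b ∈ slot (B (F j)) g (d j) (l j) i, d j b = (Fs j i).card := by
      have h3 := card_filter_mem (F j) (S j i)
      have h4 : ((Fs j i).card : ℝ) = ((∑ b ∈ S j i, dB (F j) b : ℕ) : ℝ) := by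
        exact_mod_cast h3
      rw [h4]
      push_cast
      rfl
    rw [h2] at h1
    have h3 := hF8 j hj
    have h4 := hA1 j hj
    have h5 : 8 * QB * R ≤ (F j).card := by
      refine le_trans ?_ h3
      have : (0 : ℝ) ≤ 8 * QB * R := by positivity
      nlinarith
    have h6 : 4 * R * l j = 2 * (F j).card := by
      simp only [l]
      field_simp
      ring
    have h7 := mul_le_mul_of_nonneg_left h1 (show (0 : ℝ) ≤ 4 * R by positivity)
    nlinarith
  have hFs0 : ∀ j ∈ T, ∀ i < 2 * R, (Fs j i).Nonempty := by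
    intro j hj i hi
    rw [Finset.nonempty_iff_ne_empty]
    intro h0
    have h1 := hmass j hj i hi
    rw [h0, Finset.card_empty, Nat.cast_zero, mul_zero] at h1
    have h2 : (0 : ℝ) < (F j).card := by exact_mod_cast (hW.ne j hj).card_pos
    linarith
  have hFsS : ∀ j i, B (Fs j i) ⊆ S j i := by
    intro j i b hb
    obtain ⟨a, ha⟩ := mem_B.1 hb
    exact (Finset.mem_filter.1 ha).2
  have hI2 : ∀ j, ∀ i ∈ I j, i < 2 * R := fun j i hi =>
    Finset.mem_range.1 (Finset.mem_filter.1 hi).1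
  -- bundles
  have hbun : ∀ j ∈ T, ∀ i ∈ I j, Bundle L E t0 t1 u (s j) (s' j) (Fs j i) (dwV (Fs j i)) := by
    intro j hj i hi
    have hc := (Finset.mem_filter.1 hi).2
    have hc' : (R : ℝ) * (S j i).card ≤ (B (F j)).card := by exact_mod_cast hc
    apply bundle_deg (Z := P * ((A (F j)).card + (S j i).card)) (hW.t0s j hj) (hW.ss' j hj)
      (hW.s't1 j hj) (hW.gs j hj) (hW.gs' j hj)
      ((Finset.filter_subset _ _).trans (hW.sub j hj))
      (fun e he => hW.tim j hj e (Finset.mem_filter.1 he).1) (hFs0 j hj i (hI2 j i hi))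
    · have := hA1 j hj
      positivity
    · intro G hG
      have h1 := hdens j hj G (hG.trans (Finset.filter_subset _ _))
      refine h1.trans ?_
      apply mul_le_mul_of_nonneg_right _ (Nat.cast_nonneg _)
      apply mul_le_mul_of_nonneg_left _ (by linarith)
      have h2 : (A G).card ≤ (A (F j)).card :=
        Finset.card_le_card (A_mono (hG.trans (Finset.filter_subset _ _)))
      have h3 : (B G).card ≤ (S j i).card :=
        Finset.card_le_card ((B_mono hG).trans (hFsS j i))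
      have h2' : ((A G).card : ℝ) ≤ (A (F j)).card := by exact_mod_cast h2
      have h3' : ((B G).card : ℝ) ≤ (S j i).card := by exact_mod_cast h3
      linarith
    · have h1 := hmass j hj i (hI2 j i hi)
      have h2 := hreg j hj
      unfold Reg at h2
      have h3 : 100 * (P * ((A (F j)).card + (S j i).card)) * u
          = ((A (F j)).card + (S j i).card) * QB / (8 * rho) := by
        rw [hu_def]
        field_simp
        ring
      rw [h3, div_le_iff₀ (by positivity)]
      have h4 : (0 : ℝ) ≤ (A (F j)).card := Nat.cast_nonneg _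
      have h5 : QB * R * (A (F j)).card ≤ QA * (A (F j)).card := by
        apply mul_le_mul_of_nonneg_right _ h4
        have : QB * R ≤ 8 * rho * QB * R := by
          have : (0 : ℝ) ≤ QB * R := by positivity
          nlinarith
        linarith
      have h6 : QB * (R * (S j i).card) ≤ QB * (B (F j)).card :=
        mul_le_mul_of_nonneg_left hc' hQB.le
      have h7 : rho * (F j).card ≤ rho * (4 * R * (Fs j i).card) :=
        mul_le_mul_of_nonneg_left h1 (by linarith)
      have h8 : R * (((A (F j)).card + (S j i).card) * QB) ≤ R * ((Fs j i).card * (8 * rho)) := by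
        have h9 : (0 : ℝ) ≤ rho * (4 * R * (Fs j i).card) := by positivity
        nlinarith
      exact le_of_mul_le_mul_left h8 (by linarith)
    · intro x hx
      exact hfr j hj x (B_mono (Finset.filter_subset _ _) hx)
  -- the order of the slots of one window
  have hslt : ∀ j, ∀ i i', i < i' → ∀ x ∈ S j i, ∀ y ∈ S j i', L.H x t0 < L.H y t0 := by
    intro j i i' hii x hx y hy
    exact slot_lt (hd0 j) (hl0 j) hii hx hy
  -- Mirsky
  let Sg : Finset (Sigma (fun _ : ℕ => ℕ)) := T.sigma I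
  let r : Sigma (fun _ : ℕ => ℕ) → Sigma (fun _ : ℕ => ℕ) → Prop := fun σ τ =>
    σ.1 < τ.1 ∧ ∀ x ∈ S σ.1 σ.2, ∀ y ∈ S τ.1 τ.2, L.H x t0 < L.H y t0
  have hSg : ∀ σ ∈ Sg, σ.1 ∈ T ∧ σ.2 ∈ I σ.1 := fun σ hσ => Finset.mem_sigma.1 hσ
  have hSne : ∀ σ ∈ Sg, (S σ.1 σ.2).Nonempty := by
    intro σ hσ
    obtain ⟨h1, h2⟩ := hSg σ hσ
    obtain ⟨e, he⟩ := hFs0 σ.1 h1 σ.2 (hI2 _ _ h2)
    exact ⟨e.2, (Finset.mem_filter.1 he).2⟩
  obtain ⟨C, hC, hchain, hcard⟩ := mirsky Sg r (fun σ _ h => lt_irrefl _ h.1)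
    (by
      intro σ _ τ hτ ρ _ h1 h2
      refine ⟨h1.1.trans h2.1, fun x hx z hz => ?_⟩
      obtain ⟨y, hy⟩ := hSne τ hτ
      exact (h1.2 x hx y hy).trans (h2.2 y hy z hz))
    (4 * T.card)
    (by
      intro A' hA' hanti
      let fib : ℕ → Finset ℕ := fun j => (I j).filter (fun i => (⟨j, i⟩ : Sigma (fun _ : ℕ => ℕ)) ∈ A')
      have hfib : ∀ j i, i ∈ fib j ↔ i ∈ I j ∧ (⟨j, i⟩ : Sigma (fun _ : ℕ => ℕ)) ∈ A' := by
        intro j i
        simp only [fib, Finset.mem_filter]
      have hA'eq : A' = T.sigma fib := by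
        ext σ
        rw [Finset.mem_sigma, hfib]
        constructor
        · intro hσ
          obtain ⟨h1, h2⟩ := hSg σ (hA' hσ)
          exact ⟨h1, h2, hσ⟩
        · rintro ⟨_, _, h3⟩
          exact h3
      have hfibc : ∀ j, (fib j).card ≤ 2 * R := by
        intro j
        calc (fib j).card ≤ (Finset.range (2 * R)).card :=
              Finset.card_le_card ((Finset.filter_subset _ _).trans (Finset.filter_subset _ _))
          _ = 2 * R := Finset.card_range _
      let K3 : Finset ℕ := T.filter (fun j => 3 ≤ (fib j).card)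
      have h3ex : ∀ j ∈ K3, ∃ a ∈ fib j, ∃ b ∈ fib j, ∃ c ∈ fib j, a < b ∧ b < c :=
        fun j hj => exists_three _ (Finset.mem_filter.1 hj).2
      let i1 : ℕ → ℕ := fun j => if h : j ∈ K3 then (h3ex j h).choose else 0
      have hi1 : ∀ j ∈ K3, i1 j ∈ fib j ∧ ∃ b ∈ fib j, ∃ c ∈ fib j, i1 j < b ∧ b < c := by
        intro j hj
        have : i1 j = (h3ex j hj).choose := dif_pos hj
        rw [this]
        exact (h3ex j hj).choose_spec
      let i2 : ℕ → ℕ := fun j => if h : j ∈ K3 then (hi1 j h).2.choose else 0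
      have hi2 : ∀ j ∈ K3, i2 j ∈ fib j ∧ ∃ c ∈ fib j, i1 j < i2 j ∧ i2 j < c := by
        intro j hj
        have : i2 j = (hi1 j hj).2.choose := dif_pos hj
        rw [this]
        exact (hi1 j hj).2.choose_spec
      have hK3 : (K3.card : ℝ) ≤ 3 * (N / u + 1) ^ 2 := by
        apply t3 L E t0 t1 u N ℕ K3 s s' (fun j => Fs j (i2 j)) (fun j => dwV (Fs j (i2 j))) hI
          hW.g0 hW.g1 hu hN
        · intro j hj
          exact hbun j (Finset.mem_filter.1 hj).1 _ ((hfib _ _).1 (hi2 j hj).1).1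
        · have key : ∀ j ∈ K3, ∀ k ∈ K3, j < k →
              TSep L t0 (Fs k (i2 k)) (dwV (Fs k (i2 k))) (Fs j (i2 j)) (dwV (Fs j (i2 j))) := by
            intro j hj k hk hjk z hz b hb
            obtain ⟨h1, c, hc, h2, h3⟩ := hi2 k hk
            have h4 := hanti ⟨j, i1 j⟩ ((hfib _ _).1 (hi1 j hj).1).2 ⟨k, c⟩
              ((hfib _ _).1 hc).2
            have h5 : ¬ ∀ x ∈ S j (i1 j), ∀ y ∈ S k c, L.H x t0 < L.H y t0 := fun h => h4 ⟨hjk, h⟩
            push Not at h5
            obtain ⟨x, hx, y, hy, hyx⟩ := h5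
            have h6 := hslt k _ _ h3 z (hFsS _ _ hz.1) y hy
            obtain ⟨_, c', _, h7, _⟩ := hi2 j hj
            have h8 := hslt j _ _ h7 x hx b (hFsS _ _ hb.1)
            linarith
          intro j hj k hk hjk
          rcases lt_or_gt_of_ne hjk with h | h
          · exact Or.inr (key j hj k hk h)
          · exact Or.inl (key k hk j hj h)
      have hRK : R * K3.card ≤ T.card := by
        have h1 : (R : ℝ) * K3.card ≤ T.card :=
          (mul_le_mul_of_nonneg_left hK3 (by positivity)).trans hT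
        exact_mod_cast h1
      rw [hA'eq, Finset.card_sigma]
      calc ∑ j ∈ T, (fib j).card ≤ ∑ j ∈ T, (2 + if 3 ≤ (fib j).card then 2 * R else 0) := by
            apply Finset.sum_le_sum
            intro j _
            have := hfibc j
            split_ifs <;> omega
        _ = 2 * T.card + K3.card * (2 * R) := by
            rw [Finset.sum_add_distrib, Finset.sum_const, smul_eq_mul, ← Finset.sum_filter,
              Finset.sum_const, smul_eq_mul, mul_comm]
        _ ≤ 4 * T.card := by nlinarith)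
  have hR4 : R ≤ 4 * C.card := by
    have h1 : R * T.card ≤ Sg.card := by
      rw [Finset.card_sigma]
      calc R * T.card = ∑ _j ∈ T, R := by rw [Finset.sum_const, smul_eq_mul, mul_comm]
        _ ≤ ∑ j ∈ T, (I j).card := by
          apply Finset.sum_le_sum
          intro j _
          exact slot_few (hd0 j) (hl0 j) hR
    have h2 : T.card * R ≤ T.card * (4 * C.card) := by nlinarith
    have h3 : 0 < T.card := by exact_mod_cast hTpos
    exact Nat.le_of_mul_le_mul_left h2 h3
  -- the chain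
  have hmid : ∀ σ ∈ Sg, 3 / 8 ≤ ms (Fs σ.1 σ.2) (dwV (Fs σ.1 σ.2))
      (Mid L t0 t1 (Fs σ.1 σ.2) (dwV (Fs σ.1 σ.2))) := by
    intro σ hσ
    obtain ⟨h1, h2⟩ := hSg σ hσ
    exact midMass hI hW.g0 (hbun _ h1 _ h2)
  have hsum := L.sum_nu_le C (fun σ => (Fs σ.1 σ.2).filter
      (fun e => Mid L t0 t1 (Fs σ.1 σ.2) (dwV (Fs σ.1 σ.2)) e.2)) (T.biUnion F)
    (by
      intro σ hσ e he
      obtain ⟨h1, _⟩ := hSg σ (hC hσ)
      exact Finset.mem_biUnion.2 ⟨σ.1, h1,
        (Finset.mem_filter.1 (Finset.mem_filter.1 he).1).1⟩)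
    (by
      have key : ∀ σ ∈ C, ∀ τ ∈ C, r σ τ → ∀ e ∈ (Fs σ.1 σ.2).filter
          (fun e => Mid L t0 t1 (Fs σ.1 σ.2) (dwV (Fs σ.1 σ.2)) e.2), ∀ f ∈ (Fs τ.1 τ.2).filter
          (fun e => Mid L t0 t1 (Fs τ.1 τ.2) (dwV (Fs τ.1 τ.2)) e.2), L.Disj e f := by
        intro σ hσ τ hτ hr e he f hf
        obtain ⟨h1, h2⟩ := hSg σ (hC hσ)
        obtain ⟨h3, h4⟩ := hSg τ (hC hτ)
        rw [Finset.mem_filter] at he hf
        have he' := (Finset.mem_filter.1 he.1).1
        have hf' := (Finset.mem_filter.1 hf.1).1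
        have h5 := hW.tim _ h1 e he'
        have h6 := hW.tim _ h3 f hf'
        have h7 := hW.mono _ h1 _ h3 hr.1
        refine disj_of_lt hI (hW.sub _ h1 he') (hW.sub _ h3 hf') h5.2 (h7.trans h6.1) ?_
        refine midOrd hI hW.g0 hW.g1 (hbun _ h1 _ h2) (hbun _ h3 _ h4) ?_
          ((hW.t0s _ h1).trans (hW.ss' _ h1)) (hW.s't1 _ h1) he.2 hf.2
        intro z hz x hx
        exact hr.2 z (hFsS _ _ hz.1) x (hFsS _ _ hx.1)
      intro σ hσ τ hτ hne e he f hf
      rcases hchain σ hσ τ hτ hne with h | h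
      · exact key σ hσ τ hτ h e he f hf
      · exact L.Disj_symm (key τ hτ σ hσ h f hf e he))
  have hsum' : ∑ σ ∈ C, 2 * u ≤ (L.nu (T.biUnion F) : ℝ) := by
    have h1 : ((∑ σ ∈ C, L.nu ((Fs σ.1 σ.2).filter
      (fun e => Mid L t0 t1 (Fs σ.1 σ.2) (dwV (Fs σ.1 σ.2)) e.2)) : ℕ) : ℝ)
        ≤ (L.nu (T.biUnion F) : ℝ) := by exact_mod_cast hsum
    refine le_trans ?_ h1
    push_cast
    apply Finset.sum_le_sum
    intro σ hσ
    obtain ⟨h2, h3⟩ := hSg σ (hC hσ)
    exact (hbun _ h2 _ h3).v1 _ (by linarith [hmid σ (hC hσ)])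
  rw [Finset.sum_const, nsmul_eq_mul] at hsum'
  have hR4' : (R : ℝ) ≤ 4 * C.card := by exact_mod_cast hR4
  have h9 : u * R ≤ u * (4 * C.card) := mul_le_mul_of_nonneg_left hR4' hu.le
  linarith

end Pool.Agent.GG38.Q
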