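import Pool.Agent.Lib.MP_38fd99_co.Q.Mass

/-!
# MP_38fd99_co, full Q1: value lemma, second form
-/

set_option autoImplicit false

namespace Pool.Agent.GG38.Q

open Finset Classical

theorem vlc (hVL : StmtVL) : StmtVLC := by
  intro ι L E t0 t1 T s s' F QA QB P rho N hW hT hQB hQAB hP hrho hN hdB hD hR hfr hcard
  have hP0 : 0 < P := by linarith
  have hr0 : 0 < rho := by linarith
  have hQA : 0 < QA := by linarith
  have hN0 : 0 ≤ N := le_trans (by positivity) hN
  rcases lt_or_ge (QA / (8 * rho * QB)) 1 with hlt | hge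
  · -- one window suffices
    obtain ⟨j, hj⟩ := hT
    have h1 := nu_ge_of_reg (hD j hj) (Finset.Subset.refl _) (hW.ne j hj) (hR j hj) hr0.le hQAB
      (le_refl QB)
    have h2 : (L.nu (F j) : ℝ) ≤ L.nu (T.biUnion F) := by
      exact_mod_cast L.nu_mono (Finset.subset_biUnion_of_mem F hj)
    rw [div_lt_one (by positivity)] at hlt
    rw [div_le_iff₀ (by positivity)]
    have h3 : QB ≤ P * rho * L.nu (T.biUnion F) :=
      h1.trans (mul_le_mul_of_nonneg_left h2 (by positivity))
    have h4 : 8 * rho * QB ≤ 8 * rho * (P * rho * L.nu (T.biUnion F)) :=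
      mul_le_mul_of_nonneg_left h3 (by positivity)
    have h5 : (0 : ℝ) ≤ P * rho ^ 2 * L.nu (T.biUnion F) := by positivity
    nlinarith
  · set R : ℕ := ⌊QA / (8 * rho * QB)⌋₊ with hRdef
    have hR1 : 1 ≤ R := Nat.le_floor (by simpa using hge)
    have hRle : (R : ℝ) ≤ QA / (8 * rho * QB) := Nat.floor_le (by positivity)
    have hRge : QA / (8 * rho * QB) ≤ 2 * R := by
      have h1 := Nat.lt_floor_add_one (QA / (8 * rho * QB))
      have h2 : (1 : ℝ) ≤ R := by exact_mod_cast hR1
      rw [← hRdef] at h1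
      linarith
    have hRQ : (R : ℝ) ≤ QA / QB := by
      refine hRle.trans ?_
      apply div_le_div_of_nonneg_left hQA.le hQB
      nlinarith
    have key := hVL ι L E t0 t1 T s s' F QA QB P rho N R hW hQB hP hrho hN hdB hD hR hfr hR1
      (by
        rw [le_div_iff₀ (by positivity)] at hRle
        linarith)
      (le_trans (mul_le_mul_of_nonneg_right hRQ (by positivity)) hcard)
    refine le_trans ?_ key
    have h2 : QA / (25600 * P * rho ^ 2) = QB / (800 * P * rho) * (QA / (8 * rho * QB)) / 4 := by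
      field_simp
      ring
    rw [h2]
    have h3 : QB / (800 * P * rho) * (QA / (8 * rho * QB)) ≤ QB / (800 * P * rho) * (2 * R) :=
      mul_le_mul_of_nonneg_left hRge (by positivity)
    linarith

end Pool.Agent.GG38.Q
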