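import Pool.Agent.Lib.MP_38fd99_co.Assembly
import Pool.Agent.Lib.MP_38fd99_co.Q.T3S
import Pool.Agent.Lib.MP_38fd99_co.Q.Over
import Pool.Agent.Lib.MP_38fd99_co.Q.VL
import Pool.Agent.Lib.MP_38fd99_co.Q.VLC
import Pool.Agent.Lib.MP_38fd99_co.Q.Deg
import Pool.Agent.Lib.MP_38fd99_co.Q.Node
import Pool.Agent.Lib.MP_38fd99_co.Q.Pick
import Pool.Agent.Lib.MP_38fd99_co.Q.Bad
import Pool.Agent.Lib.MP_38fd99_co.Q.BlockMass
import Pool.Agent.Lib.MP_38fd99_co.Q.BlockBundle
import Pool.Agent.Lib.MP_38fd99_co.Q.BlockSep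
import Pool.Agent.Lib.MP_38fd99_co.Q.NodeCount
import Pool.Agent.Lib.MP_38fd99_co.Q.NodesA
import Pool.Agent.Lib.MP_38fd99_co.Q.F
import Pool.Agent.Lib.MP_38fd99_co.Q.Clock
import Pool.Agent.Lib.MP_38fd99_co.Q.Regul
import Pool.Agent.Lib.MP_38fd99_co.Q.Froz
import Pool.Agent.Lib.MP_38fd99_co.Q.DenseJ
import Pool.Agent.Lib.MP_38fd99_co.Q.TopNeg
import Pool.Agent.Lib.MP_38fd99_co.Q.StepWins
import Pool.Agent.Lib.MP_38fd99_co.Q.StepV
import Pool.Agent.Lib.MP_38fd99_co.Q.StepF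
import Pool.Agent.Lib.MP_38fd99_co.Q.Scales
import Pool.Agent.Lib.MP_38fd99_co.Q.NoTop
import Pool.Agent.Lib.MP_38fd99_co.Q.ParamQ
import Pool.Agent.Lib.MP_38fd99_co.Q.SepQ
import Pool.Agent.Lib.MP_38fd99_co.Q.HalvQ
import Pool.Agent.Lib.MP_38fd99_co.Q.FinalQ

/-! The modules of the full Q1 put together. -/

set_option autoImplicit false

namespace Pool.Agent.GG38.Q

theorem stmtVLC : StmtVLC := vlc vl
theorem stmtV : StmtV := degV vl
theorem stmtPick : StmtPick := pick node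
theorem stmtBlockBundle : StmtBlockBundle := blockBundle stmtVLC blockMass
theorem stmtBlockSep : StmtBlockSep := blockSep bad over_ blockMass
theorem stmtNodeCount : StmtNodeCount := nodeCount stmtT3 stmtBlockBundle stmtBlockSep
theorem stmtNodesA : StmtNodesA := nodesA stmtT3
theorem stmtF : StmtF := thmF stmtPick stmtNodeCount stmtNodesA
theorem stmtStepWins : StmtStepWins := stepWins denseJ
theorem stmtStepMin : StmtStepMin := stepMin minDeg stmtStepWins
theorem stmtStepV : StmtStepV := stepV stmtStepWins froz stmtV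
theorem stmtStepF : StmtStepF := stepF stmtStepWins froz stmtStepV stmtF topNeg
theorem stmtNoTop : StmtNoTop := noTop stmtStepV stmtStepF stmtStepMin topNeg scales
theorem stmtSepQ : StmtSepQ := sepQ Pool.Agent.GG38.stmtSep clock regul paramQ stmtNoTop
theorem stmtHalvQ : StmtHalvQ := halvQ stmtSepQ
theorem stmtMainQ : StmtMainQ := mainQ stmtHalvQ shear planeGP planeDisj
theorem stmtFinalQ : StmtFinalQ := finalQ stmtMainQ

end Pool.Agent.GG38.Q
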