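import Pool.Agent.Lib.MP_38fd99_co.Q.Spec

/-!
# MP_38fd99_co, full Q1: an earlier block is above a later block
-/

set_option autoImplicit false

namespace Pool.Agent.GG38.Q

open Finset Classical

namespace BlockSepM

theorem uA4_pos {QA P rho : ℝ} (D : ℕ) (hQ : 0 < QA) (hP : 1 ≤ P) (hr : 1 ≤ rho) :
    0 < uA4 QA P rho D := by
  unfold uA4
  have h1 : (0 : ℝ) < (D : ℝ) + 1 := by positivity
  have h2 : 0 < P := by linarith
  have h3 : 0 < rho := by linarith
  positivity

theorem uA4_id {QA P rho : ℝ} (D : ℕ) (hQ : 0 < QA) (hP : 1 ≤ P) (hr : 1 ≤ rho) (x : ℝ) :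
    ((D : ℝ) + 1) * P * rho * (uA4 QA P rho D / QA) * x = x / 160000 := by
  unfold uA4
  have h1 : (0 : ℝ) < (D : ℝ) + 1 := by positivity
  have h2 : 0 < P := by linarith
  have h3 : 0 < rho := by linarith
  field_simp

theorem mass_le {ι : Type} (h3 : StmtBlockMass) (F : ℕ → Finset (ι × ι)) (T : Finset ℕ)
    (p : ι → Prop)
    (h : ∀ j ∈ T, (((F j).filter (fun e => p e.2)).card : ℝ) ≤ (F j).card / 160000) :
    ms (T.biUnion F) (bw F T) p ≤ 1 / 160000 := by
  rw [h3]
  rcases T.eq_empty_or_nonempty with hT | hT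
  · subst hT
    simp
  · have hc : (0 : ℝ) < T.card := by exact_mod_cast hT.card_pos
    rw [div_le_iff₀ hc]
    have h4 : ∑ j ∈ T, (((F j).filter (fun e => p e.2)).card : ℝ) / (F j).card ≤
        ∑ _j ∈ T, (1 / 160000 : ℝ) := by
      refine Finset.sum_le_sum fun j hj => ?_
      have h5 := h j hj
      rcases Nat.eq_zero_or_pos (F j).card with h6 | h6
      · rw [h6]
        simp
      · have h7 : (0 : ℝ) < (F j).card := by exact_mod_cast h6
        rw [div_le_iff₀ h7]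
        linarith
    rw [Finset.sum_const, nsmul_eq_mul] at h4
    linarith

end BlockSepM

open BlockSepM in
theorem blockSep (h1 : StmtBad) (h2 : StmtOver) (h3 : StmtBlockMass) : StmtBlockSep := by
  intro ι L E t0 t1 T s s' F r c D QA QB P rho N T₁ T₂ q q' hN hT1 hT2 hlt hB z hz x hx
  by_contra hcon
  push Not at hcon
  have hI := hN.wins.inst
  -- an edge at `x` above the cut
  have hxB : ∃ j ∈ T₁, x ∈ B (F j) := by
    obtain ⟨e, he, hex⟩ := Finset.mem_image.1 hx.1
    obtain ⟨j, hj, hej⟩ := Finset.mem_biUnion.1 he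
    exact ⟨j, hj, Finset.mem_image.2 ⟨e, hej, hex⟩⟩
  obtain ⟨j, hj, hxj⟩ := hxB
  have hjT := hT1 hj
  have hedge : ∃ a, (a, x) ∈ F j ∧ c ≤ r a := by
    have h4 := hN.hi j hjT x hxj
    have h5 : 0 < dB (F j) x := by
      obtain ⟨e, he, hex⟩ := Finset.mem_image.1 hxj
      unfold dB
      exact Finset.card_pos.2 ⟨e, Finset.mem_filter.2 ⟨he, hex⟩⟩
    have h6 : 0 < ((F j).filter (fun e => e.2 = x ∧ c ≤ r e.1)).card := by
      by_contra h7
      have h8 : ((F j).filter (fun e => e.2 = x ∧ c ≤ r e.1)).card = 0 := by omega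
      rw [h8] at h4
      omega
    obtain ⟨e, he⟩ := Finset.card_pos.1 h6
    rw [Finset.mem_filter] at he
    obtain ⟨he1, he2, he3⟩ := he
    refine ⟨e.1, ?_, he3⟩
    rw [← he2]
    exact he1
  obtain ⟨a, hax, hca⟩ := hedge
  have hsub := hN.wins.sub j hjT
  have htim := hN.wins.tim j hjT _ hax
  have ht0s := hN.wins.t0s j hjT
  have hss' := hN.wins.ss' j hjT
  have hs't1 := hN.wins.s't1 j hjT
  have haA : a ∈ A (F j) := fst_mem_A hax
  have hbad : ∀ i ∈ T₂, (((F i).filter (fun e => L.H x (s' j) ≤ L.H e.2 (s' j))).card : ℝ) ≤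
      (F i).card / 160000 := by
    intro i hi
    have hiT := hT2 hi
    have hji := hlt j hj i hi
    have hm := hN.wins.mono j hjT i hiT hji
    have h4 := h1 ι L E t0 t1 (s' j) (uA4 QA P rho D) P rho QA QB D c (F i) r a x hI
      hN.wins.g0 (hN.wins.gs' j hjT) (ht0s.trans hss') hs't1 (hsub hax) (ht0s.trans htim.1)
      htim.2 hca (hN.frA j hjT a haA) (hN.wins.sub i hiT)
      (fun e he => ⟨hm.trans (hN.wins.tim i hiT e he).1,
        (hN.wins.tim i hiT e he).2.trans (hN.wins.s't1 i hiT)⟩)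
      (fun e he hr => hN.rk i hiT j hjT e.1 (fst_mem_A he) a haA hr)
      (hN.lo i hiT) (hN.dens i hiT) (uA4_pos D hN.QA0 hN.P1 hN.rho1)
      (by linarith [hN.P1]) hN.QA0 hN.QAB (hN.reg i hiT)
    rw [uA4_id D hN.QA0 hN.P1 hN.rho1] at h4
    exact h4
  have hm1 := mass_le h3 F T₂ (fun y => L.H x (s' j) ≤ L.H y (s' j)) hbad
  have hfr : Fr L E t0 t1 (uB4 QB P rho) x := hN.frB j hjT x hxj
  have hov := h2 ι L E t0 t1 (uB4 QB P rho) q q' (T₂.biUnion F) (bw F T₂) x hI hB hfr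
  have hadd : ms (T₂.biUnion F) (bw F T₂) (fun y => L.H z t0 ≤ L.H y t0) ≤
      ms (T₂.biUnion F) (bw F T₂) (fun y => L.H x (s' j) ≤ L.H y (s' j)) +
      ms (T₂.biUnion F) (bw F T₂) (fun y => L.H x t0 < L.H y t0 ∧ L.H y t1 < L.H x t1) := by
    apply ms_le_add hB.w0
    intro y hy hzy
    by_cases h4 : L.H x (s' j) ≤ L.H y (s' j)
    · exact Or.inl h4
    · right
      push Not at h4
      have hxy : x ≠ y := by
        rintro rfl
        exact lt_irrefl _ h4
      have hxE : x ∈ A E ∪ B E := Finset.mem_union_right _ (B_mono hsub hxj)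
      have hyE : y ∈ A E ∪ B E := Finset.mem_union_right _ (B_mono hB.sub hy)
      have h5 : L.H x t0 < L.H y t0 :=
        lt_of_le_of_ne (hcon.trans hzy) (hN.wins.g0 x hxE y hyE hxy)
      have h6 : L.v y < L.v x := v_lt_of_over' L (ht0s.trans hss') h5 h4.le
      exact ⟨h5, H_lt_of_le L h6 hs't1 h4⟩
  have hz3 := hz.2.2
  linarith

end Pool.Agent.GG38.Q
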