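import Pool.Agent.Lib.MP_38fd99_co.Basic

/-!
# MP_38fd99_co, full Q1: definitions

Edges are pairs `e = (slow line, fast line)`; the edge `e` happens at the time `et L e` at which its two
lines meet.  `x` is below `y` at time `t` iff `L.H x t < L.H y t`.  Everything is stated for the fast side
(the B-side); the slow side is obtained by `L.neg`, `Esw E`.
-/

set_option autoImplicit false

namespace Pool.Agent.GG38.Q

open Finset Classical

noncomputable section

variable {ι : Type}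

/-- time of an edge -/
def et (L : Lines ι) (e : ι × ι) : ℝ := L.tm e.1 e.2

/-- different lines of `X` have different heights at time `t` -/
def Gen (L : Lines ι) (X : Finset ι) (t : ℝ) : Prop :=
  ∀ x ∈ X, ∀ y ∈ X, x ≠ y → L.H x t ≠ L.H y t

/-- past label of the line `x` at time `t`: matching number of the edges before `t` whose fast line is
slower than `x` and below `x` at time `t` -/
def lV (L : Lines ι) (E : Finset (ι × ι)) (t : ℝ) (x : ι) : ℕ :=
  L.nu (E.filter (fun e => et L e ≤ t ∧ L.v e.2 < L.v x ∧ L.H e.2 t < L.H x t))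

/-- future label of the line `x` at time `t` -/
def lW (L : Lines ι) (E : Finset (ι × ι)) (t : ℝ) (x : ι) : ℕ :=
  L.nu (E.filter (fun e => t ≤ et L e ∧ L.v e.2 < L.v x ∧ L.H x t < L.H e.2 t))

/-- the labels of `x` change by less than `u` between `t0` and `t1` (`x` is frozen).  For the slow side
use `Fr L.neg (Esw E) t0 t1 u a`. -/
def Fr (L : Lines ι) (E : Finset (ι × ι)) (t0 t1 u : ℝ) (x : ι) : Prop :=
  (lV L E t1 x : ℝ) < lV L E t0 x + u ∧ (lW L E t0 x : ℝ) < lW L E t1 x + u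

/-- `w`-mass of the fast lines of `F` with property `p` -/
def ms (F : Finset (ι × ι)) (w : ι → ℝ) (p : ι → Prop) : ℝ := ∑ z ∈ B F, if p z then w z else 0

/-- A bundle in the time interval `[t0,t1]`: edges `F` in a time window `[s,s']` with a probability
weight `w` on the fast lines of `F`; sets of mass `≥ 1/100` (`≥ 1/8`) have matching number
`≥ u` (`≥ 2u`), and the labels of all fast lines of `F` are frozen. -/
structure Bundle (L : Lines ι) (E : Finset (ι × ι)) (t0 t1 u s s' : ℝ) (F : Finset (ι × ι))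
    (w : ι → ℝ) : Prop where
  t0s : t0 ≤ s
  ss' : s ≤ s'
  s't1 : s' ≤ t1
  gs : Gen L (A E ∪ B E) s
  gs' : Gen L (A E ∪ B E) s'
  sub : F ⊆ E
  tim : ∀ e ∈ F, s ≤ et L e ∧ et L e ≤ s'
  w0 : ∀ x, 0 ≤ w x
  w1 : ms F w (fun _ => True) = 1
  v0 : ∀ p : ι → Prop, 1 / 100 ≤ ms F w p → u ≤ (L.nu (F.filter (fun e => p e.2)) : ℝ)
  v1 : ∀ p : ι → Prop, 1 / 8 ≤ ms F w p → 2 * u ≤ (L.nu (F.filter (fun e => p e.2)) : ℝ)
  fr : ∀ x ∈ B F, Fr L E t0 t1 u x

/-- trimmed part of a bundle (order at time `t0`) -/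
def Trim (L : Lines ι) (t0 : ℝ) (F : Finset (ι × ι)) (w : ι → ℝ) (x : ι) : Prop :=
  x ∈ B F ∧ 1 / 8 ≤ ms F w (fun z => L.H z t0 ≤ L.H x t0) ∧
    1 / 8 ≤ ms F w (fun z => L.H x t0 ≤ L.H z t0)

/-- middle part of a bundle -/
def Mid (L : Lines ι) (t0 t1 : ℝ) (F : Finset (ι × ι)) (w : ι → ℝ) (x : ι) : Prop :=
  x ∈ B F ∧ 1 / 4 ≤ ms F w (fun z => L.H z t0 ≤ L.H x t0) ∧
    1 / 4 ≤ ms F w (fun z => L.H x t0 ≤ L.H z t0) ∧
    ms F w (fun z => L.H z t0 < L.H x t0 ∧ L.H x t1 < L.H z t1) < 8 / 100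

/-- the trimmed part of the bundle `(F', w')` is below the trimmed part of `(F, w)` at time `t0` -/
def TSep (L : Lines ι) (t0 : ℝ) (F' : Finset (ι × ι)) (w' : ι → ℝ) (F : Finset (ι × ι))
    (w : ι → ℝ) : Prop :=
  ∀ z, Trim L t0 F' w' z → ∀ x, Trim L t0 F w x → L.H z t0 < L.H x t0

/-- degree of the fast line `b` -/
def dB (F : Finset (ι × ι)) (b : ι) : ℕ := (F.filter (fun e => e.2 = b)).card

/-- degree of the slow line `a` -/
def dA (F : Finset (ι × ι)) (a : ι) : ℕ := (F.filter (fun e => e.1 = a)).card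

/-- density: no subset of `F` has more than `P * (number of lines) * (matching number)` edges -/
def Dens (L : Lines ι) (P : ℝ) (F : Finset (ι × ι)) : Prop :=
  ∀ F' ⊆ F, (F'.card : ℝ) ≤ P * ((A F').card + (B F').card) * L.nu F'

/-- the average degrees of `F` are at least `QA / rho`, `QB / rho` -/
def Reg (QA QB rho : ℝ) (F : Finset (ι × ι)) : Prop :=
  QA * (A F).card + QB * (B F).card ≤ rho * F.card

/-- A family of windows (indexed by `T ⊆ ℕ`, in the order of time) in `[t0,t1]` with edge sets `F j`. -/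
structure Wins (L : Lines ι) (E : Finset (ι × ι)) (t0 t1 : ℝ) (T : Finset ℕ) (s s' : ℕ → ℝ)
    (F : ℕ → Finset (ι × ι)) : Prop where
  inst : Inst L E
  g0 : Gen L (A E ∪ B E) t0
  g1 : Gen L (A E ∪ B E) t1
  t01 : t0 ≤ t1
  gs : ∀ j ∈ T, Gen L (A E ∪ B E) (s j)
  gs' : ∀ j ∈ T, Gen L (A E ∪ B E) (s' j)
  t0s : ∀ j ∈ T, t0 ≤ s j
  ss' : ∀ j ∈ T, s j ≤ s' j
  s't1 : ∀ j ∈ T, s' j ≤ t1
  mono : ∀ i ∈ T, ∀ j ∈ T, i < j → s' i ≤ s j
  sub : ∀ j ∈ T, F j ⊆ E
  ne : ∀ j ∈ T, (F j).Nonempty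
  tim : ∀ j ∈ T, ∀ e ∈ F j, s j ≤ et L e ∧ et L e ≤ s' j

/-- Discrete clock: generic times `θ 0 ≤ θ 1 ≤ ...`; the edge `e ∈ E` happens between `θ (idx e)` and
`θ (idx e + 1)`; every one of the first `q` time steps contains between `1` and `N` edges. -/
structure Clock (L : Lines ι) (E : Finset (ι × ι)) (N : ℕ) (θ : ℕ → ℝ) (idx : ι × ι → ℕ) (q : ℕ) :
    Prop where
  mono : Monotone θ
  gen : ∀ j, Gen L (A E ∪ B E) (θ j)
  lt : ∀ e ∈ E, idx e < q
  le : ∀ e ∈ E, θ (idx e) ≤ et L e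
  le' : ∀ e ∈ E, et L e ≤ θ (idx e + 1)
  ne : ∀ j < q, (E.filter (fun e => idx e = j)).Nonempty
  few : ∀ j, (E.filter (fun e => idx e = j)).card ≤ N

/-- middle of the dyadic interval number `j` of level `d` in `[0, 2^D)` -/
def cut (D d j : ℕ) : ℕ := j * 2 ^ (D - d) + 2 ^ (D - d) / 2

end

end Pool.Agent.GG38.Q
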