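import Pool.Agent.Lib.MP_38fd99_co.Q.Defs

/-!
# MP_38fd99_co, full Q1: elementary facts (all proved here)
-/

set_option autoImplicit false

namespace Pool.Agent.GG38.Q

open Finset Classical

variable {ι : Type}

/-! ### affine functions -/

/-- slower and below stays below -/
theorem H_lt_of_le (L : Lines ι) {x y : ι} {t t' : ℝ} (hv : L.v x < L.v y) (h : t ≤ t')
    (hx : L.H x t < L.H y t) : L.H x t' < L.H y t' :=
  (L.lt_iff hv t').2 (lt_of_lt_of_le ((L.lt_iff hv t).1 hx) h)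

/-- slower and above was above before -/
theorem H_gt_of_le (L : Lines ι) {x y : ι} {t t' : ℝ} (hv : L.v x < L.v y) (h : t ≤ t')
    (hx : L.H y t' < L.H x t') : L.H y t < L.H x t :=
  (L.gt_iff hv t).2 (lt_of_le_of_lt h ((L.gt_iff hv t').1 hx))

/-- a line which overtakes is faster -/
theorem v_lt_of_over (L : Lines ι) {x y : ι} {t t' : ℝ} (h : t ≤ t') (h1 : L.H x t ≤ L.H y t)
    (h2 : L.H y t' < L.H x t') : L.v y < L.v x := by
  unfold Lines.H at h1 h2
  by_contra h3
  push Not at h3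
  nlinarith [mul_nonneg (sub_nonneg.2 h3) (sub_nonneg.2 h)]

theorem v_lt_of_over' (L : Lines ι) {x y : ι} {t t' : ℝ} (h : t ≤ t') (h1 : L.H x t < L.H y t)
    (h2 : L.H y t' ≤ L.H x t') : L.v y < L.v x := by
  unfold Lines.H at h1 h2
  by_contra h3
  push Not at h3
  nlinarith [mul_nonneg (sub_nonneg.2 h3) (sub_nonneg.2 h)]

theorem fst_lt {L : Lines ι} {E : Finset (ι × ι)} (hI : Inst L E) {e : ι × ι} (he : e ∈ E) :
    L.v e.1 < L.v e.2 := hI.sep _ (fst_mem_A he) _ (snd_mem_B he)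

/-- before its time the fast line of an edge is (weakly) below the slow one -/
theorem snd_le_fst {L : Lines ι} {E : Finset (ι × ι)} (hI : Inst L E) {e : ι × ι} (he : e ∈ E)
    {t : ℝ} (h : t ≤ et L e) : L.H e.2 t ≤ L.H e.1 t := by
  by_contra h1
  push Not at h1
  have := (L.lt_iff (fst_lt hI he) t).1 h1
  exact absurd (lt_of_lt_of_le this h) (lt_irrefl _)

/-- after its time the slow line of an edge is (weakly) below the fast one -/
theorem fst_le_snd {L : Lines ι} {E : Finset (ι × ι)} (hI : Inst L E) {e : ι × ι} (he : e ∈ E)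
    {t : ℝ} (h : et L e ≤ t) : L.H e.1 t ≤ L.H e.2 t := by
  by_contra h1
  push Not at h1
  have := (L.gt_iff (fst_lt hI he) t).1 h1
  exact absurd (lt_of_le_of_lt h this) (lt_irrefl _)

/-- (Bc) an earlier edge whose fast line is below the fast line of a later edge at a time between -/
theorem disj_of_lt {L : Lines ι} {E : Finset (ι × ι)} (hI : Inst L E) {e f : ι × ι} (he : e ∈ E)
    (hf : f ∈ E) {t : ℝ} (h1 : et L e ≤ t) (h2 : t ≤ et L f) (h3 : L.H e.2 t < L.H f.2 t) :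
    L.Disj e f := by
  have h4 := fst_le_snd hI he h1
  have h5 := snd_le_fst hI hf h2
  exact Or.inl ⟨t, by linarith, by linarith, by linarith, by linarith⟩

/-! ### matching numbers of two compatible families -/

theorem nu_add_le {L : Lines ι} {E E1 E2 : Finset (ι × ι)} (h1 : E1 ⊆ E) (h2 : E2 ⊆ E)
    (hd : ∀ e ∈ E1, ∀ f ∈ E2, L.Disj e f) : L.nu E1 + L.nu E2 ≤ L.nu E := by
  have h := L.sum_nu_le (Finset.univ : Finset Bool) (fun b => if b then E1 else E2) E
    (by
      intro b _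
      cases b
      · simpa using h2
      · simpa using h1)
    (by
      intro k _ l _ hkl e he f hf
      cases k <;> cases l
      · exact absurd rfl hkl
      · simp only [Bool.false_eq_true, if_false, if_true] at he hf
        exact L.Disj_symm (hd f hf e he)
      · simp only [Bool.false_eq_true, if_false, if_true] at he hf
        exact hd e he f hf
      · exact absurd rfl hkl)
  simpa using h

/-! ### labels -/

theorem lV_le (L : Lines ι) (E : Finset (ι × ι)) (t : ℝ) (x : ι) : lV L E t x ≤ L.nu E :=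
  L.nu_mono (Finset.filter_subset _ _)

theorem lW_le (L : Lines ι) (E : Finset (ι × ι)) (t : ℝ) (x : ι) : lW L E t x ≤ L.nu E :=
  L.nu_mono (Finset.filter_subset _ _)

/-- (L3), which contains (L1) (`x = y`) and the monotonicity (`S = ∅`) -/
theorem L3 {L : Lines ι} {E : Finset (ι × ι)} (hI : Inst L E) {t0 t1 : ℝ} (h01 : t0 ≤ t1)
    {x y : ι} (hxy : x = y ∨ (L.v x < L.v y ∧ L.H x t1 < L.H y t1)) (S : Finset (ι × ι))
    (hS : S ⊆ E) (hS' : ∀ f ∈ S, t0 ≤ et L f ∧ et L f ≤ t1 ∧ L.v f.2 < L.v y ∧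
      L.H x t0 ≤ L.H f.2 t0 ∧ L.H f.2 t1 < L.H y t1) :
    lV L E t0 x + L.nu S ≤ lV L E t1 y := by
  apply nu_add_le
  · intro e he
    rw [Finset.mem_filter] at he ⊢
    obtain ⟨h1, h2, h3, h4⟩ := he
    have h5 := H_lt_of_le L h3 h01 h4
    rcases hxy with rfl | ⟨hv, hH⟩
    · exact ⟨h1, h2.trans h01, h3, h5⟩
    · exact ⟨h1, h2.trans h01, h3.trans hv, h5.trans hH⟩
  · intro f hf
    obtain ⟨h1, h2, h3, h4, h5⟩ := hS' f hf
    rw [Finset.mem_filter]
    exact ⟨hS hf, h2, h3, h5⟩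
  · intro e he f hf
    rw [Finset.mem_filter] at he
    obtain ⟨h1, h2, h3, h4, h5⟩ := hS' f hf
    exact disj_of_lt hI he.1 (hS hf) he.2.1 h1 (lt_of_lt_of_le he.2.2.2 h4)

/-- (L4), which contains the monotonicity (`x = y`, `S = ∅`) -/
theorem L4 {L : Lines ι} {E : Finset (ι × ι)} (hI : Inst L E) {t0 t1 : ℝ} (h01 : t0 ≤ t1)
    {x y : ι} (hxy : x = y ∨ (L.v x < L.v y ∧ L.H y t0 < L.H x t0)) (S : Finset (ι × ι))
    (hS : S ⊆ E) (hS' : ∀ f ∈ S, t0 ≤ et L f ∧ et L f ≤ t1 ∧ L.v f.2 < L.v y ∧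
      L.H y t0 < L.H f.2 t0 ∧ L.H f.2 t1 ≤ L.H x t1) :
    lW L E t1 x + L.nu S ≤ lW L E t0 y := by
  apply nu_add_le
  · intro e he
    rw [Finset.mem_filter] at he ⊢
    obtain ⟨h1, h2, h3, h4⟩ := he
    have h5 := H_gt_of_le L h3 h01 h4
    rcases hxy with rfl | ⟨hv, hH⟩
    · exact ⟨h1, h01.trans h2, h3, h5⟩
    · exact ⟨h1, h01.trans h2, h3.trans hv, hH.trans h5⟩
  · intro f hf
    obtain ⟨h1, h2, h3, h4, h5⟩ := hS' f hf
    rw [Finset.mem_filter]
    exact ⟨hS hf, h1, h3, h4⟩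
  · intro e he f hf
    rw [Finset.mem_filter] at he
    obtain ⟨h1, h2, h3, h4, h5⟩ := hS' f hf
    exact L.Disj_symm (disj_of_lt hI (hS hf) he.1 h2 he.2.1 (lt_of_le_of_lt h5 he.2.2.2))

theorem lV_mono {L : Lines ι} {E : Finset (ι × ι)} (hI : Inst L E) {t0 t1 : ℝ} (h01 : t0 ≤ t1)
    (x : ι) : lV L E t0 x ≤ lV L E t1 x := by
  have := L3 hI h01 (Or.inl (rfl : x = x)) ∅ (Finset.empty_subset _) (by simp)
  simpa [L.nu_empty] using this

theorem lW_anti {L : Lines ι} {E : Finset (ι × ι)} (hI : Inst L E) {t0 t1 : ℝ} (h01 : t0 ≤ t1)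
    (x : ι) : lW L E t1 x ≤ lW L E t0 x := by
  have := L4 hI h01 (Or.inl (rfl : x = x)) ∅ (Finset.empty_subset _) (by simp)
  simpa [L.nu_empty] using this

theorem Fr.mono {L : Lines ι} {E : Finset (ι × ι)} {t0 t1 u u' : ℝ} {x : ι}
    (h : Fr L E t0 t1 u x) (hu : u ≤ u') : Fr L E t0 t1 u' x :=
  ⟨lt_of_lt_of_le h.1 (by linarith), lt_of_lt_of_le h.2 (by linarith)⟩

theorem Gen.mono {L : Lines ι} {X Y : Finset ι} {t : ℝ} (h : Gen L Y t) (hXY : X ⊆ Y) :
    Gen L X t := fun x hx y hy => h x (hXY hx) y (hXY hy)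

/-! ### masses -/

theorem ms_mono {F : Finset (ι × ι)} {w : ι → ℝ} (hw : ∀ x, 0 ≤ w x) {p p' : ι → Prop}
    (h : ∀ z ∈ B F, p z → p' z) : ms F w p ≤ ms F w p' := by
  unfold ms
  apply Finset.sum_le_sum
  intro z hz
  by_cases hp : p z
  · rw [if_pos hp, if_pos (h z hz hp)]
  · rw [if_neg hp]
    split_ifs
    · exact hw z
    · exact le_rfl

theorem ms_nonneg {F : Finset (ι × ι)} {w : ι → ℝ} (hw : ∀ x, 0 ≤ w x) (p : ι → Prop) :
    0 ≤ ms F w p := Finset.sum_nonneg (fun z _ => by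
      split_ifs
      · exact hw z
      · exact le_rfl)

theorem ms_or {F : Finset (ι × ι)} {w : ι → ℝ} (hw : ∀ x, 0 ≤ w x) (p p' : ι → Prop) :
    ms F w (fun z => p z ∨ p' z) ≤ ms F w p + ms F w p' := by
  unfold ms
  rw [← Finset.sum_add_distrib]
  apply Finset.sum_le_sum
  intro z _
  have := hw z
  by_cases h1 : p z <;> by_cases h2 : p' z <;> simp [h1, h2, this]

theorem ms_le_add {F : Finset (ι × ι)} {w : ι → ℝ} (hw : ∀ x, 0 ≤ w x) {p p1 p2 : ι → Prop}
    (h : ∀ z ∈ B F, p z → p1 z ∨ p2 z) : ms F w p ≤ ms F w p1 + ms F w p2 :=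
  (ms_mono hw h).trans (ms_or hw p1 p2)

theorem ms_le_add3 {F : Finset (ι × ι)} {w : ι → ℝ} (hw : ∀ x, 0 ≤ w x) {p p1 p2 p3 : ι → Prop}
    (h : ∀ z ∈ B F, p z → p1 z ∨ p2 z ∨ p3 z) :
    ms F w p ≤ ms F w p1 + (ms F w p2 + ms F w p3) :=
  (ms_le_add hw h).trans (by have := ms_or (F := F) hw p2 p3; linarith)

theorem ms_not {F : Finset (ι × ι)} {w : ι → ℝ} (p : ι → Prop) :
    ms F w p + ms F w (fun z => ¬ p z) = ms F w (fun _ => True) := by
  unfold ms
  rw [← Finset.sum_add_distrib]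
  apply Finset.sum_congr rfl
  intro z _
  by_cases h1 : p z <;> simp [h1]

/-- positive mass gives an element -/
theorem ms_exists {F : Finset (ι × ι)} {w : ι → ℝ} {p : ι → Prop} (h : 0 < ms F w p) :
    ∃ z ∈ B F, p z := by
  by_contra hcon
  push Not at hcon
  unfold ms at h
  rw [Finset.sum_eq_zero (fun z hz => if_neg (hcon z hz))] at h
  exact lt_irrefl _ h

/-! ### reflection -/

theorem et_neg {L : Lines ι} (e : ι × ι) : et L.neg e.swap = et L e := by
  unfold et
  rw [L.neg_tm, Prod.fst_swap, Prod.snd_swap, L.tm_comm]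

theorem et_neg' {L : Lines ι} (e : ι × ι) : et L.neg e = et L e.swap := by
  have := et_neg (L := L) e.swap
  rwa [Prod.swap_swap] at this

theorem Gen_neg {L : Lines ι} {X : Finset ι} {t : ℝ} (h : Gen L X t) : Gen L.neg X t := by
  intro x hx y hy hxy h1
  rw [L.neg_H, L.neg_H] at h1
  exact h x hx y hy hxy (by linarith)

theorem mem_Esw' {E : Finset (ι × ι)} {p : ι × ι} : p ∈ Esw E ↔ p.swap ∈ E := mem_Esw

theorem dA_Esw (F : Finset (ι × ι)) (a : ι) : dA (Esw F) a = dB F a := by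
  unfold dA dB Esw
  rw [Finset.filter_image, Finset.card_image_of_injective _ Prod.swap_injective]
  rfl

theorem dB_Esw (F : Finset (ι × ι)) (a : ι) : dB (Esw F) a = dA F a := by
  unfold dA dB Esw
  rw [Finset.filter_image, Finset.card_image_of_injective _ Prod.swap_injective]
  rfl

theorem Esw_filter (F : Finset (ι × ι)) (p : ι × ι → Prop) :
    (Esw F).filter p = Esw (F.filter (fun e => p e.swap)) := by
  unfold Esw
  rw [Finset.filter_image]

theorem Esw_nonempty {F : Finset (ι × ι)} (h : F.Nonempty) : (Esw F).Nonempty := h.image _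

theorem Reg_Esw {QA QB rho : ℝ} {F : Finset (ι × ι)} (h : Reg QA QB rho F) :
    Reg QB QA rho (Esw F) := by
  unfold Reg at *
  rw [A_Esw, B_Esw, card_Esw]
  linarith

theorem Dens_Esw {L : Lines ι} {P : ℝ} {F : Finset (ι × ι)} (h : Dens L P F) :
    Dens L.neg P (Esw F) := by
  intro F' hF'
  have h1 : Esw F' ⊆ F := by
    have := Esw_mono hF'
    rwa [Esw_Esw] at this
  have h2 := h _ h1
  have h3 : L.neg.nu F' = L.nu (Esw F') := by
    have := L.nu_neg (Esw F')
    rwa [Esw_Esw] at this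
  rw [card_Esw, A_Esw, B_Esw] at h2
  rw [h3]
  have h4 : ((A F').card : ℝ) + (B F').card = (B F').card + (A F').card := add_comm _ _
  rw [h4]
  exact h2

theorem Dens.mono {L : Lines ι} {P : ℝ} {F F' : Finset (ι × ι)} (h : Dens L P F) (hF : F' ⊆ F) :
    Dens L P F' := fun F'' hF'' => h F'' (hF''.trans hF)

theorem Wins.neg {L : Lines ι} {E : Finset (ι × ι)} {t0 t1 : ℝ} {T : Finset ℕ} {s s' : ℕ → ℝ}
    {F : ℕ → Finset (ι × ι)} (h : Wins L E t0 t1 T s s' F) :
    Wins L.neg (Esw E) t0 t1 T s s' (fun j => Esw (F j)) := by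
  have hU : A (Esw E) ∪ B (Esw E) = A E ∪ B E := by
    rw [A_Esw, B_Esw, Finset.union_comm]
  exact
    { inst := h.inst.neg
      g0 := by rw [hU]; exact Gen_neg h.g0
      g1 := by rw [hU]; exact Gen_neg h.g1
      t01 := h.t01
      gs := fun j hj => by rw [hU]; exact Gen_neg (h.gs j hj)
      gs' := fun j hj => by rw [hU]; exact Gen_neg (h.gs' j hj)
      t0s := h.t0s
      ss' := h.ss'
      s't1 := h.s't1
      mono := h.mono
      sub := fun j hj => Esw_mono (h.sub j hj)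
      ne := fun j hj => Esw_nonempty (h.ne j hj)
      tim := fun j hj e he => by
        rw [et_neg']
        exact h.tim j hj _ (mem_Esw'.1 he) }

/-- restriction of a family of windows -/
theorem Wins.restrict {L : Lines ι} {E : Finset (ι × ι)} {t0 t1 : ℝ} {T T' : Finset ℕ}
    {s s' : ℕ → ℝ} {F F' : ℕ → Finset (ι × ι)} (h : Wins L E t0 t1 T s s' F) (hT : T' ⊆ T)
    (hF : ∀ j ∈ T', F' j ⊆ F j) (hne : ∀ j ∈ T', (F' j).Nonempty) :
    Wins L E t0 t1 T' s s' F' :=
  { inst := h.inst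
    g0 := h.g0
    g1 := h.g1
    t01 := h.t01
    gs := fun j hj => h.gs j (hT hj)
    gs' := fun j hj => h.gs' j (hT hj)
    t0s := fun j hj => h.t0s j (hT hj)
    ss' := fun j hj => h.ss' j (hT hj)
    s't1 := fun j hj => h.s't1 j (hT hj)
    mono := fun i hi j hj => h.mono i (hT hi) j (hT hj)
    sub := fun j hj => (hF j hj).trans (h.sub j (hT hj))
    ne := hne
    tim := fun j hj e he => h.tim j (hT hj) e (hF j hj he) }

theorem Clock.neg {L : Lines ι} {E : Finset (ι × ι)} {N : ℕ} {θ : ℕ → ℝ} {idx : ι × ι → ℕ} {q : ℕ}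
    (h : Clock L E N θ idx q) : Clock L.neg (Esw E) N θ (fun e => idx e.swap) q := by
  have hU : A (Esw E) ∪ B (Esw E) = A E ∪ B E := by
    rw [A_Esw, B_Esw, Finset.union_comm]
  have hf : ∀ j, (Esw E).filter (fun e => idx e.swap = j) = Esw (E.filter (fun e => idx e = j)) := by
    intro j
    ext e
    rw [Finset.mem_filter, mem_Esw', mem_Esw', Finset.mem_filter]
  exact
    { mono := h.mono
      gen := fun j => by rw [hU]; exact Gen_neg (h.gen j)
      lt := fun e he => h.lt _ (mem_Esw'.1 he)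
      le := fun e he => by rw [et_neg']; exact h.le _ (mem_Esw'.1 he)
      le' := fun e he => by rw [et_neg']; exact h.le' _ (mem_Esw'.1 he)
      ne := fun j hj => by rw [hf]; exact Esw_nonempty (h.ne j hj)
      few := fun j => by rw [hf, card_Esw]; exact h.few j }

end Pool.Agent.GG38.Q
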