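import Pool.Agent.Lib.MP_38fd99_co.Q.Spec

/-!
# MP_38fd99_co, full Q1: masses given by degrees, value of dense sets (auxiliary facts)
-/

set_option autoImplicit false

namespace Pool.Agent.GG38.Q

open Finset Classical

variable {ι : Type}

/-- the mass given by the degrees counts edges -/
theorem sum_dB_filter (G : Finset (ι × ι)) (p : ι → Prop) :
    ∑ z ∈ B G, (if p z then (dB G z : ℝ) else 0) = ((G.filter (fun e => p e.2)).card : ℝ) := by
  rw [Finset.card_eq_sum_card_fiberwise (f := Prod.snd) (t := B G) (s := G.filter (fun e => p e.2))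
    (by
      intro e he
      exact Finset.mem_coe.2 (snd_mem_B (Finset.mem_filter.1 (Finset.mem_coe.1 he)).1))]
  push_cast
  apply Finset.sum_congr rfl
  intro z _
  by_cases hp : p z
  · rw [if_pos hp]
    unfold dB
    congr 2
    ext e
    simp only [Finset.mem_filter]
    constructor
    · rintro ⟨h1, rfl⟩
      exact ⟨⟨h1, hp⟩, rfl⟩
    · rintro ⟨⟨h1, _⟩, h2⟩
      exact ⟨h1, h2⟩
  · rw [if_neg hp]
    symm
    rw [Nat.cast_eq_zero, Finset.card_eq_zero, Finset.filter_eq_empty_iff]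
    intro e he h
    rw [Finset.mem_filter] at he
    exact hp (h ▸ he.2)

theorem dB_eq_zero {G : Finset (ι × ι)} {z : ι} (h : z ∉ B G) : dB G z = 0 := by
  unfold dB
  rw [Finset.card_eq_zero, Finset.filter_eq_empty_iff]
  intro e he h1
  exact h (h1 ▸ snd_mem_B he)

theorem dB_pos {G : Finset (ι × ι)} {b : ι} (hb : b ∈ B G) : 0 < dB G b := by
  obtain ⟨e, he, rfl⟩ := Finset.mem_image.1 hb
  exact Finset.card_pos.2 ⟨e, Finset.mem_filter.2 ⟨he, rfl⟩⟩

/-- degree weight of one window -/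
noncomputable def dw (G : Finset (ι × ι)) (z : ι) : ℝ := dB G z / G.card

theorem dw_nonneg (G : Finset (ι × ι)) (z : ι) : 0 ≤ dw G z := by
  unfold dw; positivity

theorem ms_dw (G : Finset (ι × ι)) (p : ι → Prop) :
    ms G (dw G) p = ((G.filter (fun e => p e.2)).card : ℝ) / G.card := by
  unfold ms dw
  rw [← sum_dB_filter, Finset.sum_div]
  apply Finset.sum_congr rfl
  intro z _
  split_ifs
  · rfl
  · simp

theorem reg_sub {QA QB rho : ℝ} {F G : Finset (ι × ι)} (h : Reg QA QB rho F) (hG : G ⊆ F)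
    (hQA : 0 ≤ QA) (hQB : 0 ≤ QB) (hrho : 0 ≤ rho) {c : ℝ} (hc : (F.card : ℝ) ≤ c * G.card) :
    Reg QA QB (c * rho) G := by
  unfold Reg at *
  have h1 : ((A G).card : ℝ) ≤ (A F).card := by exact_mod_cast Finset.card_le_card (A_mono hG)
  have h2 : ((B G).card : ℝ) ≤ (B F).card := by exact_mod_cast Finset.card_le_card (B_mono hG)
  calc _ ≤ QA * (A F).card + QB * (B F).card :=
        add_le_add (mul_le_mul_of_nonneg_left h1 hQA) (mul_le_mul_of_nonneg_left h2 hQB)
    _ ≤ rho * F.card := h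
    _ ≤ rho * (c * G.card) := mul_le_mul_of_nonneg_left hc hrho
    _ = _ := by ring

/-- value of a dense set of edges -/
theorem nu_ge_of_reg {L : Lines ι} {P rho Q QA QB : ℝ} {F G : Finset (ι × ι)} (hD : Dens L P F)
    (hG : G ⊆ F) (hne : G.Nonempty) (hR : Reg QA QB rho G) (hrho : 0 ≤ rho)
    (hQA : Q ≤ QA) (hQB : Q ≤ QB) : Q ≤ P * rho * L.nu G := by
  obtain ⟨e, he⟩ := hne
  have hA : (0 : ℝ) < (A G).card := by
    exact_mod_cast Finset.card_pos.2 ⟨_, fst_mem_A he⟩
  have hB : (0 : ℝ) < (B G).card := by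
    exact_mod_cast Finset.card_pos.2 ⟨_, snd_mem_B he⟩
  have h1 : Q * ((A G).card + (B G).card) ≤ QA * (A G).card + QB * (B G).card := by
    nlinarith
  have h2 := hD G hG
  unfold Reg at hR
  have h3 : Q * ((A G).card + (B G).card) ≤ P * rho * L.nu G * ((A G).card + (B G).card) := by
    calc _ ≤ _ := h1
      _ ≤ rho * G.card := hR
      _ ≤ rho * (P * ((A G).card + (B G).card) * L.nu G) := mul_le_mul_of_nonneg_left h2 hrho
      _ = _ := by ring
  exact le_of_mul_le_mul_right h3 (by positivity)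

theorem gen_lt_of_le {L : Lines ι} {X : Finset ι} {t : ℝ} (h : Gen L X t) {x y : ι} (hx : x ∈ X)
    (hy : y ∈ X) (hxy : x ≠ y) (h1 : L.H x t ≤ L.H y t) : L.H x t < L.H y t :=
  lt_of_le_of_ne h1 (h x hx y hy hxy)

end Pool.Agent.GG38.Q
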