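import Pool.Agent.Lib.MP_38fd99_co.Q.Spec

/-!
# MP_38fd99_co, full Q1: both sides cannot be flat (`StmtStepF`)
-/

set_option autoImplicit false

namespace Pool.Agent.GG38.Q

open Finset Classical

namespace StepFM

variable {ι : Type}

theorem lam_facts {L : Lines ι} {E E' : Finset (ι × ι)} {θ : ℕ → ℝ} {idx : ι × ι → ℕ} {q : ℕ}
    {qA qB : ℕ → ℕ} {N I Z Lw lam g : ℕ} {P Lam : ℝ}
    (hT : Top L E E' θ idx q qA qB N I Z Lw lam g P Lam) :
    13000 * P * (8 * (lam : ℝ)) ^ 2 ≤ Lam ∧ 1 ≤ Lam := by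
  have hlam : (1 : ℝ) ≤ lam := by exact_mod_cast hT.lam1
  have hP := hT.P1
  have hZ : (0 : ℝ) ≤ Z := Nat.cast_nonneg Z
  have h2 : (1 : ℝ) ≤ (8 * (lam : ℝ)) ^ 2 := one_le_pow₀ (by linarith)
  have e1 : (1 : ℝ) ≤ ((Z : ℝ) + 1) ^ 2 := one_le_pow₀ (by linarith)
  have hPl : (1 : ℝ) ≤ P * (8 * (lam : ℝ)) ^ 2 := by nlinarith
  have h3 : (10 : ℝ) ^ 10 * (P * (8 * lam) ^ 2) ≤ Lam := by
    refine le_trans ?_ hT.hLam
    calc (10 : ℝ) ^ 10 * (P * (8 * lam) ^ 2) = 10 ^ 10 * 1 * P * (8 * lam) ^ 2 := by ring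
      _ ≤ 10 ^ 10 * ((Z : ℝ) + 1) ^ 2 * P * (8 * lam) ^ 2 := by gcongr
  constructor
  · refine le_trans ?_ h3
    have : 13000 * P * (8 * (lam : ℝ)) ^ 2 = 13000 * (P * (8 * (lam : ℝ)) ^ 2) := by ring
    rw [this]
    have h0 : (0 : ℝ) ≤ P * (8 * (lam : ℝ)) ^ 2 := by linarith
    exact mul_le_mul_of_nonneg_right (by norm_num) h0
  · nlinarith

theorem frozB (h2 : StmtFroz) {L : Lines ι} {E E' : Finset (ι × ι)} {θ : ℕ → ℝ}
    {idx : ι × ι → ℕ} {q : ℕ} {qA qB : ℕ → ℕ} {N I Z Lw lam g : ℕ} {P Lam : ℝ}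
    (hT : Top L E E' θ idx q qA qB N I Z Lw lam g P Lam) {i : ℕ} (hi : i < I)
    (hflat : qB (i + 1) ≤ qB i + g) :
    ((E'.filter (fun e => ¬ Fr L E' (θ (idx e / Lw ^ (i + 1) * Lw ^ (i + 1)))
      (θ ((idx e / Lw ^ (i + 1) + 1) * Lw ^ (i + 1))) (2 ^ qB i / Lam) e.2)).card : ℝ) ≤
      4 * N * Lam * 2 ^ g * (B E).card := by
  have hLam1 := (lam_facts hT).2
  have hLam0 : 0 < Lam := by linarith
  have hQB : (0 : ℝ) < 2 ^ qB i := by positivity
  have hu : (0 : ℝ) < 2 ^ qB i / Lam := div_pos hQB hLam0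
  have hI' : Inst L E' := hT.inst.mono hT.sub
  have hnu : (L.nu E' : ℝ) ≤ N := by
    have := (L.nu_mono hT.sub).trans hT.nuE
    exact_mod_cast this
  have hFz := h2 ι L E' θ idx (Lw ^ (i + 1)) (2 ^ qB i / Lam) N (2 * 2 ^ qB (i + 1)) hI'
    hT.clk.mono hu (by positivity) hnu (by
      intro b w
      have := hT.degB (i + 1) (by omega) b w
      exact_mod_cast this)
  refine hFz.trans ?_
  have hBE : ((B E').card : ℝ) ≤ (B E).card := by
    exact_mod_cast Finset.card_le_card (B_mono hT.sub)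
  have e1 : (2 : ℝ) ^ qB (i + 1) ≤ 2 ^ g * 2 ^ qB i := by
    rw [← pow_add]
    exact pow_le_pow_right₀ (by norm_num) (by omega)
  have e2 : 2 * (N : ℝ) / (2 ^ qB i / Lam) * (2 * 2 ^ qB (i + 1)) * (B E').card
      ≤ 2 * (N : ℝ) / (2 ^ qB i / Lam) * (2 * (2 ^ g * 2 ^ qB i)) * (B E).card := by
    have h0 : (0 : ℝ) ≤ 2 * (N : ℝ) / (2 ^ qB i / Lam) := by positivity
    gcongr
  have e3 : 2 * (N : ℝ) / (2 ^ qB i / Lam) * (2 * (2 ^ g * 2 ^ qB i)) * (B E).card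
      = 4 * N * Lam * 2 ^ g * (B E).card := by
    field_simp
    ring
  linarith

theorem frozA (h2 : StmtFroz) (h4 : StmtTopNeg) {L : Lines ι} {E E' : Finset (ι × ι)}
    {θ : ℕ → ℝ} {idx : ι × ι → ℕ} {q : ℕ} {qA qB : ℕ → ℕ} {N I Z Lw lam g : ℕ} {P Lam : ℝ}
    (hT : Top L E E' θ idx q qA qB N I Z Lw lam g P Lam) {i : ℕ} (hi : i < I)
    (hflat : qA (i + 1) ≤ qA i + g) :
    ((E'.filter (fun e => ¬ Fr L.neg (Esw E') (θ (idx e / Lw ^ (i + 1) * Lw ^ (i + 1)))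
      (θ ((idx e / Lw ^ (i + 1) + 1) * Lw ^ (i + 1))) (2 ^ qA i / Lam) e.1)).card : ℝ) ≤
      4 * N * Lam * 2 ^ g * (A E).card := by
  have h := frozB h2 (h4 ι L E E' θ idx q qA qB N I Z Lw lam g P Lam hT) hi hflat
  have hset : (Esw E').filter (fun e => ¬ Fr L.neg (Esw E')
      (θ (idx e.swap / Lw ^ (i + 1) * Lw ^ (i + 1)))
      (θ ((idx e.swap / Lw ^ (i + 1) + 1) * Lw ^ (i + 1))) (2 ^ qA i / Lam) e.2) =
      Esw (E'.filter (fun e => ¬ Fr L.neg (Esw E') (θ (idx e / Lw ^ (i + 1) * Lw ^ (i + 1)))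
      (θ ((idx e / Lw ^ (i + 1) + 1) * Lw ^ (i + 1))) (2 ^ qA i / Lam) e.1)) := by
    ext e
    rw [Finset.mem_filter, mem_Esw', mem_Esw', Finset.mem_filter, Prod.fst_swap]
  rw [hset, card_Esw, B_Esw] at h
  exact h

theorem stepF_aux (h1 : StmtStepWins) (h2 : StmtFroz) (h3 : StmtStepV) (h4 : StmtTopNeg)
    (hF : StmtF) {L : Lines ι} {E E' : Finset (ι × ι)} {θ : ℕ → ℝ} {idx : ι × ι → ℕ} {q : ℕ}
    {qA qB : ℕ → ℕ} {N I Z Lw lam g : ℕ} {P Lam : ℝ}
    (hT : Top L E E' θ idx q qA qB N I Z Lw lam g P Lam) {i : ℕ} (hi : i < I)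
    (hfA : qA (i + 1) ≤ qA i + g) (hfB : qB (i + 1) ≤ qB i + g) (hAB : qA i ≤ qB i) : False := by
  have hlam : (1 : ℝ) ≤ lam := by exact_mod_cast hT.lam1
  have hN : (1 : ℝ) ≤ N := by exact_mod_cast hT.N1
  have hP := hT.P1
  have hZ : (0 : ℝ) ≤ Z := Nat.cast_nonneg Z
  obtain ⟨hLamV, hLam1⟩ := lam_facts hT
  have hLam0 : 0 < Lam := by linarith
  have hrho : (1 : ℝ) ≤ 8 * lam := by linarith
  have hQB := h3 ι L.neg (Esw E) (Esw E') θ (fun e => idx e.swap) q qB qA N I Z Lw lam g P Lam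
    (h4 ι L E E' θ idx q qA qB N I Z Lw lam g P Lam hT) i hi hfA
  have hQBN : (2 : ℝ) ^ qB i ≤ N * Lam := by
    refine hQB.trans ?_
    rw [mul_comm (N : ℝ) Lam]
    exact mul_le_mul_of_nonneg_right hLamV (by linarith)
  have hnu : (L.nu E' : ℝ) ≤ N := by
    have := (L.nu_mono hT.sub).trans hT.nuE
    exact_mod_cast this
  -- the good edges
  let p1 : ι × ι → Prop := fun e => Fr L E' (θ (idx e / Lw ^ (i + 1) * Lw ^ (i + 1)))
      (θ ((idx e / Lw ^ (i + 1) + 1) * Lw ^ (i + 1))) (2 ^ qB i / Lam) e.2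
  let p2 : ι × ι → Prop := fun e => Fr L.neg (Esw E') (θ (idx e / Lw ^ (i + 1) * Lw ^ (i + 1)))
      (θ ((idx e / Lw ^ (i + 1) + 1) * Lw ^ (i + 1))) (2 ^ qA i / Lam) e.1
  let p : ι × ι → Prop := fun e => p1 e ∧ p2 e
  have hb1 : ((E'.filter (fun e => ¬ p1 e)).card : ℝ) ≤ 4 * N * Lam * 2 ^ g * (B E).card :=
    frozB h2 hT hi hfB
  have hb2 : ((E'.filter (fun e => ¬ p2 e)).card : ℝ) ≤ 4 * N * Lam * 2 ^ g * (A E).card :=
    frozA h2 h4 hT hi hfA
  have hsplit : (E'.filter p).card + (E'.filter (fun e => ¬ p e)).card = E'.card :=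
    Finset.card_filter_add_card_filter_not p
  have hor : (E'.filter (fun e => ¬ p e)).card ≤
      (E'.filter (fun e => ¬ p1 e)).card + (E'.filter (fun e => ¬ p2 e)).card := by
    refine le_trans (Finset.card_le_card ?_) (Finset.card_union_le _ _)
    intro e he
    rw [Finset.mem_filter] at he
    rw [Finset.mem_union, Finset.mem_filter, Finset.mem_filter]
    by_cases h : p1 e
    · exact Or.inr ⟨he.1, fun h' => he.2 ⟨h, h'⟩⟩
    · exact Or.inl ⟨he.1, h⟩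
  have hhalf : E'.card ≤ 2 * (E'.filter p).card := by
    have e1 : ((E'.filter p).card : ℝ) + (E'.filter (fun e => ¬ p e)).card = E'.card := by
      exact_mod_cast hsplit
    have e2 : ((E'.filter (fun e => ¬ p e)).card : ℝ) ≤
        (E'.filter (fun e => ¬ p1 e)).card + (E'.filter (fun e => ¬ p2 e)).card := by
      exact_mod_cast hor
    have e3 := hT.many
    have e4 : 16 * (N : ℝ) * Lam * 2 ^ g * ((A E).card + (B E).card) =
      4 * (4 * N * Lam * 2 ^ g * (A E).card + 4 * N * Lam * 2 ^ g * (B E).card) := by ring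
    have e5 : (E'.card : ℝ) ≤ 2 * (E'.filter p).card := by
      have e6 : (0 : ℝ) ≤ E'.card := Nat.cast_nonneg _
      linarith
    exact_mod_cast e5
  obtain ⟨J, T, hW, hJ, hReg, hcard⟩ := h1 ι L E E' θ idx q qA qB N I Z Lw lam g P Lam hT i hi
    (E'.filter p) (Finset.filter_subset _ _) hhalf
  -- the size of `T`
  have hTc : 400000 * ((Z : ℝ) + 1) * (N * Lam) ^ 7 < T.card := by
    have e1 := lt_of_lt_of_le hT.hLw hcard
    have e2 : (0 : ℝ) < 8 * lam * N := by positivity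
    have e3 : 400000 * ((Z : ℝ) + 1) * (N * Lam) ^ 7 * (8 * lam * N) < T.card * (8 * lam * N) := by
      calc 400000 * ((Z : ℝ) + 1) * (N * Lam) ^ 7 * (8 * lam * N) < 8 * lam * N * T.card := e1
        _ = T.card * (8 * lam * N) := by ring
    exact lt_of_mul_lt_mul_right e3 e2.le
  have hMJ : ∀ j ∈ T, ∀ e, idx e / Lw ^ i = j → idx e / Lw ^ (i + 1) = J := by
    intro j hj e he
    rw [pow_succ, ← Nat.div_div_eq_div_mul, he]
    exact hJ j hj
  have hres := hF ι L E' _ _ T _ _ _ Z (2 ^ qA i) (2 ^ qB i) P (8 * lam) N Lam hW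
    (one_le_pow₀ (by norm_num)) (pow_le_pow_right₀ (by norm_num) hAB) hP hrho hnu hN hT.hLam
    hQBN ?_ ?_ ?_ hReg ?_ ?_
  · exact absurd hres (not_le.2 hTc)
  · -- number of slow lines
    have e1 : T.biUnion (fun w => (E'.filter p).filter (fun e => idx e / Lw ^ i = w)) ⊆
        E'.filter (fun e => idx e / Lw ^ (i + 1) = J) := by
      intro e he
      rw [Finset.mem_biUnion] at he
      obtain ⟨w, hw, he⟩ := he
      rw [Finset.mem_filter, Finset.mem_filter] at he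
      rw [Finset.mem_filter]
      exact ⟨he.1.1, hMJ w hw e he.2⟩
    have e2 := Finset.card_le_card (A_mono e1)
    have e3 : (A (E'.filter (fun e => idx e / Lw ^ (i + 1) = J))).card ≤
        (E'.filter (fun e => idx e / Lw ^ (i + 1) = J)).card := Finset.card_image_le
    exact e2.trans (e3.trans (hT.small (i + 1) (by omega) J))
  · -- degrees
    intro j _ a
    have e1 : dA ((E'.filter p).filter (fun e => idx e / Lw ^ i = j)) a
        ≤ (E'.filter (fun e => e.1 = a ∧ idx e / Lw ^ i = j)).card := by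
      unfold dA
      apply Finset.card_le_card
      intro e he
      rw [Finset.mem_filter, Finset.mem_filter, Finset.mem_filter] at he
      rw [Finset.mem_filter]
      exact ⟨he.1.1.1, he.2, he.1.2⟩
    have e2 := e1.trans (hT.degA i (by omega) a j)
    exact_mod_cast e2
  · -- density
    intro j _
    refine (hT.dens i (by omega) j).mono ?_
    intro e he
    rw [Finset.mem_filter, Finset.mem_filter] at he
    rw [Finset.mem_filter]
    exact ⟨he.1.1, he.2⟩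
  · -- frozen slow lines
    intro j hj x hx
    obtain ⟨b, hb⟩ := mem_A.1 hx
    rw [Finset.mem_filter, Finset.mem_filter] at hb
    obtain ⟨⟨_, hp⟩, hidx⟩ := hb
    have hp' : Fr L.neg (Esw E') (θ (idx (x, b) / Lw ^ (i + 1) * Lw ^ (i + 1)))
      (θ ((idx (x, b) / Lw ^ (i + 1) + 1) * Lw ^ (i + 1))) (2 ^ qA i / Lam) x := hp.2
    rw [hMJ j hj _ hidx] at hp'
    exact hp'
  · -- frozen fast lines
    intro j hj x hx
    obtain ⟨a, ha⟩ := mem_B.1 hx
    rw [Finset.mem_filter, Finset.mem_filter] at ha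
    obtain ⟨⟨_, hp⟩, hidx⟩ := ha
    have hp' : Fr L E' (θ (idx (a, x) / Lw ^ (i + 1) * Lw ^ (i + 1)))
      (θ ((idx (a, x) / Lw ^ (i + 1) + 1) * Lw ^ (i + 1))) (2 ^ qB i / Lam) x := hp.1
    rw [hMJ j hj _ hidx] at hp'
    exact hp'

end StepFM

open StepFM in
theorem stepF (h1 : StmtStepWins) (h2 : StmtFroz) (h3 : StmtStepV) (hF : StmtF)
    (h4 : StmtTopNeg) : StmtStepF := by
  intro ι L E E' θ idx q qA qB N I Z Lw lam g P Lam hT i hi hfA hfB
  rcases le_total (qA i) (qB i) with h | h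
  · exact stepF_aux h1 h2 h3 h4 hF hT hi hfA hfB h
  · exact stepF_aux h1 h2 h3 h4 hF (h4 ι L E E' θ idx q qA qB N I Z Lw lam g P Lam hT) hi hfB hfA h

end Pool.Agent.GG38.Q
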