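import Pool.Agent.Lib.MP_38fd99_co.Q.Lab
import Pool.Agent.Lib.MP_38fd99_co.Q1.Bundles

/-!
# MP_38fd99_co, full Q1: separated frozen bundles are few (T3)
-/

set_option autoImplicit false

namespace Pool.Agent.GG38.Q

open Finset Classical

variable {ι : Type}

theorem ms_mem {F : Finset (ι × ι)} {w : ι → ℝ} {S : Finset ι} (hS : S ⊆ B F) :
    ms F w (fun z => z ∈ S) = ∑ z ∈ S, w z := by
  have h1 : ms F w (fun z => z ∈ S) = ∑ z ∈ B F, (if z ∈ S then w z else 0) := by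
    unfold ms
    apply Finset.sum_congr rfl
    intro z _
    by_cases hz : z ∈ S
    · simp [hz]
    · simp [hz]
  rw [h1, ← Finset.sum_filter]
  apply Finset.sum_congr _ (fun _ _ => rfl)
  ext z
  rw [Finset.mem_filter]
  exact ⟨fun h => h.2, fun h => ⟨hS h, h⟩⟩

theorem ms_filter {F : Finset (ι × ι)} {w : ι → ℝ} (p : ι → Prop) :
    ms F w p = ∑ z ∈ (B F).filter p, w z := by
  unfold ms
  rw [Finset.sum_filter]

/-- the bundle in the form of `Q1/Bundles.lean` -/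
noncomputable def Bundle.toBun {L : Lines ι} {E : Finset (ι × ι)} {t0 t1 u s s' : ℝ}
    {F : Finset (ι × ι)} {w : ι → ℝ} (h : Bundle L E t0 t1 u s s' F w) : Bun L E t0 t1 u where
  s := s
  s' := s'
  E := F
  om := w
  hs := h.t0s
  hss := h.ss'
  hs' := h.s't1
  sub := h.sub
  tm1 := fun e he => (h.tim e he).1
  tm2 := fun e he => (h.tim e he).2
  om0 := fun x _ => h.w0 x
  om1 := by
    have := h.w1
    unfold ms at this
    simpa using this
  v0 := fun S hS h1 => by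
    have := h.v0 (fun z => z ∈ S) (by rw [ms_mem hS]; exact h1)
    convert this
  v1 := fun S hS h1 => by
    have := h.v1 (fun z => z ∈ S) (by rw [ms_mem hS]; exact h1)
    convert this
  fV := fun x hx => (h.fr x hx).1
  fW := fun x hx => (h.fr x hx).2
  gen := fun x hx y hy hxy => h.gs x
    (Finset.mem_union_right _ (B_mono h.sub hx)) y (Finset.mem_union_right _ (B_mono h.sub hy)) hxy

theorem toBun_T {L : Lines ι} {E : Finset (ι × ι)} {t0 t1 u s s' : ℝ}
    {F : Finset (ι × ι)} {w : ι → ℝ} (h : Bundle L E t0 t1 u s s' F w) (x : ι) :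
    x ∈ h.toBun.T ↔ Trim L t0 F w x := by
  rw [Bun.mem_T]
  unfold Trim
  rw [ms_filter, ms_filter]
  rfl

theorem toBun_M {L : Lines ι} {E : Finset (ι × ι)} {t0 t1 u s s' : ℝ}
    {F : Finset (ι × ι)} {w : ι → ℝ} (h : Bundle L E t0 t1 u s s' F w)
    (g0 : Gen L (A E ∪ B E) t0) (x : ι) : x ∈ h.toBun.M ↔ Mid L t0 t1 F w x := by
  rw [Bun.mem_M]
  unfold Mid
  have h1 : h.toBun.low x = ms F w (fun z => L.H z t0 ≤ L.H x t0) := by
    rw [ms_filter]
    rfl
  have h2 : h.toBun.up x = ms F w (fun z => L.H x t0 ≤ L.H z t0) := by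
    rw [ms_filter]
    rfl
  rw [h1, h2]
  have h3 : x ∈ B F → h.toBun.ovb x
      = ms F w (fun z => L.H z t0 < L.H x t0 ∧ L.H x t1 < L.H z t1) := by
    intro hx
    rw [ms_filter]
    have h5 : h.toBun.ovb x = ∑ z ∈ (B F).filter
        (fun z => L.H z t0 ≤ L.H x t0 ∧ L.H x t1 < L.H z t1), w z := rfl
    rw [h5]
    apply Finset.sum_congr _ (fun _ _ => rfl)
    · ext z
      simp only [Finset.mem_filter]
      apply and_congr_right
      intro hz
      constructor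
      · rintro ⟨e1, e2⟩
        refine ⟨lt_of_le_of_ne e1 ?_, e2⟩
        apply g0 z (Finset.mem_union_right _ (B_mono h.sub hz)) x
          (Finset.mem_union_right _ (B_mono h.sub hx))
        rintro rfl
        exact lt_irrefl _ e2
      · rintro ⟨e1, e2⟩
        exact ⟨e1.le, e2⟩
  constructor
  · rintro ⟨e1, e2, e3, e4⟩
    exact ⟨e1, e2, e3, by rw [← h3 e1]; exact e4⟩
  · rintro ⟨e1, e2, e3, e4⟩
    exact ⟨e1, e2, e3, by rw [h3 e1]; exact e4⟩

theorem midMass {L : Lines ι} {E : Finset (ι × ι)} {t0 t1 u s s' : ℝ} {F : Finset (ι × ι)}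
    {w : ι → ℝ} (hI : Inst L E) (g0 : Gen L (A E ∪ B E) t0)
    (h : Bundle L E t0 t1 u s s' F w) : 3 / 8 ≤ ms F w (Mid L t0 t1 F w) := by
  have h1 := h.toBun.mass_M (fun e he => fst_lt hI he)
  refine h1.trans (le_of_eq ?_)
  rw [ms_filter]
  apply Finset.sum_congr _ (fun _ _ => rfl)
  ext x
  rw [toBun_M h g0, Finset.mem_filter]
  exact ⟨fun hx => ⟨hx.1, hx⟩, fun hx => hx.2⟩

/-- the middle parts of separated bundles are ordered at all times -/
theorem midOrd {L : Lines ι} {E : Finset (ι × ι)} {t0 t1 u s s' r r' : ℝ}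
    {F F' : Finset (ι × ι)} {w w' : ι → ℝ} (hI : Inst L E) (g0 : Gen L (A E ∪ B E) t0)
    (g1 : Gen L (A E ∪ B E) t1) (h' : Bundle L E t0 t1 u r r' F' w')
    (h : Bundle L E t0 t1 u s s' F w) (hT : TSep L t0 F' w' F w) {t : ℝ} (ht0 : t0 ≤ t)
    (ht1 : t ≤ t1) {z x : ι} (hz : Mid L t0 t1 F' w' z) (hx : Mid L t0 t1 F w x) :
    L.H z t < L.H x t := by
  refine h'.toBun.M_lt h.toBun (fun e he => fst_lt hI he) ?_ ?_ ((toBun_M h' g0 z).2 hz)
    ((toBun_M h g0 x).2 hx) ht0 ht1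
  · intro x hx y hy
    exact g1 x (Finset.mem_union_right _ hx) y (Finset.mem_union_right _ hy)
  · intro a ha b hb
    exact hT a ((toBun_T h' a).1 ha) b ((toBun_T h b).1 hb)

theorem t3 (L : Lines ι) (E : Finset (ι × ι)) (t0 t1 u N : ℝ) (κ : Type) (K : Finset κ)
    (s s' : κ → ℝ) (F : κ → Finset (ι × ι)) (w : κ → ι → ℝ) (hI : Inst L E)
    (_ : Gen L (A E ∪ B E) t0) (g1 : Gen L (A E ∪ B E) t1) (hu : 0 < u)
    (hN : (L.nu E : ℝ) ≤ N) (hb : ∀ k ∈ K, Bundle L E t0 t1 u (s k) (s' k) (F k) (w k))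
    (hT : ∀ k ∈ K, ∀ l ∈ K, k ≠ l →
      TSep L t0 (F k) (w k) (F l) (w l) ∨ TSep L t0 (F l) (w l) (F k) (w k)) :
    (K.card : ℝ) ≤ 3 * (N / u + 1) ^ 2 := by
  have h1 := card_bundles (L := L) (EE := E) (t0 := t0) (t1 := t1) hu
    (fun e he => fst_lt hI he)
    (fun x hx y hy => g1 x (Finset.mem_union_right _ hx) y (Finset.mem_union_right _ hy))
    (fun x hx y hy hv => hI.inj (by simp [hx]) (by simp [hy]) hv)
    K.attach (fun k => (hb k.1 k.2).toBun)
    (by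
      intro k _ l _ hkl
      have hkl' : k.1 ≠ l.1 := fun h => hkl (Subtype.ext h)
      rcases hT k.1 k.2 l.1 l.2 hkl' with h | h
      · left
        intro x hx y hy
        exact h x ((toBun_T (hb k.1 k.2) x).1 hx) y ((toBun_T (hb l.1 l.2) y).1 hy)
      · right
        intro x hx y hy
        exact h x ((toBun_T (hb l.1 l.2) x).1 hx) y ((toBun_T (hb k.1 k.2) y).1 hy))
  rw [Finset.card_attach] at h1
  have h2 : (K.card : ℝ) ≤ 3 * ((⌊(L.nu E : ℝ) / u⌋₊ : ℝ) + 1) ^ 2 := by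
    exact_mod_cast h1
  have h3 : (⌊(L.nu E : ℝ) / u⌋₊ : ℝ) ≤ N / u :=
    (Nat.floor_le (by positivity)).trans (div_le_div_of_nonneg_right hN hu.le)
  refine h2.trans ?_
  have h4 : (0 : ℝ) ≤ (⌊(L.nu E : ℝ) / u⌋₊ : ℝ) := by positivity
  nlinarith

end Pool.Agent.GG38.Q
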