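import Pool.Agent.Lib.MP_38fd99_co.Q.T3

/-!
# MP_38fd99_co, full Q1: tools for the value lemma (Mirsky, slots)
-/

set_option autoImplicit false

namespace Pool.Agent.GG38.Q

open Finset Classical

/-- Mirsky: if all antichains have at most `a` elements there is a long chain -/
theorem mirsky {α : Type} (S : Finset α) (r : α → α → Prop) (hirr : ∀ x ∈ S, ¬ r x x)
    (htr : ∀ x ∈ S, ∀ y ∈ S, ∀ z ∈ S, r x y → r y z → r x z) (a : ℕ)
    (ha : ∀ A' ⊆ S, (∀ x ∈ A', ∀ y ∈ A', ¬ r x y) → A'.card ≤ a) :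
    ∃ C ⊆ S, (∀ x ∈ C, ∀ y ∈ C, x ≠ y → r x y ∨ r y x) ∧ S.card ≤ a * C.card := by
  let Ch : Finset (Finset α) :=
    S.powerset.filter (fun C => ∀ x ∈ C, ∀ y ∈ C, x ≠ y → r x y ∨ r y x)
  have memCh : ∀ C, C ∈ Ch ↔ C ⊆ S ∧ ∀ x ∈ C, ∀ y ∈ C, x ≠ y → r x y ∨ r y x := by
    intro C
    simp only [Ch, Finset.mem_filter, Finset.mem_powerset]
  have hne : Ch.Nonempty := ⟨∅, (memCh ∅).2 ⟨Finset.empty_subset _, by simp⟩⟩
  obtain ⟨C, hC, hmax⟩ := Finset.exists_max_image Ch Finset.card hne
  let Tp : α → Finset (Finset α) := fun x => Ch.filter (fun D => x ∈ D ∧ ∀ y ∈ D, y ≠ x → r y x)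
  have memTp : ∀ x D, D ∈ Tp x ↔ D ∈ Ch ∧ x ∈ D ∧ ∀ y ∈ D, y ≠ x → r y x := by
    intro x D
    simp only [Tp, Finset.mem_filter]
  let f : α → ℕ := fun x => (Tp x).sup Finset.card
  have hsing : ∀ x ∈ S, ({x} : Finset α) ∈ Tp x := by
    intro x hx
    rw [memTp, memCh]
    refine ⟨⟨by simpa using hx, ?_⟩, by simp, ?_⟩
    · intro y hy z hz hyz
      rw [Finset.mem_singleton] at hy hz
      exact absurd (hy.trans hz.symm) hyz
    · intro y hy hyx
      exact absurd (Finset.mem_singleton.1 hy) hyx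
  have hf1 : ∀ x ∈ S, 1 ≤ f x := by
    intro x hx
    have := Finset.le_sup (f := Finset.card) (hsing x hx)
    rw [Finset.card_singleton] at this
    exact this
  have hf2 : ∀ x, f x ≤ C.card := by
    intro x
    apply Finset.sup_le
    intro D hD
    exact hmax D ((memTp x D).1 hD).1
  have hf3 : ∀ x ∈ S, ∀ y ∈ S, r x y → f x < f y := by
    intro x hx y hy hxy
    obtain ⟨D, hD, hDc⟩ := Finset.exists_mem_eq_sup (Tp x) ⟨_, hsing x hx⟩ Finset.card
    obtain ⟨hD1, hD2, hD3⟩ := (memTp x D).1 hD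
    obtain ⟨hD4, hD5⟩ := (memCh D).1 hD1
    have hlt : ∀ z ∈ D, r z y := by
      intro z hz
      by_cases hzx : z = x
      · rw [hzx]
        exact hxy
      · exact htr z (hD4 hz) x hx y hy (hD3 z hz hzx) hxy
    have hyD : y ∉ D := fun h => hirr y hy (hlt y h)
    have h1 : insert y D ∈ Tp y := by
      rw [memTp, memCh]
      refine ⟨⟨?_, ?_⟩, Finset.mem_insert_self _ _, ?_⟩
      · intro z hz
        rcases Finset.mem_insert.1 hz with h | h
        · rw [h]
          exact hy
        · exact hD4 h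
      · intro z hz w hw hzw
        rcases Finset.mem_insert.1 hz with h | h
        · rcases Finset.mem_insert.1 hw with h' | h'
          · exact absurd (h.trans h'.symm) hzw
          · right
            rw [h]
            exact hlt w h'
        · rcases Finset.mem_insert.1 hw with h' | h'
          · left
            rw [h']
            exact hlt z h
          · exact hD5 z h w h' hzw
      · intro z hz hzy
        rcases Finset.mem_insert.1 hz with h | h
        · exact absurd h hzy
        · exact hlt z h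
    have h2 := Finset.le_sup (f := Finset.card) h1
    rw [Finset.card_insert_of_notMem hyD] at h2
    have h3 : f x = D.card := hDc
    have h4 : f y = (Tp y).sup Finset.card := rfl
    omega
  refine ⟨C, ((memCh C).1 hC).1, ((memCh C).1 hC).2, ?_⟩
  have h1 : S.card = ∑ v ∈ Finset.Icc 1 C.card, (S.filter (fun x => f x = v)).card := by
    apply Finset.card_eq_sum_card_fiberwise
    intro x hx
    exact Finset.mem_coe.2 (Finset.mem_Icc.2 ⟨hf1 x hx, hf2 x⟩)
  rw [h1]
  calc ∑ v ∈ Finset.Icc 1 C.card, (S.filter (fun x => f x = v)).card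
      ≤ ∑ _v ∈ Finset.Icc 1 C.card, a := by
        apply Finset.sum_le_sum
        intro v _
        apply ha _ (Finset.filter_subset _ _)
        intro x hx y hy hxy
        rw [Finset.mem_filter] at hx hy
        have := hf3 x hx.1 y hy.1 hxy
        omega
    _ = a * C.card := by
        rw [Finset.sum_const, Nat.card_Icc, smul_eq_mul, mul_comm]
        congr 1

section slots

variable {ι : Type} (X : Finset ι) (g : ι → ℝ) (d : ι → ℝ)

/-- mass strictly below `b` -/
noncomputable def cum (b : ι) : ℝ := ∑ z ∈ X.filter (fun z => g z < g b), d z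

/-- the slot number `i` of mass about `l` -/
noncomputable def slot (l : ℝ) (i : ℕ) : Finset ι :=
  X.filter (fun b => l * i ≤ cum X g d b ∧ cum X g d b < l * (i + 1))

variable {X g d}

theorem mem_slot {l : ℝ} {i : ℕ} {b : ι} :
    b ∈ slot X g d l i ↔ b ∈ X ∧ l * i ≤ cum X g d b ∧ cum X g d b < l * (i + 1) := by
  simp only [slot, Finset.mem_filter]

theorem cum_mono (h0 : ∀ b ∈ X, 0 ≤ d b) {b c : ι} (h : g b ≤ g c) :
    cum X g d b ≤ cum X g d c := by
  apply Finset.sum_le_sum_of_subset_of_nonneg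
  · intro z hz
    rw [Finset.mem_filter] at hz ⊢
    exact ⟨hz.1, hz.2.trans_le h⟩
  · intro z hz _
    exact h0 z (Finset.mem_filter.1 hz).1

/-- the slots are ordered -/
theorem slot_lt (h0 : ∀ b ∈ X, 0 ≤ d b) {l : ℝ} (hl : 0 ≤ l) {i j : ℕ} (hij : i < j) {b c : ι}
    (hb : b ∈ slot X g d l i) (hc : c ∈ slot X g d l j) : g b < g c := by
  by_contra hcon
  push Not at hcon
  rw [mem_slot] at hb hc
  have h1 := cum_mono h0 hcon
  have h2 : (i : ℝ) + 1 ≤ j := by exact_mod_cast hij
  have h3 := mul_le_mul_of_nonneg_left h2 hl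
  linarith [hb.2.2, hc.2.1]

theorem slot_disjoint (h0 : ∀ b ∈ X, 0 ≤ d b) {l : ℝ} (hl : 0 ≤ l) {i j : ℕ} (hij : i ≠ j) :
    Disjoint (slot X g d l i) (slot X g d l j) := by
  rw [Finset.disjoint_left]
  intro b hb hc
  rcases lt_or_gt_of_ne hij with h | h
  · exact lt_irrefl _ (slot_lt h0 hl h hb hc)
  · exact lt_irrefl _ (slot_lt h0 hl h hc hb)

/-- the mass of the elements with small `cum`, from above -/
theorem sum_cum_le (hg : ∀ b ∈ X, ∀ c ∈ X, g b = g c → b = c) (h0 : ∀ b ∈ X, 0 ≤ d b) {D : ℝ}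
    (hD : ∀ b ∈ X, d b ≤ D) (hD0 : 0 ≤ D) {y : ℝ} (hy : 0 ≤ y) :
    ∑ b ∈ X.filter (fun b => cum X g d b < y), d b ≤ y + D := by
  rcases (X.filter (fun b => cum X g d b < y)).eq_empty_or_nonempty with h | h
  · rw [h, Finset.sum_empty]
    linarith
  · obtain ⟨b, hb, hmax⟩ := Finset.exists_max_image _ g h
    have hb' := Finset.mem_filter.1 hb
    have h1 : ∑ z ∈ X.filter (fun b => cum X g d b < y), d z
        ≤ ∑ z ∈ insert b (X.filter (fun z => g z < g b)), d z := by
      apply Finset.sum_le_sum_of_subset_of_nonneg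
      · intro z hz
        rw [Finset.mem_insert, Finset.mem_filter]
        have hz' := Finset.mem_filter.1 hz
        rcases lt_or_eq_of_le (hmax z hz) with h2 | h2
        · exact Or.inr ⟨hz'.1, h2⟩
        · exact Or.inl (hg z hz'.1 b hb'.1 h2)
      · intro z hz _
        rcases Finset.mem_insert.1 hz with h2 | h2
        · rw [h2]
          exact h0 b hb'.1
        · exact h0 z (Finset.mem_filter.1 h2).1
    rw [Finset.sum_insert (by simp)] at h1
    have h2 : ∑ z ∈ X.filter (fun z => g z < g b), d z = cum X g d b := rfl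
    linarith [hD b hb'.1, hb'.2]

/-- the mass of the elements with small `cum`, from below -/
theorem le_sum_cum (h0 : ∀ b ∈ X, 0 ≤ d b) {y : ℝ} (hy : y ≤ ∑ b ∈ X, d b) :
    y ≤ ∑ b ∈ X.filter (fun b => cum X g d b < y), d b := by
  rcases (X.filter (fun b => ¬ cum X g d b < y)).eq_empty_or_nonempty with h | h
  · have h1 : X.filter (fun b => cum X g d b < y) = X := by
      rw [Finset.filter_eq_self]
      intro b hb
      by_contra hcon
      have : b ∈ X.filter (fun b => ¬ cum X g d b < y) := Finset.mem_filter.2 ⟨hb, hcon⟩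
      rw [h] at this
      exact absurd this (Finset.notMem_empty b)
    rw [h1]
    exact hy
  · obtain ⟨b, hb, hmin⟩ := Finset.exists_min_image _ g h
    have hb' := Finset.mem_filter.1 hb
    have h1 : cum X g d b ≤ ∑ b ∈ X.filter (fun b => cum X g d b < y), d b := by
      apply Finset.sum_le_sum_of_subset_of_nonneg
      · intro z hz
        rw [Finset.mem_filter] at hz ⊢
        refine ⟨hz.1, ?_⟩
        by_contra hcon
        have := hmin z (Finset.mem_filter.2 ⟨hz.1, hcon⟩)
        linarith [hz.2]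
      · intro z hz _
        exact h0 z (Finset.mem_filter.1 hz).1
    linarith [not_lt.1 hb'.2]

/-- the mass of a slot -/
theorem slot_mass (hg : ∀ b ∈ X, ∀ c ∈ X, g b = g c → b = c) (h0 : ∀ b ∈ X, 0 ≤ d b) {D : ℝ}
    (hD : ∀ b ∈ X, d b ≤ D) (hD0 : 0 ≤ D) {l : ℝ} (hl : 0 ≤ l) {i : ℕ}
    (hi : l * (i + 1) ≤ ∑ b ∈ X, d b) : l - D ≤ ∑ b ∈ slot X g d l i, d b := by
  have h1 := sum_cum_le (y := l * i) hg h0 hD hD0 (by positivity)
  have h2 := le_sum_cum (g := g) h0 hi
  have h3 : ∑ b ∈ X.filter (fun b => cum X g d b < l * (i + 1)), d b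
      = ∑ b ∈ X.filter (fun b => cum X g d b < l * i), d b + ∑ b ∈ slot X g d l i, d b := by
    simp only [slot, Finset.sum_filter, ← Finset.sum_add_distrib]
    apply Finset.sum_congr rfl
    intro b _
    by_cases c1 : cum X g d b < l * i
    · have c2 : cum X g d b < l * (i + 1) := by linarith
      rw [if_pos c2, if_pos c1, if_neg (fun h => absurd h.1 (not_le.2 c1)), add_zero]
    · by_cases c2 : cum X g d b < l * (i + 1)
      · rw [if_pos c2, if_neg c1, if_pos ⟨not_lt.1 c1, c2⟩, zero_add]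
      · rw [if_neg c2, if_neg c1, if_neg (fun h => c2 h.2), add_zero]
  linarith

/-- most slots are not too large -/
theorem slot_few (h0 : ∀ b ∈ X, 0 ≤ d b) {l : ℝ} (hl : 0 ≤ l) {R : ℕ} (hR : 1 ≤ R) :
    R ≤ ((Finset.range (2 * R)).filter
      (fun i => R * (slot X g d l i).card ≤ X.card)).card := by
  by_contra hcon
  push Not at hcon
  have h1 := Finset.card_filter_add_card_filter_not (s := Finset.range (2 * R))
    (fun i => R * (slot X g d l i).card ≤ X.card)
  rw [Finset.card_range] at h1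
  set Z := (Finset.range (2 * R)).filter (fun i => ¬ R * (slot X g d l i).card ≤ X.card) with hZ
  have hZc : R + 1 ≤ Z.card := by omega
  have h2 : ∑ i ∈ Z, (slot X g d l i).card ≤ X.card := by
    rw [← Finset.card_biUnion (fun i _ j _ hij => slot_disjoint h0 hl hij)]
    apply Finset.card_le_card
    intro b hb
    obtain ⟨i, _, hi⟩ := Finset.mem_biUnion.1 hb
    exact (mem_slot.1 hi).1
  have h3 : ∑ _i ∈ Z, (X.card + 1) ≤ ∑ i ∈ Z, R * (slot X g d l i).card := by
    apply Finset.sum_le_sum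
    intro i hi
    have := (Finset.mem_filter.1 hi).2
    omega
  rw [Finset.sum_const, smul_eq_mul, ← Finset.mul_sum] at h3
  have h4 : R * ∑ i ∈ Z, (slot X g d l i).card ≤ R * X.card := Nat.mul_le_mul_left _ h2
  have h5 : (R + 1) * (X.card + 1) ≤ Z.card * (X.card + 1) := Nat.mul_le_mul_right _ hZc
  nlinarith

end slots

end Pool.Agent.GG38.Q
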